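import Pool.Agent.NUC43.Knd
import Pool.Agent.NUM3.En

/-!
# Configurations of objects: densities, equation, energy

`O : ι → NUO.Xo`.  `muC a` = density of the potentials of all objects on the species `a`, `tauC` = density
of the splitting, `linC a` = sum of the potentials (base offsets, slack included).

* `cfg_eq`: `linC a t - sg a * lgp tauC t = ∫ muC a u * V (t - u)`;
* `cfg_energy`: `1/2 ∫ tauC lgp tauC + ∑_a 1/2 ∫ muC a (V * muC a) = 1/2 ∑ ∑ ER`.
-/

set_option autoImplicit false

open MeasureTheory Set Filter Topology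

namespace NUC43

noncomputable section

open NUMF (l l_pos g h V Lh Uh ck1 sk sk_pos lq lqg)
open NUO (Kind Xo kd ht)
open Pool.Agent.NUM3 (EV EU ER)

/-- density of a kind on its own species -/
def sgX (j e : ℝ) (K : Kind) : ℝ → ℝ := dO (kF j e K) (kG j e K)
/-- density of a kind on the other species -/
def sgY (j e : ℝ) (K : Kind) : ℝ → ℝ := dX (kF j e K) (kG j e K)
/-- density of the splitting of a kind -/
def sgT (j e : ℝ) (K : Kind) : ℝ → ℝ := dT (kG j e K)

/-- good densities -/
structure Dn (f : ℝ → ℝ) : Prop where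
  cont : Continuous f
  bd : ∃ M : ℝ, 0 ≤ M ∧ ∀ t, |f t| ≤ M * Real.exp (-(5 / 2) * |t|)

lemma Dn.int {f : ℝ → ℝ} (hf : Dn f) : Integrable f := by
  obtain ⟨M, h0, hM⟩ := hf.bd
  exact ((NUMF.int_exp_abs (b := 5 / 2) (by norm_num)).const_mul M).mono' hf.cont.aestronglyMeasurable
    (Eventually.of_forall fun t => hM t)

lemma Dn.bdd {f : ℝ → ℝ} (hf : Dn f) : ∃ M : ℝ, 0 ≤ M ∧ ∀ t, |f t| ≤ M := by
  obtain ⟨M, h0, hM⟩ := hf.bd
  refine ⟨M, h0, fun t => (hM t).trans ?_⟩
  have : Real.exp (-(5 / 2) * |t|) ≤ 1 := Real.exp_le_one_iff.2 (by have := abs_nonneg t; linarith)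
  exact mul_le_of_le_one_right h0 this

lemma Dn.wint {f : ℝ → ℝ} (hf : Dn f) : Integrable fun t => (1 + |t|) * f t := by
  obtain ⟨M, h0, hM⟩ := hf.bd
  have h1 := (NUMF.int_exp_abs (b := 3 / 2) (by norm_num)).const_mul M
  have hc := hf.cont
  refine h1.mono' (Continuous.aestronglyMeasurable (by fun_prop)) (Eventually.of_forall fun t => ?_)
  rw [Real.norm_eq_abs, abs_mul, abs_of_nonneg (by positivity : 0 ≤ 1 + |t|)]
  have h2 : 1 + |t| ≤ Real.exp |t| := by linarith [Real.add_one_le_exp |t|]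
  calc (1 + |t|) * |f t| ≤ Real.exp |t| * (M * Real.exp (-(5 / 2) * |t|)) := by
        gcongr
        exact hM t
    _ = M * (Real.exp |t| * Real.exp (-(5 / 2) * |t|)) := by ring
    _ = _ := by
      rw [← Real.exp_add]
      congr 2
      ring

lemma Dn.shift {f : ℝ → ℝ} (hf : Dn f) (x : ℝ) : Dn fun t => f (t - x) := by
  obtain ⟨M, h0, hM⟩ := hf.bd
  have hc := hf.cont
  refine ⟨by fun_prop, M * Real.exp (5 / 2 * |x|), by positivity, fun t => (hM _).trans ?_⟩
  rw [mul_assoc, ← Real.exp_add]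
  refine mul_le_mul_of_nonneg_left (Real.exp_le_exp.2 ?_) h0
  have := abs_sub_abs_le_abs_sub t x
  linarith

lemma Dn.smul {f : ℝ → ℝ} (hf : Dn f) (c : ℝ) : Dn fun t => c * f t := by
  obtain ⟨M, h0, hM⟩ := hf.bd
  have hc := hf.cont
  refine ⟨by fun_prop, |c| * M, by positivity, fun t => ?_⟩
  rw [abs_mul, mul_assoc]
  exact mul_le_mul_of_nonneg_left (hM t) (abs_nonneg c)

lemma Dn.sum {ι : Type*} (s : Finset ι) {f : ι → ℝ → ℝ} (hf : ∀ i, Dn (f i)) : Dn fun t => ∑ i ∈ s, f i t := by
  choose M h0 hM using fun i => (hf i).bd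
  refine ⟨continuous_finsetSum _ fun i _ => (hf i).cont, ∑ i ∈ s, M i,
    Finset.sum_nonneg fun i _ => h0 i, fun t => ?_⟩
  rw [Finset.sum_mul]
  exact (Finset.abs_sum_le_sum_abs _ _).trans (Finset.sum_le_sum fun i _ => hM i t)

/-! ### bilinear forms -/

lemma V_in {f : ℝ → ℝ} (hf : Dn f) (t : ℝ) : Integrable fun u => f u * V (t - u) := by
  obtain ⟨M, h0, hM⟩ := hf.bdd
  have h1 : Integrable fun u => V (t - u) := V_integrable.comp_sub_left t
  exact (h1.mul_bdd (c := M) hf.cont.aestronglyMeasurable (Eventually.of_forall hM)).congr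
    (Eventually.of_forall fun u => mul_comm _ _)

lemma V_cv (f : ℝ → ℝ) (t : ℝ) : ∫ u, f u * V (t - u) = NUC37.cv V f t := by
  unfold NUC37.cv
  congr 1
  funext u
  ring

lemma V_out {f f' : ℝ → ℝ} (hf : Dn f) (hf' : Dn f') : Integrable fun t => f t * ∫ u, f' u * V (t - u) := by
  obtain ⟨M, h0, hM⟩ := hf'.bdd
  simp_rw [V_cv]
  exact hf.int.mul_bdd (NUC37.cv_cont V_integrable hf'.cont hM).aestronglyMeasurable
    (Eventually.of_forall (NUC37.cv_bound V_integrable hM))

lemma lgm_abs (t : ℝ) : |NUE.lgm t| ≤ 2 * (1 + |t|) := by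
  rw [abs_of_nonneg (Pool.Agent.NUM3.lgm_nonneg t)]
  exact NUE.lgm_le t

lemma lgm_in {f : ℝ → ℝ} (hf : Dn f) (t : ℝ) : Integrable fun u => f u * NUE.lgm (t - u) := by
  have hc := hf.cont
  have hl := NUE.lgm_cont
  refine ((hf.wint.abs).const_mul (2 * (1 + |t|))).mono' (Continuous.aestronglyMeasurable (by fun_prop))
    (Eventually.of_forall fun u => ?_)
  rw [Real.norm_eq_abs, abs_mul, abs_mul, abs_of_nonneg (by positivity : 0 ≤ 1 + |u|)]
  have h1 := lgm_abs (t - u)
  have h2 : |t - u| ≤ |t| + |u| := abs_sub t u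
  have a := abs_nonneg t
  have b := abs_nonneg u
  have c := abs_nonneg (f u)
  have h3 : |NUE.lgm (t - u)| ≤ 2 * (1 + |t|) * (1 + |u|) := by nlinarith [mul_nonneg a b]
  calc |f u| * |NUE.lgm (t - u)| ≤ |f u| * (2 * (1 + |t|) * (1 + |u|)) := by gcongr
    _ = _ := by ring

lemma lg_in {f : ℝ → ℝ} (hf : Dn f) (t : ℝ) : Integrable fun u => f u * Real.log (g (t - u)) := by
  have h1 := (hf.int.mul_const (Real.log (g 0))).sub (lgm_in hf t)
  refine h1.congr (Eventually.of_forall fun u => ?_)
  simp only [Pi.sub_apply, NUE.lgm]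
  ring

lemma lgp_eq {f : ℝ → ℝ} (hf : Dn f) (t : ℝ) :
    lgp f t = (∫ u, f u) * Real.log (g 0) - ∫ u, NUE.lgm (t - u) * f u := by
  unfold lgp
  have h2 := lgm_in hf t
  rw [← integral_mul_const, show (∫ u, NUE.lgm (t - u) * f u) = ∫ u, f u * NUE.lgm (t - u) by
    congr 1; funext u; ring, ← integral_sub (hf.int.mul_const _) h2]
  congr 1
  funext u
  unfold NUE.lgm
  ring

lemma lg_out {f f' : ℝ → ℝ} (hf : Dn f) (hf' : Dn f') : Integrable fun t => f t * lgp f' t := by
  have h1 := (Pool.Agent.NUM3.joint_lg (τ₁ := fun t => f (-t)) (τ₂ := f') hf.int.comp_neg hf'.int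
    (by
      have := hf.wint.comp_neg
      simp only [abs_neg] at this
      exact this) hf'.wint 0 0).integral_prod_left
  simp only [integral_const_mul, sub_zero, zero_sub, neg_neg] at h1
  simp_rw [lgp_eq hf']
  refine ((hf.int.mul_const ((∫ u, f' u) * Real.log (g 0))).sub h1).congr
    (Eventually.of_forall fun t => ?_)
  simp only [Pi.sub_apply]
  ring

/-- double sums -/
lemma bil_sum {ι : Type*} (s : Finset ι) {p q : ι → ℝ → ℝ} {W : ℝ → ℝ}
    (hin : ∀ k t, Integrable fun u => q k u * W (t - u))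
    (hout : ∀ i k, Integrable fun t => p i t * ∫ u, q k u * W (t - u)) :
    ∫ t, (∑ i ∈ s, p i t) * ∫ u, (∑ k ∈ s, q k u) * W (t - u) =
      ∑ i ∈ s, ∑ k ∈ s, ∫ t, p i t * ∫ u, q k u * W (t - u) := by
  have h1 : ∀ t, ∫ u, (∑ k ∈ s, q k u) * W (t - u) = ∑ k ∈ s, ∫ u, q k u * W (t - u) := by
    intro t
    rw [← integral_finsetSum _ fun k _ => hin k t]
    congr 1
    funext u
    rw [Finset.sum_mul]
  simp_rw [h1, Finset.sum_mul_sum]
  rw [integral_finsetSum _ fun i _ => integrable_finsetSum _ fun k _ => hout i k]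
  refine Finset.sum_congr rfl fun i _ => ?_
  rw [integral_finsetSum _ fun k _ => hout i k]

lemma bil_V {f f' : ℝ → ℝ} (he : ∀ t, f (-t) = f t) (x y : ℝ) :
    ∫ t, f (t - x) * ∫ u, f' (u - y) * V (t - u) = EV f f' x y := by
  unfold EV
  congr 1
  funext t
  rw [← he (t - x), neg_sub]
  congr 2
  funext u
  ring

lemma bil_U {f f' : ℝ → ℝ} (he : ∀ t, f (-t) = f t) (x y : ℝ) :
    ∫ t, f (t - x) * ∫ u, f' (u - y) * Real.log (g (t - u)) = -EU f f' x y := by
  unfold EU
  rw [← integral_neg]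
  congr 1
  funext t
  rw [← he (t - x), neg_sub, ← mul_neg, ← integral_neg]
  congr 2
  funext u
  ring

/-! ### the kinds -/

variable {j e : ℝ}

lemma dnX (h : Adm j e) (K : Kind) : Dn (sgX j e K) := by
  obtain ⟨M, h0, hM⟩ := (chgK h K).decay
  exact ⟨(chgK h K).contO, M, h0, fun t => (hM t).1⟩
lemma dnY (h : Adm j e) (K : Kind) : Dn (sgY j e K) := by
  obtain ⟨M, h0, hM⟩ := (chgK h K).decay
  exact ⟨(chgK h K).contX, M, h0, fun t => (hM t).2.1⟩
lemma dnT (h : Adm j e) (K : Kind) : Dn (sgT j e K) := by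
  obtain ⟨M, h0, hM⟩ := (chgK h K).decay
  exact ⟨(chgK h K).contT, M, h0, fun t => (hM t).2.2⟩

lemma evX (j e : ℝ) (K : Kind) (t : ℝ) : sgX j e K (-t) = sgX j e K t := by
  unfold sgX dO; exact inv_neg' _ t
lemma evY (j e : ℝ) (K : Kind) (t : ℝ) : sgY j e K (-t) = sgY j e K t := by
  unfold sgY dX; exact inv_neg' _ t
lemma evT (j e : ℝ) (K : Kind) (t : ℝ) : sgT j e K (-t) = sgT j e K t := by
  unfold sgT dT; exact inv_neg' _ t

/-- density on the species `a` of an object of species `b` -/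
def sgS (j e : ℝ) (same : Bool) (K : Kind) : ℝ → ℝ := if same then sgX j e K else sgY j e K
/-- potential on the species `a` of an object of species `b` -/
def kS (j e : ℝ) (same : Bool) (K : Kind) : ℝ → ℝ := if same then kA j e K else kB j e K

lemma dnS (h : Adm j e) (s : Bool) (K : Kind) : Dn (sgS j e s K) := by
  cases s
  · exact dnY h K
  · exact dnX h K
lemma evS (j e : ℝ) (s : Bool) (K : Kind) (t : ℝ) : sgS j e s K (-t) = sgS j e s K t := by
  cases s
  · exact evY j e K t
  · exact evX j e K t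

/-- sign of a species -/
def sg (a : Bool) : ℝ := if a then 1 else -1

variable {ι : Type*} [Fintype ι]

/-- density of all objects on the species `a` -/
def muC (j e : ℝ) (O : ι → Xo) (a : Bool) (t : ℝ) : ℝ :=
  ∑ i, sgS j e (NUO.sp (O i) == a) (kd (O i)) (t - ht (O i))
/-- density of the splitting -/
def tauC (j e : ℝ) (O : ι → Xo) (t : ℝ) : ℝ :=
  ∑ i, sg (NUO.sp (O i)) * sgT j e (kd (O i)) (t - ht (O i))
/-- potentials of all objects on the species `a` -/
def linC (j e : ℝ) (O : ι → Xo) (a : Bool) (t : ℝ) : ℝ :=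
  ∑ i, kS j e (NUO.sp (O i) == a) (kd (O i)) (t - ht (O i))

theorem dn_muC (h : Adm j e) (O : ι → Xo) (a : Bool) : Dn (muC j e O a) :=
  Dn.sum _ fun i => (dnS h _ _).shift _
theorem dn_tauC (h : Adm j e) (O : ι → Xo) : Dn (tauC j e O) :=
  Dn.sum _ fun i => ((dnT h _).shift _).smul _

/-- `mu true - mu false = tau` -/
theorem muC_sub (h : Adm j e) (O : ι → Xo) (t : ℝ) :
    muC j e O true t - muC j e O false t = tauC j e O t := by
  unfold muC tauC
  rw [← Finset.sum_sub_distrib]
  refine Finset.sum_congr rfl fun i _ => ?_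
  have := (chgK h (kd (O i))).split (t - ht (O i))
  rcases hb : NUO.sp (O i) with _ | _
  · simp only [sgS, sg, sgX, sgY, sgT, beq_self_eq_true, if_true, Bool.false_eq_true,
      show (false == true) = false from rfl, if_false]
    linarith
  · simp only [sgS, sg, sgX, sgY, sgT, beq_self_eq_true, if_true, Bool.false_eq_true,
      show (true == false) = false from rfl, if_false]
    linarith

/-- mass of the density of the splitting -/
theorem tauC_int (h : Adm j e) (O : ι → Xo) :
    ∫ t, tauC j e O t = -∑ i, sg (NUO.sp (O i)) * kq (kd (O i)) := by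
  unfold tauC
  rw [integral_finsetSum _ fun i _ => (((dnT h _).shift _).smul _).int, ← Finset.sum_neg_distrib]
  refine Finset.sum_congr rfl fun i _ => ?_
  rw [integral_const_mul, integral_sub_right_eq_self (fun u => sgT j e (kd (O i)) u) (ht (O i)), sgT,
    (chgK h _).intT]
  ring

lemma lgp_tauC (h : Adm j e) (O : ι → Xo) (t : ℝ) :
    lgp (tauC j e O) t = ∑ i, sg (NUO.sp (O i)) * lgp (sgT j e (kd (O i))) (t - ht (O i)) := by
  unfold lgp tauC
  have h1 : ∀ i, Integrable fun s => sg (NUO.sp (O i)) * sgT j e (kd (O i)) (s - ht (O i)) *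
      Real.log (g (t - s)) := fun i => lg_in (((dnT h _).shift _).smul _) t
  simp_rw [Finset.sum_mul]
  rw [integral_finsetSum _ fun i _ => h1 i]
  refine Finset.sum_congr rfl fun i _ => ?_
  simp_rw [mul_assoc]
  rw [integral_const_mul, ← integral_sub_right_eq_self (fun s => sgT j e (kd (O i)) s *
    Real.log (g (t - ht (O i) - s))) (ht (O i))]
  congr 2
  funext s
  rw [show t - ht (O i) - (s - ht (O i)) = t - s by ring]

lemma V_muC (h : Adm j e) (O : ι → Xo) (a : Bool) (t : ℝ) :
    ∫ u, muC j e O a u * V (t - u) =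
      ∑ i, ∫ s, V s * sgS j e (NUO.sp (O i) == a) (kd (O i)) (t - ht (O i) - s) := by
  unfold muC
  have h1 : ∀ i, Integrable fun s => sgS j e (NUO.sp (O i) == a) (kd (O i)) (s - ht (O i)) *
      V (t - s) := fun i => V_in ((dnS h _ _).shift _) t
  simp_rw [Finset.sum_mul]
  rw [integral_finsetSum _ fun i _ => h1 i]
  refine Finset.sum_congr rfl fun i _ => ?_
  rw [← integral_sub_left_eq_self (fun s => V s * sgS j e (NUO.sp (O i) == a) (kd (O i))
    (t - ht (O i) - s)) volume t]
  congr 1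
  funext s
  rw [show t - ht (O i) - (t - s) = s - ht (O i) by ring]
  ring

/-- **The equation of the densities.** -/
theorem cfg_eq (h : Adm j e) (O : ι → Xo) (a : Bool) (t : ℝ) :
    linC j e O a t - sg a * lgp (tauC j e O) t = ∫ u, muC j e O a u * V (t - u) := by
  rw [V_muC h, lgp_tauC h, linC, Finset.mul_sum, ← Finset.sum_sub_distrib]
  refine Finset.sum_congr rfl fun i _ => ?_
  have h1 := (chgK h (kd (O i))).own (t - ht (O i))
  have h2 := (chgK h (kd (O i))).oth (t - ht (O i))
  rcases hb : NUO.sp (O i) with _ | _ <;> cases a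
  · simp only [kS, sgS, sgX, sgY, sgT, sg, beq_self_eq_true, if_true, Bool.false_eq_true, if_false]
    linarith
  · simp only [kS, sgS, sgX, sgY, sgT, sg, show (false == true) = false from rfl, if_true,
      Bool.false_eq_true, if_false]
    linarith
  · simp only [kS, sgS, sgX, sgY, sgT, sg, show (true == false) = false from rfl, if_true,
      Bool.false_eq_true, if_false]
    linarith
  · simp only [kS, sgS, sgX, sgY, sgT, sg, beq_self_eq_true, if_true, Bool.false_eq_true, if_false]
    linarith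

/-- **The energy of the densities is a sum over pairs.** -/
theorem cfg_energy (h : Adm j e) (O : ι → Xo) :
    1 / 2 * (∫ t, tauC j e O t * lgp (tauC j e O) t) +
      ∑ a : Bool, 1 / 2 * (∫ t, muC j e O a t * ∫ u, muC j e O a u * V (t - u)) =
    1 / 2 * ∑ i, ∑ k, ER (sgX j e) (sgY j e) (sgT j e) (NUO.sp (O i) == NUO.sp (O k)) (kd (O i)) (kd (O k))
      (ht (O i)) (ht (O k)) := by
  have e1 : ∀ a : Bool, (∫ t, muC j e O a t * ∫ u, muC j e O a u * V (t - u)) =
      ∑ i, ∑ k, EV (sgS j e (NUO.sp (O i) == a) (kd (O i))) (sgS j e (NUO.sp (O k) == a) (kd (O k)))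
        (ht (O i)) (ht (O k)) := by
    intro a
    unfold muC
    rw [bil_sum Finset.univ (p := fun i t => sgS j e (NUO.sp (O i) == a) (kd (O i)) (t - ht (O i)))
      (q := fun i t => sgS j e (NUO.sp (O i) == a) (kd (O i)) (t - ht (O i)))
      (fun k t => V_in ((dnS h _ _).shift _) t) (fun i k => V_out ((dnS h _ _).shift _) ((dnS h _ _).shift _))]
    refine Finset.sum_congr rfl fun i _ => Finset.sum_congr rfl fun k _ => ?_
    exact bil_V (evS j e _ _) _ _
  have e2 : (∫ t, tauC j e O t * lgp (tauC j e O) t) =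
      ∑ i, ∑ k, -(sg (NUO.sp (O i)) * sg (NUO.sp (O k)) *
        EU (sgT j e (kd (O i))) (sgT j e (kd (O k))) (ht (O i)) (ht (O k))) := by
    unfold lgp tauC
    rw [bil_sum Finset.univ (W := fun t => Real.log (g t))
      (p := fun i t => sg (NUO.sp (O i)) * sgT j e (kd (O i)) (t - ht (O i)))
      (q := fun i t => sg (NUO.sp (O i)) * sgT j e (kd (O i)) (t - ht (O i)))
      (fun k t => lg_in (((dnT h _).shift _).smul _) t)
      (fun i k => lg_out (((dnT h _).shift _).smul _) (((dnT h _).shift _).smul _))]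
    refine Finset.sum_congr rfl fun i _ => Finset.sum_congr rfl fun k _ => ?_
    have h1 := bil_U (f := sgT j e (kd (O i))) (f' := sgT j e (kd (O k))) (evT j e _) (ht (O i)) (ht (O k))
    have h2 : ∀ t, sg (NUO.sp (O i)) * sgT j e (kd (O i)) (t - ht (O i)) *
        (∫ u, sg (NUO.sp (O k)) * sgT j e (kd (O k)) (u - ht (O k)) * Real.log (g (t - u))) =
        sg (NUO.sp (O i)) * sg (NUO.sp (O k)) * (sgT j e (kd (O i)) (t - ht (O i)) *
          ∫ u, sgT j e (kd (O k)) (u - ht (O k)) * Real.log (g (t - u))) := by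
      intro t
      simp_rw [mul_assoc]
      rw [integral_const_mul]
      ring
    simp_rw [h2]
    rw [integral_const_mul, h1]
    ring
  rw [Fintype.sum_bool, e1, e1, e2, ← mul_add, ← mul_add, ← Finset.sum_add_distrib,
    ← Finset.sum_add_distrib]
  congr 1
  refine Finset.sum_congr rfl fun i _ => ?_
  rw [← Finset.sum_add_distrib, ← Finset.sum_add_distrib]
  refine Finset.sum_congr rfl fun k _ => ?_
  unfold ER
  rcases hb : NUO.sp (O i) with _ | _ <;> rcases hb' : NUO.sp (O k) with _ | _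
  · simp only [sgS, sg, Pool.Agent.NUM3.sgn, beq_self_eq_true, if_true, Bool.false_eq_true, if_false,
      show (false == true) = false from rfl]
    ring
  · simp only [sgS, sg, Pool.Agent.NUM3.sgn, beq_self_eq_true, if_true, Bool.false_eq_true, if_false,
      show (false == true) = false from rfl, show (true == false) = false from rfl]
    ring
  · simp only [sgS, sg, Pool.Agent.NUM3.sgn, beq_self_eq_true, if_true, Bool.false_eq_true, if_false,
      show (false == true) = false from rfl, show (true == false) = false from rfl]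
    ring
  · simp only [sgS, sg, Pool.Agent.NUM3.sgn, beq_self_eq_true, if_true, Bool.false_eq_true, if_false,
      show (true == false) = false from rfl]
    ring

/-- pointwise bound of the densities by the windows of the objects -/
theorem muC_bd (h : Adm j e) : ∃ M : ℝ, 0 ≤ M ∧ ∀ (ι : Type) [Fintype ι] (O : ι → Xo) (a : Bool) (t : ℝ),
    |muC j e O a t| ≤ M * ∑ i, Real.exp (-(5 / 2) * |t - ht (O i)|) ∧
    |tauC j e O t| ≤ M * ∑ i, Real.exp (-(5 / 2) * |t - ht (O i)|) := by
  choose MX hX0 hX using fun K => (dnX h K).bd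
  choose MY hY0 hY using fun K => (dnY h K).bd
  choose MT hT0 hT using fun K => (dnT h K).bd
  set M : ℝ := ∑ K, (MX K + MY K + MT K) with hM
  have hle : ∀ K, MX K ≤ M ∧ MY K ≤ M ∧ MT K ≤ M := by
    intro K
    have h1 : MX K + MY K + MT K ≤ M := Finset.single_le_sum (f := fun K => MX K + MY K + MT K)
      (fun K _ => by have := hX0 K; have := hY0 K; have := hT0 K; positivity) (Finset.mem_univ K)
    have := hX0 K
    have := hY0 K
    have := hT0 K
    exact ⟨by linarith, by linarith, by linarith⟩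
  refine ⟨M, (hX0 .L).trans (hle .L).1, fun ι _ O a t => ⟨?_, ?_⟩⟩
  · unfold muC
    rw [Finset.mul_sum]
    refine (Finset.abs_sum_le_sum_abs _ _).trans (Finset.sum_le_sum fun i _ => ?_)
    unfold sgS
    split_ifs
    · exact (hX _ _).trans (mul_le_mul_of_nonneg_right (hle _).1 (Real.exp_pos _).le)
    · exact (hY _ _).trans (mul_le_mul_of_nonneg_right (hle _).2.1 (Real.exp_pos _).le)
  · unfold tauC
    rw [Finset.mul_sum]
    refine (Finset.abs_sum_le_sum_abs _ _).trans (Finset.sum_le_sum fun i _ => ?_)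
    have h1 : |sg (NUO.sp (O i))| = 1 := by
      unfold sg
      split_ifs <;> simp
    rw [abs_mul, h1, one_mul]
    exact (hT _ _).trans (mul_le_mul_of_nonneg_right (hle _).2.2 (Real.exp_pos _).le)

end

end NUC43
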