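import Pool.Agent.NUC43.Chg
import Pool.Agent.NUO.MHat

/-!
# The slack of the strings

`Sl k = PP k * psi (zk k)`; `slk` = the even function with the transform `Sl`; the charge
`chg_slk : Chg ... 0 slk 0 (-Sl) 0 slp slm`.
-/

set_option autoImplicit false

open MeasureTheory Set Filter Topology

namespace NUC43

noncomputable section

open NUMF (l l_pos g h V Lh Uh ck1 sk sk_pos lq lqg)

/-- `2/x + (6/5)/(x h)`, `x = cosh (y/4)`, `h = cosh (y/2)` -/
def xw (z : ℂ) : ℂ := (2 : ℝ) * (cc (1 / 4) z)⁻¹ + ((6 / 5 : ℝ) : ℂ) * ((cc (1 / 4) z)⁻¹ * (cc (1 / 2) z)⁻¹)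

lemma gr_xw : Gr (-(1 / 4)) xw := by
  have h1 := gr_inv_cc (a := 1 / 4) (by norm_num) (by norm_num)
  have h2 := gr_inv_cc (a := 1 / 2) (by norm_num) (by norm_num)
  exact (h1.smul 2).add (((h1.mul' h2 (γ := -(3 / 4)) (by norm_num)).smul (6 / 5)).mono (by norm_num))

/-- symbol `psi / up` -/
def slp (z : ℂ) : ℂ := ((cc 2 z * cc 1 z) * xw z) * (im z * (ip z * ip z))
/-- symbol `psi / um` -/
def slm (z : ℂ) : ℂ := (((cc 2 z * cc 1 z) * pc (-1) 1 0 0 z) * xw z) * ((im z * (im z * im z)) * ih z)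

lemma gr_c21 : Gr 3 (fun z => cc 2 z * cc 1 z) :=
  (gr_cc' (a := 2) (γ := 2) (by rw [abs_of_pos (by norm_num)])).mul' gr_c1 (by norm_num)

theorem gr_slp : Gr (-(1 / 4)) slp :=
  (gr_c21.mul' gr_xw (γ := 11 / 4) (by norm_num)).mul' gr_imip2 (by norm_num)

theorem gr_slm : Gr (-(1 / 4)) slm :=
  ((gr_c21.mul' (gr_pc1 (-1) 1) (γ := 4) (by norm_num)).mul' gr_xw (γ := 15 / 4) (by norm_num)).mul' gr_im3ih
    (by norm_num)

/-- transform of the slack -/
def Sl (k : ℝ) : ℝ := NUMH.PP k * NUSB.psi (NUMH.zk k)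

lemma ch_eq (n : ℕ) (k : ℝ) : NUSB.ch n (NUMH.zk k) = Real.cosh ((n : ℝ) / 4 * l * k) := by
  unfold NUSB.ch NUMH.zk l
  congr 1
  ring

lemma PP_eq (k : ℝ) : NUMH.PP k = 2 * Real.pi / (k * sk k) := by
  unfold NUMH.PP NUMH.zk sk
  rw [show 16 * (Real.pi * k / 32) = Real.pi / 2 * k by ring]

lemma ch4_eq (k : ℝ) : NUSB.ch 4 (NUMH.zk k) = Real.cosh (1 * l * k) := by
  rw [ch_eq]; norm_num

/-- `U₊ = PP up` -/
lemma Uh_up (k : ℝ) : Uh k = NUMH.PP k * NUSB.up (NUMH.zk k) := by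
  rw [PP_eq]
  unfold NUSB.up Uh
  rw [ch4_eq, ck1_eq]
  ring

/-- `U₋ = PP um` -/
lemma Um_um (k : ℝ) : Uh k + 2 * Lh k = NUMH.PP k * NUSB.um (NUMH.zk k) := by
  rw [PP_eq, Um_eq]
  unfold NUSB.um
  rw [ch4_eq]
  ring

lemma xw_real (k : ℝ) : xw k = ((2 / Real.cosh (1 / 4 * l * k) +
    (6 / 5) / (Real.cosh (1 / 4 * l * k) * Real.cosh (1 / 2 * l * k)) : ℝ) : ℂ) := by
  unfold xw
  rw [cc_real, cc_real]
  push_cast
  have h1 : (Complex.cosh (1 / 4 * l * k)) ≠ 0 := by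
    have := (Real.cosh_pos (1 / 4 * l * k)).ne'
    have h2 : ((Real.cosh (1 / 4 * l * k) : ℝ) : ℂ) ≠ 0 := by exact_mod_cast this
    push_cast at h2
    exact h2
  have h3 : (Complex.cosh (1 / 2 * l * k)) ≠ 0 := by
    have := (Real.cosh_pos (1 / 2 * l * k)).ne'
    have h2 : ((Real.cosh (1 / 2 * l * k) : ℝ) : ℂ) ≠ 0 := by exact_mod_cast this
    push_cast at h2
    exact h2
  field_simp

/-- value of `psi` -/
lemma psi_eq (k : ℝ) : NUSB.psi (NUMH.zk k) = (2 * Real.cosh (1 * l * k) ^ 2 - 1) * Real.cosh (1 * l * k) *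
    (Real.cosh (1 * l * k) - 1) * (2 / Real.cosh (1 / 4 * l * k) +
    (6 / 5) / (Real.cosh (1 / 4 * l * k) * Real.cosh (1 / 2 * l * k))) := by
  unfold NUSB.psi
  rw [ch4_eq, ch_eq, ch_eq, ch_eq]
  rw [show ((8 : ℕ) : ℝ) / 4 * l * k = 2 * l * k by norm_num,
    show ((1 : ℕ) : ℝ) / 4 * l * k = 1 / 4 * l * k by norm_num,
    show ((2 : ℕ) : ℝ) / 4 * l * k = 1 / 2 * l * k by norm_num, c_two]

/-- `up * slp = psi` -/
lemma up_slp (k : ℝ) : NUSB.up (NUMH.zk k) * (slp k).re = NUSB.psi (NUMH.zk k) := by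
  have hc : 1 ≤ Real.cosh (1 * l * k) := Real.one_le_cosh _
  have h2 : 2 * Real.cosh (1 * l * k) - 1 ≠ 0 := by linarith
  have h3 : 2 * Real.cosh (1 * l * k) + 1 ≠ 0 := by linarith
  rw [psi_eq]
  unfold slp NUSB.up
  rw [ch4_eq, cc_real, cc_real, im_real, ip_real, xw_real]
  simp only [← Complex.ofReal_mul, Complex.ofReal_re]
  rw [c_two]
  generalize 2 / Real.cosh (1 / 4 * l * k) +
    (6 / 5) / (Real.cosh (1 / 4 * l * k) * Real.cosh (1 / 2 * l * k)) = X at *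
  generalize Real.cosh (1 * l * k) = c at *
  have h4 : c * 2 - 1 ≠ 0 := by linarith
  field_simp

/-- `um * slm = psi` -/
lemma um_slm (k : ℝ) : NUSB.um (NUMH.zk k) * (slm k).re = NUSB.psi (NUMH.zk k) := by
  have hc : 1 ≤ Real.cosh (1 * l * k) := Real.one_le_cosh _
  have h2 : 2 * Real.cosh (1 * l * k) - 1 ≠ 0 := by linarith
  have h3 : Real.cosh (1 * l * k) + 1 ≠ 0 := by linarith
  rw [psi_eq]
  unfold slm NUSB.um
  rw [ch4_eq, cc_real, cc_real, im_real, ih_real, xw_real, pc_real]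
  simp only [← Complex.ofReal_mul, Complex.ofReal_re]
  rw [c_two]
  generalize 2 / Real.cosh (1 / 4 * l * k) +
    (6 / 5) / (Real.cosh (1 / 4 * l * k) * Real.cosh (1 / 2 * l * k)) = X at *
  generalize Real.cosh (1 * l * k) = c at *
  have h4 : c * 2 - 1 ≠ 0 := by linarith
  field_simp
  ring

lemma slm_zero : (slm 0).re = 0 := by
  have h1 := um_slm 0
  rw [psi_eq] at h1
  unfold NUSB.um at h1
  rw [ch4_eq] at h1
  simp only [mul_zero, Real.cosh_zero, sub_self, zero_mul] at h1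
  rw [Complex.ofReal_zero] at h1
  norm_num at h1
  exact h1

/-- the slack potential -/
def slk (t : ℝ) : ℝ := ∫ k in Ioi (0:ℝ), 2 * Real.cos (t * k) * (Sl k / (2 * Real.pi))

lemma Sl_eq (k : ℝ) : Sl k = Uh k * (slp k).re := by
  unfold Sl
  rw [Uh_up, mul_assoc, up_slp]

lemma Sl_int : IntegrableOn Sl (Ioi 0) := by
  have h1 : IntegrableOn (fun k : ℝ => (slp k).re) (Ioi 0) := gr_slp.inv_rep (by norm_num)
  have h2 : IntegrableOn (fun k : ℝ => (slp k).re * ct V k) (Ioi 0) :=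
    Integrable.mul_bdd (c := ∫ t, |V t|) h1 (ct_cont V_integrable).aestronglyMeasurable
      (Eventually.of_forall fun k => by rw [Real.norm_eq_abs]; exact ct_le V_integrable k)
  refine h2.congr_fun (fun k hk => ?_) measurableSet_Ioi
  simp only []
  rw [ct_V hk, Sl_eq, mul_comm]

theorem chg_slk : Chg (-(1 / 4)) 0 slk (fun _ => 0) (fun k => -Sl k) (fun _ => 0) slp slm where
  neg := by norm_num
  gF := gr_slp
  gG := gr_slm
  q0 := by rw [slm_zero, neg_zero]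
  iA := Sl_int.neg.congr (Eventually.of_forall fun k => by simp)
  iB := by simp
  ra t := by
    unfold slk
    rw [← integral_neg, zero_mul, add_zero]
    congr 1
    funext k
    ring
  rb t := by simp
  hp k _ := by rw [← Sl_eq]; ring
  hm k _ := by
    rw [Um_um, mul_assoc, um_slm]
    unfold Sl
    ring

end

end NUC43
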