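import Pool.Agent.NUC43.InvD
import Pool.Agent.NUC43.Slk
import Pool.Agent.NUO.SlackN

/-!
# The slack potential: smoothness, decay, closed form
-/

set_option autoImplicit false

open MeasureTheory Set Filter Topology

namespace NUC43

noncomputable section

open NUMF (l l_pos)

lemma gr_sc (a : ℝ) : Gr |a| (sc a) := by
  have hl := l_pos
  refine gr_of_far (C := 1) (fun z _ => sc_diff a z) (fun z _ h1 => ?_) (sc_even a) (fun x => ?_)
  · have hz0 : z ≠ 0 := by
      rintro rfl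
      simp at h1
      linarith
    have h2 : 1 ≤ ‖z‖ := h1.trans (Complex.abs_re_le_norm z)
    rw [sc_of_ne a hz0, norm_div, one_mul]
    refine (div_le_self (norm_nonneg _) h2).trans ((norm_sinh_le_exp _).trans (le_of_eq ?_))
    rw [re_al, abs_mul, abs_mul, abs_of_pos hl, mul_assoc]
  · rw [sc_real, Complex.ofReal_im]

/-- `ψ^ = (2π/k) sinh (y/4) (1/h + (3/5)/h²)` -/
def psz (z : ℂ) : ℂ := ((2 * Real.pi : ℝ) : ℂ) * (sc (1 / 4) z * ((cc (1 / 2) z)⁻¹ *
  (((1 : ℝ) : ℂ) + ((3 / 5 : ℝ) : ℂ) * (cc (1 / 2) z)⁻¹)))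

lemma gr_psz : Gr (-1 / 4) psz := by
  have h0 := gr_sc (1 / 4)
  rw [abs_of_pos (by norm_num)] at h0
  have h2 : Gr (-(1 / 2)) (fun z => (cc (1 / 2) z)⁻¹) := gr_inv_cc (by norm_num) (by norm_num)
  exact (h0.mul' (h2.mul' ((gr_const 1).add ((h2.smul (3 / 5)).mono (by norm_num)))
    (γ := -1 / 2) (by norm_num)) (by norm_num)).smul (2 * Real.pi)

lemma psz_real {k : ℝ} (hk : 0 < k) : psz k = ((2 * Real.pi * (Real.sinh (1 / 4 * l * k) / k *
    (1 / Real.cosh (1 / 2 * l * k) * (1 + 3 / 5 * (1 / Real.cosh (1 / 2 * l * k))))) : ℝ) : ℂ) := by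
  unfold psz
  rw [sc_real, if_neg hk.ne', cc_real]
  push_cast
  simp only [one_div]

lemma Sl_psk {k : ℝ} (hk : 0 < k) : Sl k = NUSlk.psk k := (NUSlk.psk_eq hk).symm

lemma Sl_psz {k : ℝ} (hk : 0 < k) : Sl k = (psz k).re := by
  rw [Sl_psk hk, psz_real hk, Complex.ofReal_re]
  unfold NUSlk.psk NUSlk.hh NUO.yk l
  have h1 : (1 / 4 * (Real.pi / 8) * k : ℝ) = 1 / 4 * (Real.pi * k / 8) := by ring
  have h2 : (1 / 2 * (Real.pi / 8) * k : ℝ) = 1 / 2 * (Real.pi * k / 8) := by ring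
  rw [h1, h2]
  field_simp

theorem slk_inv (t : ℝ) : slk t = inv psz t := by
  unfold slk inv
  refine setIntegral_congr_fun measurableSet_Ioi fun k hk => ?_
  rw [Sl_psz hk]

theorem slk_psiS (t : ℝ) : slk t = NUSlk.psiS t := by
  unfold slk NUSlk.psiS
  rw [← integral_const_mul]
  refine setIntegral_congr_fun measurableSet_Ioi fun k hk => ?_
  rw [Sl_psk hk, mul_comm t k]
  have := Real.pi_pos
  field_simp

theorem slk_nonneg (t : ℝ) : 0 ≤ slk t := by rw [slk_psiS]; exact NUSlk.psiS_nonneg t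

theorem slk_even (t : ℝ) : slk (-t) = slk t := by rw [slk_psiS, slk_psiS, NUSlk.psiS_neg]

theorem slk_cont : Continuous slk := by
  have : slk = NUSlk.psiS := funext slk_psiS
  rw [this]
  exact NUSlk.psiS_cont

theorem slk_integrable : Integrable slk := by
  have : slk = NUSlk.psiS := funext slk_psiS
  rw [this]
  exact NUSlk.psiS_integrable

/-- all derivatives with weights -/
theorem slk_OC (j : ℕ) : ∃ M : ℝ, 0 ≤ M ∧
    NUAct.OC j (fun t => M * Real.exp (-(5 / 2) * |t|)) (fun t => ((slk t : ℝ) : ℂ)) := by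
  obtain ⟨M, hM, h⟩ := gr_psz.inv_OC j (by norm_num)
  exact ⟨M, hM, h.congr fun t => by rw [slk_inv]⟩

theorem slk_O (j : ℕ) : ∃ M : ℝ, 0 ≤ M ∧ NUOC.O j M slk := by
  obtain ⟨M, hM, h⟩ := slk_OC j
  refine ⟨M, hM, (h.re (a := M) fun t => ?_).congr fun t => by rw [Complex.ofReal_re]⟩
  have : Real.exp (-(5 / 2) * |t|) ≤ 1 := Real.exp_le_one_iff.2 (by
    have := abs_nonneg t
    linarith)
  nlinarith

/-- value and first derivative -/
theorem slk_deriv : ∃ (M : ℝ) (D : ℝ → ℝ), 0 ≤ M ∧ (∀ t, HasDerivAt slk (D t) t) ∧ Continuous D ∧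
    (∀ t, |slk t| ≤ M * Real.exp (-(5 / 2) * |t|)) ∧
    ∀ t, |D t| ≤ M * Real.exp (-(5 / 2) * |t|) := by
  have hα : (-1 / 4 : ℝ) < 0 := by norm_num
  obtain ⟨M1, m1, H1⟩ := gr_psz.inv_decay hα
  obtain ⟨M2, m2, H2⟩ := gr_psz.invD_decay hα
  have he : slk = inv psz := funext slk_inv
  refine ⟨M1 + M2, invD psz, by positivity, fun t => ?_, continuous_iff_continuousAt.2 fun t =>
    (gr_psz.invD_hasDerivAt hα t).continuousAt, fun t => ?_, fun t => ?_⟩
  · rw [he]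
    exact gr_psz.inv_hasDerivAt hα t
  · rw [slk_inv]
    exact (H1 t).trans (mul_le_mul_of_nonneg_right (by linarith) (Real.exp_pos _).le)
  · exact (H2 t).trans (mul_le_mul_of_nonneg_right (by linarith) (Real.exp_pos _).le)

end

end NUC43
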