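import Pool.Agent.NUC43.Cfg
import Pool.Agent.NUO.PotG
import Pool.Agent.NUO.SEval
import Pool.Agent.NUO.OneAct

/-!
# The constant of the action for a configuration of objects

* `mfo_eq`: `mfo (cons P O i) = ∑ clo` over the quanta of the object `i`;
* `wnu_sum`: `∑ wnu = wK (kd (O i))`;
* `S_cfg`: `gas.S = ∑_i (s mfo - 2 π wK s P η) + bil h' h' + small`.
-/

set_option autoImplicit false

open MeasureTheory Set Filter Topology Complex

namespace NUC43

noncomputable section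

open NUO (Kind Xo kd ht Par PG Off offO fq fg FO fO mfo clo wnu wK cons potN lpL)
open NUMF (P lq lqg)
open NUAct (Cur Ext)

variable {δ : ℝ} {Q : Par} {r : ℕ}

lemma list_re {L : List (ℝ × ℝ)} (hδ : 0 < δ) (hL : ∀ p ∈ L, Off δ p.1) (t : ℝ) :
    ((L.map fun p => fq p.1 ((t : ℂ) - p.2) + fg p.1 ((t : ℂ) - p.2)).sum).re =
      (L.map fun p => lq p.1 (p.2 - t) + lqg p.1 (p.2 - t)).sum := by
  induction L with
  | nil => simp
  | cons a L ih =>
    rw [List.map_cons, List.sum_cons, List.map_cons, List.sum_cons, Complex.add_re,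
      ih fun p hp => hL p (List.mem_cons_of_mem _ hp), NUSEv.f_real (hL a List.mem_cons_self) hδ]

lemma list_int (L : List (ℝ × ℝ)) :
    Integrable (fun t => P t * (L.map fun p => lq p.1 (p.2 - t) + lqg p.1 (p.2 - t)).sum) ∧
    ∫ t, P t * (L.map fun p => lq p.1 (p.2 - t) + lqg p.1 (p.2 - t)).sum =
      (L.map fun p => clo p.1 p.2).sum := by
  induction L with
  | nil => simp
  | cons a L ih =>
    obtain ⟨i1, e1⟩ := ih
    have j1 := (NUMF.int_lq a.1 a.2).1
    have j2 := (NUMF.int_lqg a.1 a.2).1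
    have j4 : Integrable fun t => P t * lq a.1 (a.2 - t) + P t * lqg a.1 (a.2 - t) := j1.add j2
    have j3 := j4.add i1
    have e : ∀ t, P t * ((a :: L).map fun p => lq p.1 (p.2 - t) + lqg p.1 (p.2 - t)).sum =
        (P t * lq a.1 (a.2 - t) + P t * lqg a.1 (a.2 - t)) +
          P t * (L.map fun p => lq p.1 (p.2 - t) + lqg p.1 (p.2 - t)).sum := by
      intro t
      rw [List.map_cons, List.sum_cons]
      ring
    simp_rw [e]
    refine ⟨j3, ?_⟩
    rw [integral_add j4 i1, integral_add j1 j2, e1, List.map_cons, List.sum_cons]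
    rfl

lemma lpL_eq (h : PG δ Q) (O : Fin r → Xo) (i : Fin r) (t : ℝ) :
    lpL (cons Q O i) (NUP1.vl NUP1.l t) =
      ((offO Q O i).map fun p => lq p.1 (p.2 - t) + lqg p.1 (p.2 - t)).sum := by
  have hl := NUMF.l_pos
  have h0 : |((t : ℝ) : ℂ).im| < δ * NUMF.l := by
    rw [Complex.ofReal_im, abs_zero]
    exact mul_pos h.δ0 hl
  have e1 : NUP1.vl NUP1.l t = (NUMF.l : ℂ) + I * ((t : ℝ) : ℂ) := by
    unfold NUP1.vl
    rw [NUO.l_eq]
    ring
  have h1 := NUO.exp_fO h O i true h0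
  have h2 := NUO.exp_fO h O i false h0
  rw [← e1] at h1 h2
  have h3 := NUO.fO_sum Q O i ((t : ℝ) : ℂ)
  unfold lpL
  rw [show NUO.ppN [(true, false, NUP1.vl NUP1.l t)] (cons Q O i) =
    potN Q O i true (NUP1.vl NUP1.l t) from rfl, show NUO.ppN [(false, false, NUP1.vl NUP1.l t)]
    (cons Q O i) = potN Q O i false (NUP1.vl NUP1.l t) from rfl, h1, h2, Real.log_exp, Real.log_exp,
    ← Complex.add_re, h3]
  exact list_re h.δ0 (fun p hp => (NUO.offO_off h O i p hp).1) t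

/-- **the interaction with the clouds, over the quanta** -/
theorem mfo_eq (h : PG δ Q) (O : Fin r → Xo) (i : Fin r) :
    mfo (cons Q O i) = ((offO Q O i).map fun p => clo p.1 p.2).sum := by
  unfold mfo
  simp_rw [lpL_eq h]
  exact (list_int _).2

/-! ### winding numbers -/

lemma off_vl (x t : ℝ) : NUO.off (NUP1.vl (x * NUP1.l) t) = 1 - x := by
  have hl := NUMF.l_pos
  unfold NUO.off NUP1.vl
  rw [NUO.l_eq]
  have e : (((x * NUP1.l : ℝ) : ℂ) + (t : ℂ) * I).re = x * NUP1.l := by simp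
  rw [e, ← NUO.l_eq, mul_div_assoc, div_self hl.ne', mul_one]

lemma off_add (w : ℂ) (x : ℝ) : NUO.off (w + (x * NUP1.l : ℝ)) = NUO.off w - x := by
  have hl := NUMF.l_pos
  unfold NUO.off
  rw [Complex.add_re, Complex.ofReal_re, add_div, ← NUO.l_eq, mul_div_assoc, div_self hl.ne']
  ring

lemma off_posL (jL t : ℝ) : NUO.off (NUO.posL jL t) = jL := by
  unfold NUO.posL
  rw [off_vl]; ring
lemma off_posT (t : ℝ) : NUO.off (NUO.posT t) = 3 / 2 := by
  unfold NUO.posT
  rw [show -(1 / 2 * NUP1.l) = (-(1 / 2)) * NUP1.l by ring, off_vl]; norm_num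
lemma off_posS (e t : ℝ) : NUO.off (NUO.posS e t) = 2 + e := by
  unfold NUO.posS
  rw [show -((1 + e) * NUP1.l) = (-(1 + e)) * NUP1.l by ring, off_vl]; ring

lemma off_posS2 (e t : ℝ) : NUO.off (NUO.posS e t + 2 * NUP1.l) = e := by
  have h := off_add (NUO.posS e t) 2
  rw [off_posS] at h
  push_cast at h
  rw [h]
  ring

lemma off_posV (e ρ t a : ℝ) : |NUO.off (NUO.posV e ρ t a) - e| ≤ |ρ| / NUMF.l := by
  have hl := NUMF.l_pos
  have h := off_posS2 e t
  unfold NUO.posV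
  unfold NUO.off at h ⊢
  rw [Complex.add_re, add_div]
  have e1 : ‖Complex.exp (2 * Real.pi * a * I)‖ = 1 := by
    rw [show (2 * Real.pi * a * I : ℂ) = ((2 * Real.pi * a : ℝ) : ℂ) * I by push_cast; ring]
    exact Complex.norm_exp_ofReal_mul_I _
  have e2 : |((ρ : ℂ) * Complex.exp (2 * Real.pi * a * I)).re| ≤ |ρ| := by
    refine (Complex.abs_re_le_norm _).trans (le_of_eq ?_)
    rw [norm_mul, e1, mul_one, Complex.norm_real, Real.norm_eq_abs]
  rw [show 1 - ((NUO.posS e t + 2 * (NUP1.l : ℂ)).re / NUMF.l +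
    ((ρ : ℂ) * Complex.exp (2 * Real.pi * a * I)).re / NUMF.l) - e =
    (1 - (NUO.posS e t + 2 * (NUP1.l : ℂ)).re / NUMF.l) - e -
      ((ρ : ℂ) * Complex.exp (2 * Real.pi * a * I)).re / NUMF.l by ring, h, sub_self, zero_sub, abs_neg,
    abs_div, abs_of_pos hl]
  gcongr

/-- **winding numbers, over the quanta** -/
theorem wnu_sum (h : PG δ Q) (O : Fin r → Xo) (i : Fin r) :
    ((offO Q O i).map fun p => wnu p.1).sum = wK (kd (O i)) ∧
    ((offO Q O i).map fun p => 1 + |wnu p.1|).sum ≤ 8 := by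
  have hl := NUMF.l_pos
  have hδ := h.δ0
  have h1 := h.e1
  have h2 := h.e2 r
  have h3 := h.d0 r
  have hj1 := h.j1
  have hj2 := h.j2
  have hr0 : (0:ℝ) ≤ (NUO.rk O i : ℝ) / r := by positivity
  have hr1 : (NUO.rk O i : ℝ) / r ≤ 1 := by
    refine div_le_one_of_le₀ ?_ (Nat.cast_nonneg r)
    have : NUO.rk O i ≤ r := by
      unfold NUO.rk
      exact (Finset.card_le_univ _).trans (by rw [Fintype.card_fin])
    exact_mod_cast this
  have he : 2 * δ ≤ NUO.ei Q O i ∧ NUO.ei Q O i ≤ 1 - 2 * δ := by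
    unfold NUO.ei
    constructor <;> nlinarith
  obtain ⟨e0, e1⟩ := he
  have hV : ∀ (t a : ℝ), wnu (NUO.off (NUO.posV (NUO.ei Q O i) (NUO.rr Q O i) t a)) = 1 := by
    intro t a
    have h4 := off_posV (NUO.ei Q O i) (NUO.rr Q O i) t a
    have h5 : |NUO.rr Q O i| / NUMF.l ≤ δ := by
      unfold NUO.rr
      rw [abs_of_nonneg (h.r0 _ _), div_le_iff₀ hl]
      exact h.r1 _ _
    have h6 := abs_le.1 (h4.trans h5)
    exact NUO.wnu_01 (by linarith [h6.1]) (by linarith [h6.2])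
  have wS : wnu (2 + NUO.ei Q O i) = 1 := NUO.wnu_23 (by linarith) (by linarith)
  have wS' : wnu (2 + NUO.ei Q O i + 1) = -1 := NUO.wnu_34 (by linarith) (by linarith)
  have wv : wnu (NUO.ei Q O i) = 1 := NUO.wnu_01 (by linarith) (by linarith)
  have wL : wnu Q.jL = 1 := NUO.wnu_23 (by linarith) (by linarith)
  have wT : wnu (3 / 2) = 0 := NUO.wnu_12 (by norm_num) (by norm_num)
  have wT' : wnu (3 / 2 + 1) = 1 := NUO.wnu_23 (by norm_num) (by norm_num)
  unfold offO cons NUO.parts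
  rcases hk : kd (O i) with _ | _ | _ | _ | _ <;>
    simp only [List.flatMap_cons, List.flatMap_nil, NUO.offs, if_true, Bool.false_eq_true, if_false,
      List.cons_append, List.nil_append, List.append_nil, List.map_cons, List.map_nil, List.sum_cons,
      List.sum_nil, off_posL, off_posT, off_posS, off_posS2, hV, wS, wS', wv, wL, wT, wT', wK] <;>
    norm_num

/-! ### the action -/

lemma sum_idx (O : Fin r → Xo) (f : ℝ × ℝ → ℝ) :
    ∑ c : (Σ i : Fin r, Fin (offO Q O i).length), f ((offO Q O c.1)[c.2.1]) =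
      ∑ i, ((offO Q O i).map f).sum := by
  rw [Fintype.sum_sigma]
  refine Finset.sum_congr rfl fun i _ => ?_
  exact Fin.sum_univ_fun_getElem (offO Q O i) f

/-- **The constant of the action of a configuration.** -/
theorem S_cfg (hδ : 0 < δ) (hδ1 : δ ≤ 1 / 2) : ∃ C : ℝ, 1 ≤ C ∧
    ∀ (s ε M b K : ℝ) (e η η1 : ℝ → ℝ) (Q : Par) (r : ℕ) (O : Fin r → Xo), PG δ Q → 0 ≤ s →
      Cur s ε M b e η → (∀ t, HasDerivAt η (η1 t) t) → 0 ≤ b → C * (b + 1) ^ 7 * ε ≤ 1 → 0 ≤ K →
      (∀ t t', |s * P t * η t - s * P t' * η t'| ≤ K * |t - t'|) →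
      |(NUSEv.gs s η η1 (FO Q O)).S - ((∑ i, (s * mfo (cons Q O i) -
        2 * Real.pi * (wK (kd (O i)) * (s * P (ht (O i)) * η (ht (O i)))))) +
        NUCR.bil (NUAct.hd s η η1) (NUAct.hd s η η1))| ≤
        C * r * (M * ε + K) + C * (b + 1) ^ 9 * M ^ 2 * ε := by
  obtain ⟨C, hC, H⟩ := NUSEv.main hδ hδ1
  refine ⟨16 * C, by linarith, ?_⟩
  intro s ε M b K e η η1 Q r O hQ hs hcur h1 hb hsm hK hKL
  have hl := NUMF.l_pos
  have hε0 := hcur.ε0
  have hM0 := hcur.M0 hs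
  have hsm' : C * (b + 1) ^ 7 * ε ≤ 1 := by
    refine le_trans ?_ hsm
    have : 0 ≤ C * (b + 1) ^ 7 * ε := by positivity
    nlinarith
  have hdl : 0 < δ * NUMF.l := mul_pos hδ hl
  have hExt : ∀ a, Ext (δ * NUMF.l / 2) (FO Q O a) := fun a =>
    NUO.ext_FO O (b := 3 / 4 * (δ * NUMF.l)) (by positivity) (by linarith) hQ a (by linarith)
  have h2 := H s ε M b K 1 e η η1 (FO Q O) (fun _ => 0) (Σ i : Fin r, Fin (offO Q O i).length)
    (fun c => ((offO Q O c.1)[c.2.1]).1) (fun c => ((offO Q O c.1)[c.2.1]).2) (fun c => ht (O c.1))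
    hs hcur h1 hb hsm' hK hKL hExt (fun c => (NUO.offO_off hQ O c.1 _ (List.getElem_mem c.2.2)).1)
    (fun c => (NUO.offO_off hQ O c.1 _ (List.getElem_mem c.2.2)).2) (fun z _ => by
      unfold FO
      rw [← Finset.sum_add_distrib, add_zero, Fintype.sum_sigma]
      refine Finset.sum_congr rfl fun i _ => ?_
      rw [NUO.fO_sum]
      exact (Fin.sum_univ_fun_getElem (offO Q O i)
        (fun p => fq p.1 (z - p.2) + fg p.1 (z - p.2))).symm)
  have s1 : ∑ c : (Σ i : Fin r, Fin (offO Q O i).length),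
      clo ((offO Q O c.1)[c.2.1]).1 ((offO Q O c.1)[c.2.1]).2 = ∑ i, mfo (cons Q O i) := by
    rw [sum_idx O (fun p => clo p.1 p.2)]
    exact Finset.sum_congr rfl fun i _ => (mfo_eq hQ O i).symm
  have s2 : ∑ c : (Σ i : Fin r, Fin (offO Q O i).length),
      wnu ((offO Q O c.1)[c.2.1]).1 * (s * P (ht (O c.1)) * η (ht (O c.1))) =
      ∑ i, wK (kd (O i)) * (s * P (ht (O i)) * η (ht (O i))) := by
    rw [Fintype.sum_sigma]
    refine Finset.sum_congr rfl fun i _ => ?_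
    simp only
    rw [← Finset.sum_mul, Fin.sum_univ_fun_getElem (offO Q O i) (fun p => wnu p.1), (wnu_sum hQ O i).1]
  have s3 : ∑ c : (Σ i : Fin r, Fin (offO Q O i).length), (1 + |wnu ((offO Q O c.1)[c.2.1]).1|) ≤ 8 * r := by
    rw [sum_idx O (fun p => 1 + |wnu p.1|)]
    refine (Finset.sum_le_sum fun i _ => (wnu_sum hQ O i).2).trans (le_of_eq ?_)
    rw [Finset.sum_const, Finset.card_univ, Fintype.card_fin, nsmul_eq_mul]
    ring
  simp only [Complex.zero_re, mul_zero, integral_zero, add_zero, sub_zero] at h2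
  rw [s1, s2] at h2
  have hG : 0 ≤ M * ε + K * (1 + 1) := by positivity
  rw [Finset.sum_sub_distrib, ← Finset.mul_sum, ← Finset.mul_sum]
  refine h2.trans ?_
  have t1 : C * (∑ c : (Σ i : Fin r, Fin (offO Q O i).length), (1 + |wnu ((offO Q O c.1)[c.2.1]).1|)) *
      (M * ε + K * (1 + 1)) ≤ C * (8 * r) * (M * ε + K * (1 + 1)) := by
    gcongr
  have t2 : C * (8 * r) * (M * ε + K * (1 + 1)) ≤ 16 * C * r * (M * ε + K) := by
    have hr : (0:ℝ) ≤ r := Nat.cast_nonneg r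
    have : 0 ≤ C * r * (M * ε) := by positivity
    nlinarith
  have t3 : C * (b + 1) ^ 9 * M ^ 2 * ε ≤ 16 * C * (b + 1) ^ 9 * M ^ 2 * ε := by
    have : 0 ≤ C * (b + 1) ^ 9 * M ^ 2 * ε := by positivity
    nlinarith
  linarith

end

end NUC43
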