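import Pool.Agent.NUC43.K3
import Pool.Agent.NUC37.Pars

/-!
# Charges

`Chg α q a b A B F G`: an object of charge `q` with the potentials `a` on the quanta of its own species and
`b` on the quanta of the other one, `A`, `B` = minus their transforms, `F = -(A + B) / U₊`,
`G = -(A - B) / U₋`.  Closed under sums, multiples and the exchange of the species.
`Chg.own`, `Chg.oth`: the potentials are `V * dO`, `V * dX` (densities `dO = inv ((F + G)/2)`,
`dX = inv ((F - G)/2)`), up to `± log g * inv G`.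
-/

set_option autoImplicit false

open MeasureTheory Set Filter Topology

namespace NUC43

noncomputable section

open NUMF (l l_pos g h V Lh Uh ck1 sk sk_pos lq lqg)

/-- charge data -/
structure Chg (α q : ℝ) (a b : ℝ → ℝ) (A B : ℝ → ℝ) (F G : ℂ → ℂ) : Prop where
  neg : α < 0
  gF : Gr α F
  gG : Gr α G
  q0 : (G 0).re = -q
  iA : IntegrableOn (fun k => A k - q * Lh k) (Ioi 0)
  iB : IntegrableOn (fun k => B k - -q * Lh k) (Ioi 0)
  ra : ∀ t, a t + q * Real.log (g t) =
      -∫ k in Ioi (0:ℝ), 2 * Real.cos (t * k) * ((A k - q * Lh k) / (2 * Real.pi))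
  rb : ∀ t, b t + -q * Real.log (g t) =
      -∫ k in Ioi (0:ℝ), 2 * Real.cos (t * k) * ((B k - -q * Lh k) / (2 * Real.pi))
  hp : ∀ k : ℝ, 0 < k → Uh k * (F k).re = -(A k + B k)
  hm : ∀ k : ℝ, 0 < k → (Uh k + 2 * Lh k) * (G k).re = -(A k - B k)

/-- the groups -/
theorem chg_grp {j e : ℝ} (h : Adm j e) (γ : Grp) :
    Chg (-kap j e) (qc γ) (pO j e γ) (pX j e γ) (Ah j e γ) (Bh j e γ) (sp j e γ) (sm j e γ) where
  neg := by have := kap_pos h; linarith
  gF := gr_sp h γ
  gG := gr_sm h γ
  q0 := sm_zero γ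
  iA := (own_rep h γ).1
  iB := (oth_rep h γ).1
  ra := (own_rep h γ).2
  rb := (oth_rep h γ).2
  hp k hk := Uh_sp γ hk
  hm k hk := Um_sm γ hk

variable {α β q q' : ℝ} {a b A B a' b' A' B' : ℝ → ℝ} {F G F' G' : ℂ → ℂ}

lemma cos_int_on {f : ℝ → ℝ} (hf : IntegrableOn f (Ioi 0)) (t : ℝ) :
    IntegrableOn (fun k => 2 * Real.cos (t * k) * (f k / (2 * Real.pi))) (Ioi 0) := by
  have h0 : IntegrableOn (fun k => f k / (2 * Real.pi)) (Ioi 0) := hf.div_const _
  have h1 : IntegrableOn (fun k => f k / (2 * Real.pi) * (2 * Real.cos (t * k))) (Ioi 0) := by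
    refine Integrable.mul_bdd (c := 2) h0 (Continuous.aestronglyMeasurable (by fun_prop))
      (Eventually.of_forall fun k => ?_)
    rw [Real.norm_eq_abs, abs_mul, abs_two]
    have := Real.abs_cos_le_one (t * k)
    linarith
  exact h1.congr (Eventually.of_forall fun k => mul_comm _ _)

lemma rep_add {f₁ f₂ : ℝ → ℝ} (h₁ : IntegrableOn f₁ (Ioi 0)) (h₂ : IntegrableOn f₂ (Ioi 0)) (t : ℝ) :
    (∫ k in Ioi (0:ℝ), 2 * Real.cos (t * k) * (f₁ k / (2 * Real.pi))) +
      ∫ k in Ioi (0:ℝ), 2 * Real.cos (t * k) * (f₂ k / (2 * Real.pi)) =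
      ∫ k in Ioi (0:ℝ), 2 * Real.cos (t * k) * ((f₁ k + f₂ k) / (2 * Real.pi)) := by
  rw [← integral_add (cos_int_on h₁ t) (cos_int_on h₂ t)]
  congr 1
  funext k
  ring

lemma rep_smul (f : ℝ → ℝ) (c t : ℝ) :
    c * (∫ k in Ioi (0:ℝ), 2 * Real.cos (t * k) * (f k / (2 * Real.pi))) =
      ∫ k in Ioi (0:ℝ), 2 * Real.cos (t * k) * (c * f k / (2 * Real.pi)) := by
  rw [← integral_const_mul]
  congr 1
  funext k
  ring

/-- sums -/
theorem Chg.add (h : Chg α q a b A B F G) (h' : Chg α q' a' b' A' B' F' G') :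
    Chg α (q + q') (fun t => a t + a' t) (fun t => b t + b' t) (fun k => A k + A' k)
      (fun k => B k + B' k) (fun z => F z + F' z) (fun z => G z + G' z) where
  neg := h.neg
  gF := h.gF.add h'.gF
  gG := h.gG.add h'.gG
  q0 := by rw [Complex.add_re, h.q0, h'.q0]; ring
  iA := (h.iA.add h'.iA).congr_fun (fun k _ => by simp only [Pi.add_apply]; ring) measurableSet_Ioi
  iB := (h.iB.add h'.iB).congr_fun (fun k _ => by simp only [Pi.add_apply]; ring) measurableSet_Ioi
  ra t := by
    have := rep_add h.iA h'.iA t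
    have h1 := h.ra t
    have h2 := h'.ra t
    rw [show (fun k : ℝ => 2 * Real.cos (t * k) * ((A k + A' k - (q + q') * Lh k) / (2 * Real.pi))) =
      (fun k => 2 * Real.cos (t * k) * (((A k - q * Lh k) + (A' k - q' * Lh k)) / (2 * Real.pi))) by
        funext k; ring, ← this]
    linarith
  rb t := by
    have := rep_add h.iB h'.iB t
    have h1 := h.rb t
    have h2 := h'.rb t
    rw [show (fun k : ℝ => 2 * Real.cos (t * k) * ((B k + B' k - -(q + q') * Lh k) / (2 * Real.pi))) =
      (fun k => 2 * Real.cos (t * k) * (((B k - -q * Lh k) + (B' k - -q' * Lh k)) / (2 * Real.pi))) by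
        funext k; ring, ← this]
    linarith
  hp k hk := by
    have h1 := h.hp k hk
    have h2 := h'.hp k hk
    rw [Complex.add_re]
    linarith
  hm k hk := by
    have h1 := h.hm k hk
    have h2 := h'.hm k hk
    rw [Complex.add_re]
    linarith

/-- multiples -/
theorem Chg.smul (h : Chg α q a b A B F G) (c : ℝ) :
    Chg α (c * q) (fun t => c * a t) (fun t => c * b t) (fun k => c * A k)
      (fun k => c * B k) (fun z => (c : ℂ) * F z) (fun z => (c : ℂ) * G z) where
  neg := h.neg
  gF := h.gF.smul c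
  gG := h.gG.smul c
  q0 := by rw [Complex.re_ofReal_mul, h.q0]; ring
  iA := (h.iA.const_mul c).congr (Eventually.of_forall fun k => by simp only []; ring)
  iB := (h.iB.const_mul c).congr (Eventually.of_forall fun k => by simp only []; ring)
  ra t := by
    have := rep_smul (fun k => A k - q * Lh k) c t
    have h1 := h.ra t
    rw [show (fun k : ℝ => 2 * Real.cos (t * k) * ((c * A k - (c * q) * Lh k) / (2 * Real.pi))) =
      (fun k => 2 * Real.cos (t * k) * (c * (A k - q * Lh k) / (2 * Real.pi))) by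
        funext k; ring, ← this]
    linear_combination c * h1
  rb t := by
    have := rep_smul (fun k => B k - -q * Lh k) c t
    have h1 := h.rb t
    rw [show (fun k : ℝ => 2 * Real.cos (t * k) * ((c * B k - -(c * q) * Lh k) / (2 * Real.pi))) =
      (fun k => 2 * Real.cos (t * k) * (c * (B k - -q * Lh k) / (2 * Real.pi))) by
        funext k; ring, ← this]
    linear_combination c * h1
  hp k hk := by
    have h1 := h.hp k hk
    rw [Complex.re_ofReal_mul]
    linear_combination c * h1
  hm k hk := by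
    have h1 := h.hm k hk
    rw [Complex.re_ofReal_mul]
    linear_combination c * h1

/-- exchange of the species -/
theorem Chg.flip (h : Chg α q a b A B F G) : Chg α (-q) b a B A F (fun z => -G z) where
  neg := h.neg
  gF := h.gF
  gG := h.gG.neg
  q0 := by rw [Complex.neg_re, h.q0]
  iA := h.iB
  iB := by rw [neg_neg]; exact h.iA
  ra := h.rb
  rb t := by rw [neg_neg]; exact h.ra t
  hp k hk := by rw [h.hp k hk]; ring
  hm k hk := by
    have := h.hm k hk
    rw [Complex.neg_re]
    linear_combination -this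

/-- change of the names -/
theorem Chg.congr (h : Chg α q a b A B F G) (hq : q' = q) (ha : ∀ t, a' t = a t) (hb : ∀ t, b' t = b t)
    (hA : ∀ k, A' k = A k) (hB : ∀ k, B' k = B k) (hF : ∀ z, F' z = F z) (hG : ∀ z, G' z = G z) :
    Chg α q' a' b' A' B' F' G' := by
  obtain rfl := hq
  obtain rfl : a' = a := funext ha
  obtain rfl : b' = b := funext hb
  obtain rfl : A' = A := funext hA
  obtain rfl : B' = B := funext hB
  obtain rfl : F' = F := funext hF
  obtain rfl : G' = G := funext hG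
  exact h

theorem Chg.mono (h : Chg α q a b A B F G) (hαβ : α ≤ β) (hβ : β < 0) : Chg β q a b A B F G :=
  { h with neg := hβ, gF := h.gF.mono hαβ, gG := h.gG.mono hαβ }

/-! ### the densities -/

/-- density on the own species -/
def dO (F G : ℂ → ℂ) : ℝ → ℝ := inv fun z => ((1 / 2 : ℝ) : ℂ) * (F z + G z)
/-- density on the other species -/
def dX (F G : ℂ → ℂ) : ℝ → ℝ := inv fun z => ((1 / 2 : ℝ) : ℂ) * (F z - G z)
/-- density of the splitting -/
def dT (G : ℂ → ℂ) : ℝ → ℝ := inv G

theorem Chg.gO (h : Chg α q a b A B F G) : Gr α (fun z => ((1 / 2 : ℝ) : ℂ) * (F z + G z)) :=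
  (h.gF.add h.gG).smul _

theorem Chg.gX (h : Chg α q a b A B F G) : Gr α (fun z => ((1 / 2 : ℝ) : ℂ) * (F z - G z)) :=
  (h.gF.sub h.gG).smul _

lemma re_half_add (x y : ℂ) : (((1 / 2 : ℝ) : ℂ) * (x + y)).re = (x.re + y.re) / 2 := by
  rw [Complex.re_ofReal_mul, Complex.add_re]; ring
lemma re_half_sub (x y : ℂ) : (((1 / 2 : ℝ) : ℂ) * (x - y)).re = (x.re - y.re) / 2 := by
  rw [Complex.re_ofReal_mul, Complex.sub_re]; ring

lemma Gr.inv_rep (h : Gr α F) (hα : α < 0) :
    IntegrableOn (fun k : ℝ => (F k).re) (Ioi 0) := (h.re_integrable hα).integrableOn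

/-- `dO - dX = dT` -/
theorem Chg.split (h : Chg α q a b A B F G) (t : ℝ) : dO F G t - dX F G t = dT G t := by
  unfold dO dX dT inv
  simp_rw [re_half_add, re_half_sub]
  have h1 : IntegrableOn (fun k : ℝ => ((F k).re + (G k).re) / 2) (Ioi 0) :=
    ((h.gF.inv_rep h.neg).add (h.gG.inv_rep h.neg)).div_const 2
  have h2 : IntegrableOn (fun k : ℝ => ((F k).re - (G k).re) / 2) (Ioi 0) :=
    ((h.gF.inv_rep h.neg).sub (h.gG.inv_rep h.neg)).div_const 2
  rw [← integral_sub (cos_int_on h1 t) (cos_int_on h2 t)]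
  congr 1
  funext k
  ring

theorem ct_of_gr (h : Gr α F) (hα : α < 0) : NUC37.CT (inv F) fun k => (F k).re where
  int := h.inv_integrable hα
  even := inv_neg' F
  ft k _ := h.inv_forward hα k

/-- `dO` has the transform `(F + G) / 2` -/
theorem Chg.ctO (h : Chg α q a b A B F G) : NUC37.CT (dO F G) fun k => ((F k).re + (G k).re) / 2 := by
  have := ct_of_gr h.gO h.neg
  simp_rw [re_half_add] at this
  exact this

/-- `dX` has the transform `(F - G) / 2` -/
theorem Chg.ctX (h : Chg α q a b A B F G) : NUC37.CT (dX F G) fun k => ((F k).re - (G k).re) / 2 := by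
  have := ct_of_gr h.gX h.neg
  simp_rw [re_half_sub] at this
  exact this

/-- `dT` has the transform `G` -/
theorem Chg.ctT (h : Chg α q a b A B F G) : NUC37.CT (dT G) fun k => (G k).re :=
  ct_of_gr h.gG h.neg

theorem Chg.intT (h : Chg α q a b A B F G) : ∫ t, dT G t = -q := by
  rw [dT, h.gG.inv_int h.neg, h.q0]

theorem Chg.contO (h : Chg α q a b A B F G) : Continuous (dO F G) := h.gO.inv_cont h.neg
theorem Chg.contX (h : Chg α q a b A B F G) : Continuous (dX F G) := h.gX.inv_cont h.neg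
theorem Chg.contT (h : Chg α q a b A B F G) : Continuous (dT G) := h.gG.inv_cont h.neg

/-- decay -/
theorem Chg.decay (h : Chg α q a b A B F G) : ∃ M : ℝ, 0 ≤ M ∧ ∀ t : ℝ,
    |dO F G t| ≤ M * Real.exp (-(5 / 2) * |t|) ∧ |dX F G t| ≤ M * Real.exp (-(5 / 2) * |t|) ∧
    |dT G t| ≤ M * Real.exp (-(5 / 2) * |t|) := by
  obtain ⟨M₁, h₁, H₁⟩ := h.gO.inv_decay h.neg
  obtain ⟨M₂, h₂, H₂⟩ := h.gX.inv_decay h.neg
  obtain ⟨M₃, h₃, H₃⟩ := h.gG.inv_decay h.neg
  refine ⟨M₁ + M₂ + M₃, by positivity, fun t => ⟨(H₁ t).trans ?_, (H₂ t).trans ?_, (H₃ t).trans ?_⟩⟩ <;>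
    refine mul_le_mul_of_nonneg_right (by linarith) (Real.exp_pos _).le

/-- the `log g` potential of a density -/
def lgp (τ : ℝ → ℝ) (t : ℝ) : ℝ := ∫ s, τ s * Real.log (g (t - s))

lemma inv_lg_int (h : Gr α F) (hα : α < 0) (t : ℝ) :
    Integrable fun s => inv F s * Real.log (g (t - s)) := by
  have h1 := (h.logg_conv hα t).1
  have h2 := (h.inv_integrable hα).mul_const (Real.log (g 0))
  exact (h2.sub h1).congr (Eventually.of_forall fun s => by simp only [Pi.sub_apply]; ring)

lemma lgp_inv (h : Gr α F) (hα : α < 0) (t : ℝ) :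
    lgp (inv F) t = (F 0).re * Real.log (g 0) - ∫ s, inv F s * (Real.log (g 0) - Real.log (g (t - s))) := by
  have h1 := (h.logg_conv hα t).1
  have h2 := (h.inv_integrable hα).mul_const (Real.log (g 0))
  rw [← h.inv_int hα, ← integral_mul_const, ← integral_sub h2 h1]
  unfold lgp
  congr 1
  funext s
  ring

/-- **Own potential.** -/
theorem Chg.own (h : Chg α q a b A B F G) (t : ℝ) :
    a t - lgp (dT G) t = ∫ s, V s * dO F G (t - s) := by
  have h1 := pot_eq h.iA h.ra h.gO h.neg h.gG h.neg h.q0 (fun k hk => by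
    have h1 := h.hp k hk
    have h2 := h.hm k hk
    rw [re_half_add]
    linear_combination (1 / 2) * h1 + (1 / 2) * h2) t
  rw [dT, lgp_inv h.gG h.neg, h.q0]
  unfold dO
  linarith

/-- **Other potential.** -/
theorem Chg.oth (h : Chg α q a b A B F G) (t : ℝ) :
    b t + lgp (dT G) t = ∫ s, V s * dX F G (t - s) := by
  have h0 := h.flip
  have h1 := h0.own t
  have e1 : dO F (fun z => -G z) = dX F G := by
    unfold dO dX
    congr 1
  have e2 : lgp (dT fun z => -G z) t = -lgp (dT G) t := by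
    have e3 : (dT fun z => -G z) = fun t => -dT G t := by
      funext t
      unfold dT inv
      rw [← integral_neg]
      congr 1
      funext k
      rw [Complex.neg_re]
      ring
    unfold lgp
    rw [e3, ← integral_neg]
    congr 1
    funext s
    ring
  rw [e1, e2] at h1
  linarith

end

end NUC43
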