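import Pool.Agent.NUC43.Inv

/-!
# Convolutions with inverse transforms

* `conv_inv`: `∫ W(s) inv F (t - s) ds = (1/π) ∫_0^∞ W^(k) F(k) cos (kt) dk`, `W` even and integrable;
* `logg_conv`: the same for `log g` (which is not integrable).
-/

set_option autoImplicit false

open MeasureTheory Set Filter Topology

namespace NUC43

noncomputable section

open NUMF (l l_pos)

variable {α β : ℝ} {F G : ℂ → ℂ}

/-- cosine transform -/
def ct (f : ℝ → ℝ) (k : ℝ) : ℝ := ∫ t, f t * Real.cos (k * t)

lemma ct_neg (f : ℝ → ℝ) (k : ℝ) : ct f (-k) = ct f k := by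
  unfold ct
  simp only [neg_mul, Real.cos_neg]

lemma mul_cos_int {f : ℝ → ℝ} (hf : Integrable f) (k : ℝ) : Integrable fun t => f t * Real.cos (k * t) :=
  hf.mul_bdd (c := 1) (Continuous.aestronglyMeasurable (by fun_prop))
    (Eventually.of_forall fun t => Real.abs_cos_le_one _)

lemma mul_sin_int {f : ℝ → ℝ} (hf : Integrable f) (k : ℝ) : Integrable fun t => f t * Real.sin (k * t) :=
  hf.mul_bdd (c := 1) (Continuous.aestronglyMeasurable (by fun_prop))
    (Eventually.of_forall fun t => Real.abs_sin_le_one _)

lemma ct_le {f : ℝ → ℝ} (hf : Integrable f) (k : ℝ) : |ct f k| ≤ ∫ t, |f t| := by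
  unfold ct
  refine (abs_integral_le_integral_abs).trans (integral_mono (mul_cos_int hf k).abs hf.abs fun t => ?_)
  simp only [abs_mul]
  have := Real.abs_cos_le_one (k * t)
  nlinarith [abs_nonneg (f t)]

lemma ct_cont {f : ℝ → ℝ} (hf : Integrable f) : Continuous (ct f) := by
  unfold ct
  refine continuous_of_dominated (bound := fun t => |f t|) ?_ ?_ ?_ ?_
  · intro k
    exact (mul_cos_int hf k).aestronglyMeasurable
  · intro k
    refine Eventually.of_forall fun t => ?_
    rw [Real.norm_eq_abs, abs_mul]
    have := Real.abs_cos_le_one (k * t)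
    nlinarith [abs_nonneg (f t)]
  · exact hf.abs
  · exact Eventually.of_forall fun t => by fun_prop

lemma sin_zero {f : ℝ → ℝ} (he : ∀ t, f (-t) = f t) (k : ℝ) : ∫ t, f t * Real.sin (k * t) = 0 := by
  have h1 : ∫ t, f t * Real.sin (k * t) = ∫ t, -(f t * Real.sin (k * t)) := by
    rw [← integral_neg_eq_self]
    refine integral_congr_ae (Eventually.of_forall fun t => ?_)
    simp only
    rw [he, mul_neg, Real.sin_neg]
    ring
  rw [integral_neg] at h1
  linarith

/-- transform of a translate -/
lemma shift_cos {f : ℝ → ℝ} (hf : Integrable f) (he : ∀ t, f (-t) = f t) (k s : ℝ) :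
    ∫ t, f (t - s) * Real.cos (k * t) = Real.cos (k * s) * ct f k := by
  have h1 : ∫ t, f (t - s) * Real.cos (k * t) = ∫ t, f t * Real.cos (k * (t + s)) := by
    rw [← integral_sub_right_eq_self (fun t => f t * Real.cos (k * (t + s))) s]
    refine integral_congr_ae (Eventually.of_forall fun t => ?_)
    simp
  rw [h1]
  have h2 : ∀ t, f t * Real.cos (k * (t + s)) = Real.cos (k * s) * (f t * Real.cos (k * t)) -
      Real.sin (k * s) * (f t * Real.sin (k * t)) := by
    intro t
    rw [mul_add, Real.cos_add]
    ring
  simp_rw [h2]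
  rw [integral_sub ((mul_cos_int hf k).const_mul _) ((mul_sin_int hf k).const_mul _),
    integral_const_mul, integral_const_mul, sin_zero he, mul_zero, sub_zero]
  rfl

lemma shift_cos' {f : ℝ → ℝ} (hf : Integrable f) (he : ∀ t, f (-t) = f t) (k s : ℝ) :
    ∫ t, f t * Real.cos (k * (s - t)) = Real.cos (k * s) * ct f k := by
  have h2 : ∀ t, f t * Real.cos (k * (s - t)) = Real.cos (k * s) * (f t * Real.cos (k * t)) +
      Real.sin (k * s) * (f t * Real.sin (k * t)) := by
    intro t
    rw [mul_sub, Real.cos_sub]
    ring
  simp_rw [h2]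
  rw [integral_add ((mul_cos_int hf k).const_mul _) ((mul_sin_int hf k).const_mul _),
    integral_const_mul, integral_const_mul, sin_zero he, mul_zero, add_zero]
  rfl

/-- an even continuous integrable function is determined by its integrable cosine transform -/
theorem inversion {W : ℝ → ℝ} (hW : Integrable W) (hc : Continuous W) (he : ∀ t, W (-t) = W t)
    (hm : Integrable (ct W)) (t : ℝ) :
    W t = ∫ k in Ioi (0:ℝ), 2 * Real.cos (t * k) * (ct W k / (2 * Real.pi)) := by
  have hpi := Real.pi_pos
  have hct : ∀ k, ct W k = ∫ t in Ioi (0:ℝ), 2 * Real.cos (k * t) * W t := by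
    intro k
    unfold ct
    have h1 : ∀ t, W t * Real.cos (k * t) = (fun x => W x * Real.cos (k * x)) |t| := by
      intro t
      rcases abs_cases t with ⟨h4, _⟩ | ⟨h4, _⟩
      · rw [h4]
      · rw [h4]
        simp only
        rw [he, mul_neg, Real.cos_neg]
    rw [integral_congr_ae (Eventually.of_forall h1),
      integral_comp_abs (f := fun x => W x * Real.cos (k * x)), ← integral_const_mul]
    refine setIntegral_congr_fun measurableSet_Ioi fun t _ => ?_
    ring
  have hpos : ∀ t : ℝ, 0 < t → W t = ∫ k in Ioi (0:ℝ), 2 * Real.cos (t * k) * (ct W k / (2 * Real.pi)) := by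
    intro t ht
    have h2 := NUMF.cos_inversion (m := W) (F := ct W) hW.integrableOn hm hct ht hc.continuousAt
    have h3 : ∀ k, ct W k * Real.cos (t * k) = (fun x => ct W x * Real.cos (t * x)) |k| := by
      intro k
      rcases abs_cases k with ⟨h4, _⟩ | ⟨h4, _⟩
      · rw [h4]
      · rw [h4]
        simp only
        rw [ct_neg, mul_neg, Real.cos_neg]
    rw [integral_congr_ae (Eventually.of_forall h3),
      integral_comp_abs (f := fun x => ct W x * Real.cos (t * x))] at h2
    have h4 : W t = 2 * (∫ k in Ioi (0:ℝ), ct W k * Real.cos (t * k)) / (2 * Real.pi) := by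
      rw [h2]
      field_simp
    rw [h4, mul_div_assoc, ← integral_div, ← integral_const_mul]
    refine setIntegral_congr_fun measurableSet_Ioi fun k _ => ?_
    ring
  have hcR : Continuous fun t => ∫ k in Ioi (0:ℝ), 2 * Real.cos (t * k) * (ct W k / (2 * Real.pi)) := by
    refine continuous_of_dominated (bound := fun k => 2 * |ct W k / (2 * Real.pi)|) ?_ ?_ ?_ ?_
    · intro t
      exact Continuous.aestronglyMeasurable (by
        have := ct_cont hW
        fun_prop)
    · intro t
      refine Eventually.of_forall fun k => ?_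
      rw [Real.norm_eq_abs, abs_mul, abs_mul, abs_two]
      have := Real.abs_cos_le_one (t * k)
      have h0 := abs_nonneg (ct W k / (2 * Real.pi))
      nlinarith
    · exact ((hm.div_const _).abs.const_mul 2).integrableOn
    · exact Eventually.of_forall fun k => by fun_prop
  have hge : ∀ t : ℝ, 0 ≤ t → W t = ∫ k in Ioi (0:ℝ), 2 * Real.cos (t * k) * (ct W k / (2 * Real.pi)) := by
    intro t ht
    have hcl : t ∈ closure (Ioi (0:ℝ)) := by rw [closure_Ioi]; exact ht
    exact (EqOn.closure (s := Ioi (0:ℝ)) (fun x hx => hpos x hx) hc hcR) hcl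
  rcases le_total 0 t with h | h
  · exact hge t h
  · rw [← he, hge (-t) (by linarith)]
    refine setIntegral_congr_fun measurableSet_Ioi fun k _ => ?_
    simp only [neg_mul, Real.cos_neg]

/-- convolution of an even integrable function with an inverse transform -/
theorem Gr.conv_inv (h : Gr α F) (hα : α < 0) {W : ℝ → ℝ} (hW : Integrable W)
    (he : ∀ t, W (-t) = W t) (t : ℝ) :
    ∫ s, W s * inv F (t - s) =
      ∫ k in Ioi (0:ℝ), 2 * Real.cos (t * k) * (ct W k * (F k).re / (2 * Real.pi)) := by
  obtain ⟨M, hM0, hM⟩ := h.inv_decay hα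
  have hic := h.inv_cont hα
  have hii := h.inv_integrable hα
  have hbd : ∀ t, |inv F t| ≤ M := fun t => (hM t).trans (by
    have : Real.exp (-(5 / 2) * |t|) ≤ 1 := Real.exp_le_one_iff.2 (by
      have := abs_nonneg t
      linarith)
    nlinarith)
  set C : ℝ → ℝ := fun t => ∫ s, W s * inv F (t - s) with hC
  have hint : ∀ t, Integrable fun s => W s * inv F (t - s) := fun t =>
    hW.mul_bdd (c := M) (Continuous.aestronglyMeasurable (by fun_prop))
      (Eventually.of_forall fun s => hbd _)
  have hCc : Continuous C := by
    rw [hC]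
    refine continuous_of_dominated (bound := fun s => |W s| * M) ?_ ?_ ?_ ?_
    · intro t
      exact (hint t).aestronglyMeasurable
    · intro t
      refine Eventually.of_forall fun s => ?_
      rw [Real.norm_eq_abs, abs_mul]
      exact mul_le_mul_of_nonneg_left (hbd _) (abs_nonneg _)
    · exact hW.abs.mul_const M
    · exact Eventually.of_forall fun s => by fun_prop
  have hCe : ∀ t, C (-t) = C t := by
    intro t
    rw [hC]
    simp only
    rw [← integral_neg_eq_self]
    refine integral_congr_ae (Eventually.of_forall fun s => ?_)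
    simp only
    rw [he, show -t - -s = -(t - s) by ring, inv_neg']
  -- product integrability
  have hprod : Integrable (fun p : ℝ × ℝ => W p.2 * inv F (p.1 - p.2)) (volume.prod volume) := by
    have h1 := hW.convolution_integrand (ContinuousLinearMap.mul ℝ ℝ) hii
    refine h1.congr (Eventually.of_forall fun p => ?_)
    simp
  have hCi : Integrable C := hprod.integral_prod_left
  have hprodk : ∀ k : ℝ, Integrable (fun p : ℝ × ℝ => W p.2 * inv F (p.1 - p.2) * Real.cos (k * p.1))
      (volume.prod volume) := fun k =>
    hprod.mul_bdd (c := 1) (Continuous.aestronglyMeasurable (by fun_prop))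
      (Eventually.of_forall fun p => Real.abs_cos_le_one _)
  have hct : ∀ k, ct C k = ct W k * (F k).re := by
    intro k
    unfold ct
    have e1 : ∀ t, C t * Real.cos (k * t) = ∫ s, W s * inv F (t - s) * Real.cos (k * t) := by
      intro t
      rw [hC]
      simp only
      rw [integral_mul_const]
    simp_rw [e1]
    rw [integral_integral_swap (hprodk k)]
    have e2 : ∀ s, ∫ t, W s * inv F (t - s) * Real.cos (k * t) = (W s * Real.cos (k * s)) * (F k).re := by
      intro s
      have e3 : ∀ t, W s * inv F (t - s) * Real.cos (k * t) = W s * (inv F (t - s) * Real.cos (k * t)) :=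
        fun t => by ring
      simp_rw [e3]
      rw [integral_const_mul, shift_cos hii (inv_neg' F)]
      unfold ct
      rw [h.inv_forward hα]
      ring
    simp_rw [e2]
    rw [integral_mul_const]
  have hmi : Integrable (ct C) := by
    have h1 : ct C = fun k => ct W k * (F k).re := funext hct
    rw [h1]
    refine ((h.re_integrable hα).bdd_mul (c := ∫ t, |W t|) (ct_cont hW).aestronglyMeasurable
      (Eventually.of_forall fun k => ct_le hW k))
  have := inversion hCi hCc hCe hmi t
  rw [show (∫ s, W s * inv F (t - s)) = C t from rfl, this]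
  refine setIntegral_congr_fun measurableSet_Ioi fun k _ => ?_
  rw [hct]

end

end NUC43
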