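import Pool.Agent.NUC43.Sym

/-!
# `U₊ sp = -(A+B)`, `U₋ sm = -(A-B)`
-/

set_option autoImplicit false

open MeasureTheory Set Filter Topology

namespace NUC43

noncomputable section

open NUMF (l l_pos g h V Lh Uh ck1 sk sk_pos lq lqg)

variable {j e : ℝ}

lemma sum_cosh (x y : ℝ) : Real.cosh (x + y) + Real.cosh (x - y) = 2 * Real.cosh x * Real.cosh y := by
  rw [Real.cosh_add, Real.cosh_sub]
  ring

lemma cosh_2 (b : ℝ) : Real.cosh (2 * b) = 2 * Real.cosh b ^ 2 - 1 := by
  rw [Real.cosh_two_mul, Real.sinh_sq]; ring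

lemma cosh_4 (b : ℝ) : Real.cosh (4 * b) = 8 * Real.cosh b ^ 4 - 8 * Real.cosh b ^ 2 + 1 := by
  rw [show 4 * b = 2 * (2 * b) by ring, cosh_2, cosh_2]; ring

lemma cosh_3 (b : ℝ) : Real.cosh (3 * b) = 4 * Real.cosh b ^ 3 - 3 * Real.cosh b := Real.cosh_three_mul b

lemma cosh_5 (b : ℝ) : Real.cosh (5 * b) = 16 * Real.cosh b ^ 5 - 20 * Real.cosh b ^ 3 + 5 * Real.cosh b := by
  have := sum_cosh (3 * b) (2 * b)
  rw [show 3 * b + 2 * b = 5 * b by ring, show 3 * b - 2 * b = b by ring, cosh_3, cosh_2] at this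
  linear_combination this

lemma cosh_7 (b : ℝ) : Real.cosh (7 * b) =
    64 * Real.cosh b ^ 7 - 112 * Real.cosh b ^ 5 + 56 * Real.cosh b ^ 3 - 7 * Real.cosh b := by
  have := sum_cosh (4 * b) (3 * b)
  rw [show 4 * b + 3 * b = 7 * b by ring, show 4 * b - 3 * b = b by ring, cosh_3, cosh_4] at this
  linear_combination this

/-- own list, first form: `x = (4 - j) l k`, `b = l k` -/
lemma own_alg (x b : ℝ) : Real.cosh x + 1 / 2 * Real.cosh (x - 2 * b) + 1 / 2 * Real.cosh (x + 2 * b) -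
    1 / 2 * Real.cosh (x - b) - 1 / 2 * Real.cosh (x + b) =
    Real.cosh x * (2 * Real.cosh b ^ 2 - Real.cosh b) := by
  have h1 := sum_cosh x (2 * b)
  have h2 := sum_cosh x b
  rw [cosh_2] at h1
  linear_combination (1 / 2) * h1 - (1 / 2) * h2

lemma csO_L (k : ℝ) : cs (lO j e .L) k = Real.cosh ((4 - j) * l * k) *
    (2 * Real.cosh (1 * l * k) ^ 2 - Real.cosh (1 * l * k)) := by
  rw [← own_alg]
  unfold lO oL cs
  simp only [List.map_cons, List.map_nil, List.sum_cons, List.sum_nil]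
  rw [show (2 - j) * l * k = (4 - j) * l * k - 2 * (1 * l * k) by ring,
    show (6 - j) * l * k = (4 - j) * l * k + 2 * (1 * l * k) by ring,
    show (3 - j) * l * k = (4 - j) * l * k - 1 * l * k by ring,
    show (5 - j) * l * k = (4 - j) * l * k + 1 * l * k by ring]
  ring

lemma csX_L (k : ℝ) : cs (lX j e .L) k = Real.cosh (j * l * k) * (1 - 2 * Real.cosh (1 * l * k)) := by
  have h1 := sum_cosh (j * l * k) (1 * l * k)
  unfold lX xL cs
  simp only [List.map_cons, List.map_nil, List.sum_cons, List.sum_nil]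
  rw [show (j + 1) * l * k = j * l * k + 1 * l * k by ring,
    show (j - 1) * l * k = j * l * k - 1 * l * k by ring]
  linear_combination -h1

lemma csO_T (k : ℝ) : cs (lO j e .T) k = 1 / 2 * Real.cosh (1 * (1 / 2 * l * k)) +
    1 / 2 * Real.cosh (3 * (1 / 2 * l * k)) + 1 / 2 * Real.cosh (5 * (1 / 2 * l * k)) +
    1 / 2 * Real.cosh (7 * (1 / 2 * l * k)) := by
  unfold lO oL cs
  simp only [List.map_cons, List.map_nil, List.sum_cons, List.sum_nil, List.map_append, List.sum_append]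
  rw [show (4 - 3 / 2 : ℝ) * l * k = 5 * (1 / 2 * l * k) by ring,
    show (2 - 3 / 2 : ℝ) * l * k = 1 * (1 / 2 * l * k) by ring,
    show (7 / 2 : ℝ) * l * k = 7 * (1 / 2 * l * k) by ring,
    show (3 - 3 / 2 : ℝ) * l * k = 3 * (1 / 2 * l * k) by ring,
    show (4 - 5 / 2 : ℝ) * l * k = 3 * (1 / 2 * l * k) by ring,
    show (2 - 5 / 2 : ℝ) * l * k = -(1 * (1 / 2 * l * k)) by ring,
    show (3 - 5 / 2 : ℝ) * l * k = 1 * (1 / 2 * l * k) by ring,
    show (5 / 2 : ℝ) * l * k = 5 * (1 / 2 * l * k) by ring, Real.cosh_neg]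
  ring

lemma csX_T (k : ℝ) : cs (lX j e .T) k = -Real.cosh (1 * (1 / 2 * l * k)) -
    Real.cosh (7 * (1 / 2 * l * k)) := by
  unfold lX xL cs
  simp only [List.map_cons, List.map_nil, List.sum_cons, List.sum_nil, List.map_append, List.sum_append]
  rw [show (3 / 2 : ℝ) * l * k = 3 * (1 / 2 * l * k) by ring,
    show (5 / 2 : ℝ) * l * k = 5 * (1 / 2 * l * k) by ring,
    show (7 / 2 : ℝ) * l * k = 7 * (1 / 2 * l * k) by ring,
    show (3 / 2 - 1 : ℝ) * l * k = 1 * (1 / 2 * l * k) by ring,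
    show (5 / 2 - 1 : ℝ) * l * k = 3 * (1 / 2 * l * k) by ring]
  ring

lemma csO_S (k : ℝ) : cs (lO j e .S) k = 2 * Real.cosh ((3 / 2 - e) * l * k) * Real.cosh (1 / 2 * l * k) *
    (2 * Real.cosh (1 * l * k) ^ 2 - Real.cosh (1 * l * k)) := by
  have h1 := own_alg ((2 - e) * l * k) (1 * l * k)
  have h2 := own_alg ((1 - e) * l * k) (1 * l * k)
  have h3 := sum_cosh ((3 / 2 - e) * l * k) (1 / 2 * l * k)
  rw [show (3 / 2 - e) * l * k + 1 / 2 * l * k = (2 - e) * l * k by ring,
    show (3 / 2 - e) * l * k - 1 / 2 * l * k = (1 - e) * l * k by ring] at h3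
  rw [← h3, add_mul, ← h1, ← h2]
  unfold lO oL cs
  simp only [List.map_cons, List.map_nil, List.sum_cons, List.sum_nil, List.map_append, List.sum_append]
  rw [show (4 - (2 + e)) * l * k = (2 - e) * l * k by ring,
    show (2 - (2 + e)) * l * k = (2 - e) * l * k - 2 * (1 * l * k) by ring,
    show (4 - e) * l * k = (2 - e) * l * k + 2 * (1 * l * k) by ring,
    show (3 - (2 + e)) * l * k = (2 - e) * l * k - 1 * l * k by ring,
    show (3 - e) * l * k = (2 - e) * l * k + 1 * l * k by ring,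
    show (4 - (3 + e)) * l * k = (1 - e) * l * k by ring,
    show (2 - (3 + e)) * l * k = (1 - e) * l * k - 2 * (1 * l * k) by ring,
    show (3 - (3 + e)) * l * k = (1 - e) * l * k - 1 * l * k by ring,
    show (1 - e) * l * k + 2 * (1 * l * k) = (2 - e) * l * k + 1 * l * k by ring,
    show (1 - e) * l * k + 1 * l * k = (2 - e) * l * k by ring]
  ring

lemma csX_S (k : ℝ) : cs (lX j e .S) k = -(2 * Real.cosh ((3 / 2 - e) * l * k) *
    Real.cosh (5 * (1 / 2 * l * k))) := by
  have h3 := sum_cosh ((3 / 2 - e) * l * k) (5 * (1 / 2 * l * k))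
  rw [← h3]
  unfold lX xL cs
  simp only [List.map_cons, List.map_nil, List.sum_cons, List.sum_nil, List.map_append, List.sum_append]
  rw [show (2 + e - 1) * l * k = -((3 / 2 - e) * l * k - 5 * (1 / 2 * l * k)) by ring,
    show (3 + e - 1) * l * k = (2 + e) * l * k by ring,
    show (4 - e) * l * k = (3 / 2 - e) * l * k + 5 * (1 / 2 * l * k) by ring, Real.cosh_neg]
  ring

lemma csO_V (k : ℝ) : cs (lO j e .V) k = Real.cosh ((4 - e) * l * k) + Real.cosh (e * l * k) *
    (2 * Real.cosh (1 * l * k) ^ 2 - 1 - (4 * Real.cosh (1 * l * k) ^ 3 - 3 * Real.cosh (1 * l * k))) := by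
  have h1 := sum_cosh (2 * (1 * l * k)) (e * l * k)
  have h2 := sum_cosh (3 * (1 * l * k)) (e * l * k)
  rw [cosh_2] at h1
  rw [cosh_3] at h2
  unfold lO oL cs
  simp only [List.map_cons, List.map_nil, List.sum_cons, List.sum_nil]
  rw [show (2 - e) * l * k = 2 * (1 * l * k) - e * l * k by ring,
    show (2 + e) * l * k = 2 * (1 * l * k) + e * l * k by ring,
    show (3 - e) * l * k = 3 * (1 * l * k) - e * l * k by ring,
    show (3 + e) * l * k = 3 * (1 * l * k) + e * l * k by ring]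
  linear_combination (1 / 2) * h1 - (1 / 2) * h2

lemma csX_V (k : ℝ) : cs (lX j e .V) k = Real.cosh (e * l * k) * (1 - 2 * Real.cosh (1 * l * k)) := by
  have h1 := sum_cosh (e * l * k) (1 * l * k)
  unfold lX xL cs
  simp only [List.map_cons, List.map_nil, List.sum_cons, List.sum_nil]
  rw [show (e + 1) * l * k = e * l * k + 1 * l * k by ring,
    show (e - 1) * l * k = e * l * k - 1 * l * k by ring]
  linear_combination -h1

lemma c1_gt {k : ℝ} (hk : 0 < k) : 1 < Real.cosh (1 * l * k) :=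
  Real.one_lt_cosh.2 (by have := l_pos; positivity)

lemma c_two (k : ℝ) : Real.cosh (2 * l * k) = 2 * Real.cosh (1 * l * k) ^ 2 - 1 := by
  rw [show 2 * l * k = 2 * (1 * l * k) by ring, cosh_2]

theorem sp_alg (γ : Grp) {k : ℝ} (hk : 0 < k) :
    (Real.cosh (1 * l * k) - 1) * (2 * Real.cosh (1 * l * k) - 1) * (2 * Real.cosh (1 * l * k) + 1) ^ 2 *
      (sp j e γ k).re = -(cs (lO j e γ) k + cs (lX j e γ) k) := by
  have hc := c1_gt hk
  have h1 : Real.cosh (1 * l * k) - 1 ≠ 0 := by linarith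
  have h2 : 2 * Real.cosh (1 * l * k) - 1 ≠ 0 := by linarith
  have h3 : 2 * Real.cosh (1 * l * k) + 1 ≠ 0 := by linarith
  have em : 1 / (2 * Real.cosh (1 * l * k) - 1) * (2 * Real.cosh (1 * l * k) - 1) = 1 :=
    one_div_mul_cancel h2
  have ep : 1 / (2 * Real.cosh (1 * l * k) + 1) * (2 * Real.cosh (1 * l * k) + 1) = 1 :=
    one_div_mul_cancel h3
  have hh := c_half k
  cases γ
  · have ed : (Real.cosh ((4 - j) * l * k) - Real.cosh (j * l * k)) / (Real.cosh (1 * l * k) - 1) *
        (Real.cosh (1 * l * k) - 1) = Real.cosh ((4 - j) * l * k) - Real.cosh (j * l * k) :=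
      div_mul_cancel₀ _ h1
    rw [csO_L, csX_L]
    simp only [sp]
    rw [cc_real, dc_real' _ _ hk, ip_real, ← Complex.ofReal_mul, ← Complex.ofReal_add,
      ← Complex.ofReal_mul, ← Complex.ofReal_neg, Complex.ofReal_re]
    generalize (Real.cosh ((4 - j) * l * k) - Real.cosh (j * l * k)) / (Real.cosh (1 * l * k) - 1) = D at *
    generalize 1 / (2 * Real.cosh (1 * l * k) + 1) = p at *
    generalize Real.cosh (1 * l * k) = c at *
    generalize Real.cosh ((4 - j) * l * k) = C at *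
    generalize Real.cosh (j * l * k) = b at *
    have key : (c - 1) * (2 * c - 1) * (2 * c + 1) ^ 2 * -((C + D) * (p * p)) =
        -((2 * c - 1) * ((c - 1) * C + D * (c - 1)) * (p * (2 * c + 1)) ^ 2) := by ring
    rw [key, ep, ed]
    ring
  · rw [csO_T, csX_T, one_mul (1 / 2 * l * k), cosh_3, cosh_5, cosh_7]
    simp only [sp]
    rw [cc_real, cc_real, im_real, ip_real]
    simp only [← Complex.ofReal_mul, Complex.ofReal_re]
    rw [c_two]
    generalize 1 / (2 * Real.cosh (1 * l * k) + 1) = p at *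
    generalize 1 / (2 * Real.cosh (1 * l * k) - 1) = m at *
    generalize Real.cosh (1 * l * k) = c at *
    generalize Real.cosh (1 / 2 * l * k) = u at *
    have key : (c - 1) * (2 * c - 1) * (2 * c + 1) ^ 2 * (2 * (u * (2 * c ^ 2 - 1) * (m * (p * p)))) =
        2 * u * (2 * c ^ 2 - 1) * (c - 1) * (m * (2 * c - 1)) * (p * (2 * c + 1)) ^ 2 := by ring
    rw [key, ep, em, hh]
    ring
  · rw [csO_S, csX_S, cosh_5]
    simp only [sp]
    rw [cc_real, cc_real, im_real, ip_real]
    simp only [← Complex.ofReal_mul, Complex.ofReal_re]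
    generalize 1 / (2 * Real.cosh (1 * l * k) + 1) = p at *
    generalize 1 / (2 * Real.cosh (1 * l * k) - 1) = m at *
    generalize Real.cosh (1 * l * k) = c at *
    generalize Real.cosh (1 / 2 * l * k) = u at *
    generalize Real.cosh ((3 / 2 - e) * l * k) = x at *
    have key : (c - 1) * (2 * c - 1) * (2 * c + 1) ^ 2 * (2 * (x * u * (m * p))) =
        2 * x * u * (c - 1) * (2 * c + 1) * (m * (2 * c - 1)) * (p * (2 * c + 1)) := by ring
    rw [key, ep, em, hh]
    ring
  · have ed : (Real.cosh ((4 - e) * l * k) - Real.cosh (e * l * k)) / (Real.cosh (1 * l * k) - 1) *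
        (Real.cosh (1 * l * k) - 1) = Real.cosh ((4 - e) * l * k) - Real.cosh (e * l * k) :=
      div_mul_cancel₀ _ h1
    rw [csO_V, csX_V]
    simp only [sp]
    rw [cc_real, dc_real' _ _ hk, ip_real, im_real, pc_real]
    simp only [← Complex.ofReal_mul, ← Complex.ofReal_sub, ← Complex.ofReal_neg, Complex.ofReal_re]
    generalize (Real.cosh ((4 - e) * l * k) - Real.cosh (e * l * k)) / (Real.cosh (1 * l * k) - 1) = D at *
    generalize 1 / (2 * Real.cosh (1 * l * k) + 1) = p at *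
    generalize 1 / (2 * Real.cosh (1 * l * k) - 1) = m at *
    generalize Real.cosh (1 * l * k) = c at *
    generalize Real.cosh ((4 - e) * l * k) = C at *
    generalize Real.cosh (e * l * k) = b at *
    have key : (c - 1) * (2 * c - 1) * (2 * c + 1) ^ 2 *
        -((D - b * (1 + 2 * c + 4 * c ^ 2 + 0 * c ^ 3)) * (m * (p * p))) =
        -((D * (c - 1) - (c - 1) * (b * (1 + 2 * c + 4 * c ^ 2))) * (m * (2 * c - 1)) *
          (p * (2 * c + 1)) ^ 2) := by ring
    rw [key, ep, em, ed]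
    ring

theorem sm_alg (γ : Grp) (k : ℝ) :
    (2 * Real.cosh (1 * l * k) - 1) ^ 3 * (Real.cosh (1 * l * k) + 1) *
      (sm j e γ k).re = -(cs (lO j e γ) k - cs (lX j e γ) k) := by
  have hc : 1 ≤ Real.cosh (1 * l * k) := Real.one_le_cosh _
  have h2 : 2 * Real.cosh (1 * l * k) - 1 ≠ 0 := by linarith
  have h3 : Real.cosh (1 * l * k) + 1 ≠ 0 := by linarith
  have em : 1 / (2 * Real.cosh (1 * l * k) - 1) * (2 * Real.cosh (1 * l * k) - 1) = 1 :=
    one_div_mul_cancel h2
  have eq : 1 / (Real.cosh (1 * l * k) + 1) * (Real.cosh (1 * l * k) + 1) = 1 :=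
    one_div_mul_cancel h3
  have hh := c_half k
  cases γ
  · rw [csO_L, csX_L]
    simp only [sm]
    rw [cc_real, cc_real, cc_real, im_real, ih_real]
    simp only [← Complex.ofReal_mul, ← Complex.ofReal_add, ← Complex.ofReal_neg, Complex.ofReal_re]
    generalize 1 / (Real.cosh (1 * l * k) + 1) = q at *
    generalize 1 / (2 * Real.cosh (1 * l * k) - 1) = m at *
    generalize Real.cosh (1 * l * k) = c at *
    generalize Real.cosh ((4 - j) * l * k) = C at *
    generalize Real.cosh (j * l * k) = b at *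
    have key : (2 * c - 1) ^ 3 * (c + 1) * -((c * C + b) * (m * m * q)) =
        -((2 * c - 1) * (c * C + b) * (m * (2 * c - 1)) ^ 2 * (q * (c + 1))) := by ring
    rw [key, em, eq]
    ring
  · rw [csO_T, csX_T, one_mul (1 / 2 * l * k), cosh_3, cosh_5, cosh_7]
    simp only [sm]
    rw [cc_real, cc_real, im_real, ih_real, pc_real]
    simp only [← Complex.ofReal_mul, ← Complex.ofReal_neg, Complex.ofReal_re]
    rw [c_two]
    generalize 1 / (Real.cosh (1 * l * k) + 1) = q at *
    generalize 1 / (2 * Real.cosh (1 * l * k) - 1) = m at *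
    generalize Real.cosh (1 * l * k) = c at *
    generalize Real.cosh (1 / 2 * l * k) = u at *
    have key : (2 * c - 1) ^ 3 * (c + 1) *
        -(2 * (u * (2 * c ^ 2 - 1) * (-1 + 3 * c + 0 * c ^ 2 + 0 * c ^ 3) * (m * (m * m) * q))) =
        -(2 * u * (2 * c ^ 2 - 1) * (-1 + 3 * c) * (m * (2 * c - 1)) ^ 3 * (q * (c + 1))) := by ring
    rw [key, em, eq, hh]
    ring
  · rw [csO_S, csX_S, cosh_5]
    simp only [sm]
    rw [cc_real, cc_real, im_real, ih_real, pc_real]
    simp only [← Complex.ofReal_mul, ← Complex.ofReal_neg, Complex.ofReal_re]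
    generalize 1 / (Real.cosh (1 * l * k) + 1) = q at *
    generalize 1 / (2 * Real.cosh (1 * l * k) - 1) = m at *
    generalize Real.cosh (1 * l * k) = c at *
    generalize Real.cosh (1 / 2 * l * k) = u at *
    generalize Real.cosh ((3 / 2 - e) * l * k) = x at *
    have key : (2 * c - 1) ^ 3 * (c + 1) *
        -(2 * (x * u * (-1 + -3 * c + 6 * c ^ 2 + 0 * c ^ 3) * (m * (m * m) * q))) =
        -(2 * x * u * (-1 + -3 * c + 6 * c ^ 2) * (m * (2 * c - 1)) ^ 3 * (q * (c + 1))) := by ring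
    rw [key, em, eq, hh]
    ring
  · rw [csO_V, csX_V]
    simp only [sm]
    rw [cc_real, cc_real, im_real, ih_real, pc_real]
    simp only [← Complex.ofReal_mul, ← Complex.ofReal_add, ← Complex.ofReal_neg, Complex.ofReal_re]
    generalize 1 / (Real.cosh (1 * l * k) + 1) = q at *
    generalize 1 / (2 * Real.cosh (1 * l * k) - 1) = m at *
    generalize Real.cosh (1 * l * k) = c at *
    generalize Real.cosh ((4 - e) * l * k) = C at *
    generalize Real.cosh (e * l * k) = b at *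
    have key : (2 * c - 1) ^ 3 * (c + 1) *
        -((C + b * (-2 + 5 * c + 2 * c ^ 2 + -4 * c ^ 3)) * (m * (m * m) * q)) =
        -((C + b * (-2 + 5 * c + 2 * c ^ 2 + -4 * c ^ 3)) * (m * (2 * c - 1)) ^ 3 * (q * (c + 1))) := by ring
    rw [key, em, eq]
    ring

lemma ck1_eq (k : ℝ) : ck1 k = Real.cosh (1 * l * k) := by
  unfold ck1
  rw [one_mul]

/-- `U₊ sp = -(A+B)` -/
theorem Uh_sp (γ : Grp) {k : ℝ} (hk : 0 < k) :
    Uh k * (sp j e γ k).re = -(Ah j e γ k + Bh j e γ k) := by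
  have hks := NUMF.ksk_pos hk.ne'
  have h1 := sp_alg (j := j) (e := e) γ hk
  unfold Uh Ah Bh
  rw [ck1_eq, ← mul_add, ← add_div, ← mul_neg, ← neg_div, ← h1]
  field_simp

/-- `U₋ = U₊ + 2 L` -/
lemma Um_eq (k : ℝ) : Uh k + 2 * Lh k = 2 * Real.pi * ((2 * Real.cosh (1 * l * k) - 1) ^ 3 *
    (Real.cosh (1 * l * k) + 1) / (k * sk k)) := by
  unfold Uh Lh
  rw [ck1_eq]
  ring

/-- `U₋ sm = -(A-B)` -/
theorem Um_sm (γ : Grp) {k : ℝ} (hk : 0 < k) :
    (Uh k + 2 * Lh k) * (sm j e γ k).re = -(Ah j e γ k - Bh j e γ k) := by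
  have hks := NUMF.ksk_pos hk.ne'
  have h1 := sm_alg (j := j) (e := e) γ k
  rw [Um_eq]
  unfold Ah Bh
  rw [← mul_sub, ← sub_div, ← mul_neg, ← neg_div, ← h1]
  field_simp

/-- charges -/
theorem sm_zero (γ : Grp) : (sm j e γ 0).re = -qc γ := by
  have h1 := sm_alg (j := j) (e := e) γ 0
  rw [Complex.ofReal_zero] at h1
  cases γ <;>
    simp only [lO, lX, oL, xL, cs, qc, List.map_append, List.sum_append, List.map_cons, List.map_nil,
      List.sum_cons, List.sum_nil, mul_zero, Real.cosh_zero] at h1 ⊢ <;> linarith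

end

end NUC43
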