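import Pool.Agent.NUM3.En
import Pool.Agent.NUC43.K3

/-!
# The response densities of the five kinds

`resp : Resp (sX) (sY) (tauK)` for `jL = 9/4`, `e = 1/4` and the slack `psi` of `NUSB`: the densities are inverse
transforms of symbols analytic in `|Im z| ≤ 5/2`, in terms of the symbols `sp`, `sm` of the groups `L`, `T`, `S`, `V`:
`S` carries the slack, `Sv = S + V'` with half the slack, `Svv = S + 2 V'` (`V'` = a satellite, of the other species).
-/

set_option autoImplicit false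

open MeasureTheory Set Filter Topology

namespace NUC43

noncomputable section

open NUMF (l l_pos Lh Uh sk sk_pos)
open NUMH NUSB NUO Pool.Agent.NUM3

/-! ### the slack -/

/-- `c c₂ (1 + (3/5) / h) / x`, `x = cosh (y / 4)`, `h = cosh (y / 2)` -/
def ps0 (z : ℂ) : ℂ := ((cc 1 z * cc 2 z) * (cc (1 / 4) z)⁻¹) * (((1 : ℝ) : ℂ) + ((3 / 5 : ℝ) : ℂ) * (cc (1 / 2) z)⁻¹)

/-- `psi / U₊` -/
def psP (z : ℂ) : ℂ := ((2 : ℝ) : ℂ) * (ps0 z * (im z * (ip z * ip z)))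

/-- `psi / U₋` -/
def psM (z : ℂ) : ℂ := ((2 : ℝ) : ℂ) * ((pc (-1) 1 0 0 z * ps0 z) * ((im z * (im z * im z)) * ih z))

lemma gr_ps0 : Gr (11 / 4) ps0 := by
  have g1 : Gr 3 (fun z => cc 1 z * cc 2 z) :=
    gr_c1.mul' (gr_cc' (a := 2) (γ := 2) (by rw [abs_of_pos (by norm_num)])) (by norm_num)
  have g2 : Gr (11 / 4) (fun z => (cc 1 z * cc 2 z) * (cc (1 / 4) z)⁻¹) :=
    g1.mul' (gr_inv_cc (a := 1 / 4) (by norm_num) (by norm_num)) (by norm_num)
  have g3 : Gr 0 (fun z => ((1 : ℝ) : ℂ) + ((3 / 5 : ℝ) : ℂ) * (cc (1 / 2) z)⁻¹) :=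
    (gr_const 1).add (((gr_inv_cc (a := 1 / 2) (by norm_num) (by norm_num)).smul (3 / 5)).mono (by norm_num))
  exact g2.mul' g3 (by norm_num)

lemma gr_psP : Gr (-(1 / 4)) psP := (gr_ps0.mul' gr_imip2 (γ := -(1 / 4)) (by norm_num)).smul 2

lemma gr_psM : Gr (-(1 / 4)) psM :=
  (((gr_pc1 (-1) 1).mul' gr_ps0 (γ := 15 / 4) (by norm_num)).mul' gr_im3ih (γ := -(1 / 4)) (by norm_num)).smul 2

lemma ch_q (n : ℕ) (a k : ℝ) (h : a = n / 4 ∨ a = -(n / 4)) : Real.cosh (a * l * k) = ch n (NUMH.zk k) := by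
  unfold ch NUMH.zk l
  rcases h with rfl | rfl
  · congr 1
    ring
  · rw [← Real.cosh_neg]
    congr 1
    ring

lemma ps0_re (k : ℝ) : ps0 k = (((ch 4 (zk k) * ch 8 (zk k) / ch 1 (zk k)) *
    (1 + (3 / 5) / ch 2 (zk k)) : ℝ) : ℂ) := by
  unfold ps0
  rw [cc_real, cc_real, cc_real, cc_real, ch_q 4 1 k (Or.inl (by norm_num)), ch_q 8 2 k (Or.inl (by norm_num)),
    ch_q 1 (1 / 4) k (Or.inl (by norm_num)), ch_q 2 (1 / 2) k (Or.inl (by norm_num))]
  push_cast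
  simp only [div_eq_mul_inv]

lemma psP_re {k : ℝ} (hk : 0 < k) : (psP k).re = psi (NUMH.zk k) / up (NUMH.zk k) := by
  have hz := NUMH.zk_pos hk
  have h4 := one_lt_ch (n := 4) (by norm_num) hz
  have h1 : 0 < ch 1 (NUMH.zk k) := Real.cosh_pos _
  have h2 : 0 < ch 2 (NUMH.zk k) := Real.cosh_pos _
  unfold psP
  rw [ps0_re, im_real, ip_real, ch_q 4 1 k (Or.inl (by norm_num)), ← Complex.ofReal_mul, ← Complex.ofReal_mul,
    ← Complex.ofReal_mul, ← Complex.ofReal_mul, Complex.ofReal_re]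
  unfold psi up
  have e1 : 0 < ch 4 (NUMH.zk k) - 1 := by linarith
  have e2 : 0 < 2 * ch 4 (NUMH.zk k) - 1 := by linarith
  have e3 : 0 < 2 * ch 4 (NUMH.zk k) + 1 := by linarith
  field_simp
  ring

lemma psM_re (k : ℝ) : (psM k).re = psi (NUMH.zk k) / um (NUMH.zk k) := by
  have h4 := one_le_ch 4 (NUMH.zk k)
  have h1 : 0 < ch 1 (NUMH.zk k) := Real.cosh_pos _
  have h2 : 0 < ch 2 (NUMH.zk k) := Real.cosh_pos _
  unfold psM
  rw [ps0_re, im_real, ih_real, pc_real, ch_q 4 1 k (Or.inl (by norm_num)), ← Complex.ofReal_mul,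
    ← Complex.ofReal_mul, ← Complex.ofReal_mul, ← Complex.ofReal_mul, ← Complex.ofReal_mul, ← Complex.ofReal_mul,
    Complex.ofReal_re]
  unfold psi um
  have e2 : 0 < 2 * ch 4 (NUMH.zk k) - 1 := by linarith
  have e3 : 0 < ch 4 (NUMH.zk k) + 1 := by linarith
  field_simp
  ring

/-! ### the symbols of the groups on the real line -/

/-- own and other potentials of a satellite, over `P` -/
def aV (z : ℝ) : ℝ := (ch 7 z + ch 9 z - ch 11 z - ch 13 z + 2 * ch 15 z) / 2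
def bV (z : ℝ) : ℝ := ch 1 z - ch 3 z - ch 5 z

lemma csO (k : ℝ) : cs (lO (9 / 4) (1 / 4) .L) k = fXL (NUMH.zk k) ∧ cs (lO (9 / 4) (1 / 4) .T) k = fXT (NUMH.zk k) ∧
    cs (lO (9 / 4) (1 / 4) .S) k = fXS (NUMH.zk k) ∧ cs (lO (9 / 4) (1 / 4) .V) k = aV (NUMH.zk k) := by
  refine ⟨?_, ?_, ?_, ?_⟩ <;>
    simp only [cs, lO, oL, List.cons_append, List.nil_append, List.map_cons, List.map_nil, List.sum_cons,
      List.sum_nil]
  · rw [ch_q 7 (4 - 9 / 4) k (Or.inl (by norm_num)), ch_q 1 (2 - 9 / 4) k (Or.inr (by norm_num)),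
      ch_q 15 (6 - 9 / 4) k (Or.inl (by norm_num)), ch_q 3 (3 - 9 / 4) k (Or.inl (by norm_num)),
      ch_q 11 (5 - 9 / 4) k (Or.inl (by norm_num))]
    unfold fXL
    ring
  · rw [ch_q 10 (4 - 3 / 2) k (Or.inl (by norm_num)), ch_q 2 (2 - 3 / 2) k (Or.inl (by norm_num)),
      ch_q 14 (7 / 2) k (Or.inl (by norm_num)), ch_q 6 (3 - 3 / 2) k (Or.inl (by norm_num)),
      ch_q 6 (4 - 5 / 2) k (Or.inl (by norm_num)), ch_q 2 (2 - 5 / 2) k (Or.inr (by norm_num)),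
      ch_q 2 (3 - 5 / 2) k (Or.inl (by norm_num)), ch_q 10 (5 / 2) k (Or.inl (by norm_num))]
    unfold fXT
    ring
  · rw [ch_q 7 (4 - (2 + 1 / 4)) k (Or.inl (by norm_num)), ch_q 1 (2 - (2 + 1 / 4)) k (Or.inr (by norm_num)),
      ch_q 15 (4 - 1 / 4) k (Or.inl (by norm_num)), ch_q 3 (3 - (2 + 1 / 4)) k (Or.inl (by norm_num)),
      ch_q 11 (3 - 1 / 4) k (Or.inl (by norm_num)), ch_q 3 (4 - (3 + 1 / 4)) k (Or.inl (by norm_num)),
      ch_q 5 (2 - (3 + 1 / 4)) k (Or.inr (by norm_num)), ch_q 1 (3 - (3 + 1 / 4)) k (Or.inr (by norm_num)),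
      ch_q 7 (2 - 1 / 4) k (Or.inl (by norm_num))]
    unfold fXS
    ring
  · rw [ch_q 15 (4 - 1 / 4) k (Or.inl (by norm_num)), ch_q 7 (2 - 1 / 4) k (Or.inl (by norm_num)),
      ch_q 9 (2 + 1 / 4) k (Or.inl (by norm_num)), ch_q 11 (3 - 1 / 4) k (Or.inl (by norm_num)),
      ch_q 13 (3 + 1 / 4) k (Or.inl (by norm_num))]
    unfold aV
    ring

lemma csX (k : ℝ) : cs (lX (9 / 4) (1 / 4) .L) k = fYL (NUMH.zk k) ∧ cs (lX (9 / 4) (1 / 4) .T) k = fYT (NUMH.zk k) ∧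
    cs (lX (9 / 4) (1 / 4) .S) k = fYS (NUMH.zk k) ∧ cs (lX (9 / 4) (1 / 4) .V) k = bV (NUMH.zk k) := by
  refine ⟨?_, ?_, ?_, ?_⟩ <;>
    simp only [cs, lX, xL, List.cons_append, List.nil_append, List.map_cons, List.map_nil, List.sum_cons,
      List.sum_nil]
  · rw [ch_q 9 (9 / 4) k (Or.inl (by norm_num)), ch_q 13 (9 / 4 + 1) k (Or.inl (by norm_num)),
      ch_q 5 (9 / 4 - 1) k (Or.inl (by norm_num))]
    unfold fYL
    ring
  · rw [ch_q 6 (3 / 2) k (Or.inl (by norm_num)), ch_q 10 (5 / 2) k (Or.inl (by norm_num)),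
      ch_q 2 (3 / 2 - 1) k (Or.inl (by norm_num)), ch_q 14 (7 / 2) k (Or.inl (by norm_num)),
      ch_q 6 (5 / 2 - 1) k (Or.inl (by norm_num))]
    unfold fYT
    ring
  · rw [ch_q 9 (2 + 1 / 4) k (Or.inl (by norm_num)), ch_q 13 (3 + 1 / 4) k (Or.inl (by norm_num)),
      ch_q 5 (2 + 1 / 4 - 1) k (Or.inl (by norm_num)), ch_q 15 (4 - 1 / 4) k (Or.inl (by norm_num)),
      ch_q 9 (3 + 1 / 4 - 1) k (Or.inl (by norm_num))]
    unfold fYS
    ring
  · rw [ch_q 1 (1 / 4) k (Or.inl (by norm_num)), ch_q 5 (1 / 4 + 1) k (Or.inl (by norm_num)),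
      ch_q 3 (1 / 4 - 1) k (Or.inr (by norm_num))]
    unfold bV
    ring

lemma sp_up (γ : Grp) {k : ℝ} (hk : 0 < k) : (sp (9 / 4) (1 / 4) γ k).re =
    -((cs (lO (9 / 4) (1 / 4) γ) k + cs (lX (9 / 4) (1 / 4) γ) k) / up (NUMH.zk k)) := by
  have h1 := Uh_sp (j := 9 / 4) (e := 1 / 4) γ hk
  have h2 := @Uh_PP k
  have h3 := up_pos (NUMH.zk_pos hk)
  have h4 := sk_pos hk
  have hpi := Real.pi_pos
  unfold Ah Bh at h1
  have h5 : Uh k = 2 * Real.pi / (k * sk k) * up (NUMH.zk k) := by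
    field_simp at h2 ⊢
    linarith
  rw [h5] at h1
  field_simp at h1 ⊢
  linarith

lemma sm_um (γ : Grp) {k : ℝ} (hk : 0 < k) : (sm (9 / 4) (1 / 4) γ k).re =
    -((cs (lO (9 / 4) (1 / 4) γ) k - cs (lX (9 / 4) (1 / 4) γ) k) / um (NUMH.zk k)) := by
  have h1 := Um_sm (j := 9 / 4) (e := 1 / 4) γ hk
  have h2 := @Uh_PP k
  have h2' := @Lh_PP k
  have h3 := um_pos (NUMH.zk k)
  have h4 := sk_pos hk
  have hpi := Real.pi_pos
  unfold Ah Bh at h1
  have h5 : Uh k = 2 * Real.pi / (k * sk k) * up (NUMH.zk k) := by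
    field_simp at h2 ⊢
    linarith
  have h5' : Lh k = 2 * Real.pi / (k * sk k) * (2 * ch 4 (NUMH.zk k) - 1) := by
    field_simp at h2' ⊢
    linarith
  have h6 : Uh k + 2 * Lh k = 2 * Real.pi / (k * sk k) * um (NUMH.zk k) := by
    rw [h5, h5', ← up_um]
    ring
  rw [h6] at h1
  field_simp at h1 ⊢
  linarith

/-! ### the symbols of the kinds -/

/-- response in the sum of the species -/
def MPs : Kind → ℂ → ℂ
  | .L => fun z => -sp (9 / 4) (1 / 4) .L z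
  | .St => fun z => -sp (9 / 4) (1 / 4) .T z
  | .S => fun z => -(sp (9 / 4) (1 / 4) .S z + psP z)
  | .Sv => fun z => -(sp (9 / 4) (1 / 4) .S z + sp (9 / 4) (1 / 4) .V z + ((1 / 2 : ℝ) : ℂ) * psP z)
  | .Svv => fun z => -(sp (9 / 4) (1 / 4) .S z + ((2 : ℝ) : ℂ) * sp (9 / 4) (1 / 4) .V z)

/-- response in the difference of the species -/
def MMs : Kind → ℂ → ℂ
  | .L => fun z => -sm (9 / 4) (1 / 4) .L z
  | .St => fun z => -sm (9 / 4) (1 / 4) .T z
  | .S => fun z => -(sm (9 / 4) (1 / 4) .S z + psM z)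
  | .Sv => fun z => -(sm (9 / 4) (1 / 4) .S z - sm (9 / 4) (1 / 4) .V z + ((1 / 2 : ℝ) : ℂ) * psM z)
  | .Svv => fun z => -(sm (9 / 4) (1 / 4) .S z - ((2 : ℝ) : ℂ) * sm (9 / 4) (1 / 4) .V z)

lemma adm : Adm (9 / 4) (1 / 4) := ⟨by norm_num, by norm_num, by norm_num, by norm_num⟩

lemma kap_val : kap (9 / 4) (1 / 4) = 1 / 4 := by
  unfold kap
  norm_num

lemma gsp (γ : Grp) : Gr (-(1 / 4)) (sp (9 / 4) (1 / 4) γ) := by
  have := gr_sp adm γ
  rwa [kap_val] at this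

lemma gsm (γ : Grp) : Gr (-(1 / 4)) (sm (9 / 4) (1 / 4) γ) := by
  have := gr_sm adm γ
  rwa [kap_val] at this

lemma gr_MP (κ : Kind) : Gr (-(1 / 4)) (MPs κ) := by
  cases κ
  · exact (gsp _).neg
  · exact (gsp _).neg
  · exact ((gsp _).add gr_psP).neg
  · exact (((gsp _).add (gsp _)).add (gr_psP.smul _)).neg
  · exact ((gsp _).add ((gsp _).smul _)).neg

lemma gr_MM (κ : Kind) : Gr (-(1 / 4)) (MMs κ) := by
  cases κ
  · exact (gsm _).neg
  · exact (gsm _).neg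
  · exact ((gsm _).add gr_psM).neg
  · exact (((gsm _).sub (gsm _)).add (gr_psM.smul _)).neg
  · exact ((gsm _).sub ((gsm _).smul _)).neg

lemma MP_re (κ : Kind) {k : ℝ} (hk : 0 < k) : (MPs κ k).re = mP κ k := by
  have h3 := (up_pos (NUMH.zk_pos hk)).ne'
  obtain ⟨o1, o2, o3, o4⟩ := csO k
  obtain ⟨x1, x2, x3, x4⟩ := csX k
  cases κ <;> simp only [MPs, mP, ext1, dec, List.map_cons, List.map_nil, List.sum_cons, List.sum_nil,
    Complex.neg_re, Complex.add_re, Complex.re_ofReal_mul, fX, fY, sp_up _ hk, psP_re hk, o1, o2, o3, o4, x1, x2,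
    x3, x4]
  · field_simp
    ring
  · field_simp
    ring
  · field_simp
    ring
  · unfold fXV fYV fXS fYS aV bV
    field_simp
    ring
  · unfold fXV fYV fXS fYS aV bV
    field_simp
    ring

lemma MM_re (κ : Kind) {k : ℝ} (hk : 0 < k) : (MMs κ k).re = mM κ k := by
  have h3 := (um_pos (NUMH.zk k)).ne'
  obtain ⟨o1, o2, o3, o4⟩ := csO k
  obtain ⟨x1, x2, x3, x4⟩ := csX k
  cases κ <;> simp only [MMs, mM, ext1, dec, List.map_cons, List.map_nil, List.sum_cons, List.sum_nil,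
    Complex.neg_re, Complex.add_re, Complex.sub_re, Complex.re_ofReal_mul, fX, fY, sm_um _ hk, psM_re k, o1, o2,
    o3, o4, x1, x2, x3, x4]
  · field_simp
    ring
  · field_simp
    ring
  · field_simp
    ring
  · unfold fXV fYV fXS fYS aV bV
    field_simp
    ring
  · unfold fXV fYV fXS fYS aV bV
    field_simp
    ring

/-! ### the densities -/

/-- own response symbol -/
def SXs (κ : Kind) (z : ℂ) : ℂ := ((1 / 2 : ℝ) : ℂ) * (MPs κ z + MMs κ z)
/-- other response symbol -/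
def SYs (κ : Kind) (z : ℂ) : ℂ := ((1 / 2 : ℝ) : ℂ) * (MPs κ z - MMs κ z)

lemma gr_SX (κ : Kind) : Gr (-(1 / 4)) (SXs κ) := ((gr_MP κ).add (gr_MM κ)).smul _
lemma gr_SY (κ : Kind) : Gr (-(1 / 4)) (SYs κ) := ((gr_MP κ).sub (gr_MM κ)).smul _

/-- own species response density -/
def sX (κ : Kind) : ℝ → ℝ := inv (SXs κ)
/-- other species response density -/
def sY (κ : Kind) : ℝ → ℝ := inv (SYs κ)
/-- current source -/
def tauK (κ : Kind) : ℝ → ℝ := inv (MMs κ)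

variable {α : ℝ} {F : ℂ → ℂ}

lemma Gr.CT (h : Gr α F) (hα : α < 0) {m : ℝ → ℝ} (hm : ∀ k : ℝ, 0 < k → (F k).re = m k) : NUC37.CT (inv F) m where
  int := h.inv_integrable hα
  even := inv_neg' F
  ft := fun k hk => by rw [h.inv_forward hα, hm k hk]

lemma Gr.inv_bd (h : Gr α F) (hα : α < 0) : ∃ C, ∀ t, |inv F t| ≤ C := by
  obtain ⟨M, hM0, hM⟩ := h.inv_decay hα
  refine ⟨M, fun t => (hM t).trans ?_⟩
  have h1 : Real.exp (-(5 / 2) * |t|) ≤ 1 := Real.exp_le_one_iff.2 (by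
    have := abs_nonneg t
    linarith)
  nlinarith

lemma Gr.weight (h : Gr α F) (hα : α < 0) : Integrable fun t => (1 + |t|) * inv F t := by
  have h1 := quad_int h hα 0
  have h2 := (h.inv_integrable hα).abs
  have h3 : Integrable fun t => 2 * |inv F t| + |inv F t| * (0 - t) ^ 2 := (h2.const_mul 2).add h1
  have hc := h.inv_cont hα
  refine h3.mono' (Continuous.aestronglyMeasurable (by fun_prop)) (Eventually.of_forall fun t => ?_)
  rw [norm_mul, Real.norm_eq_abs, Real.norm_eq_abs, abs_of_nonneg (by positivity : 0 ≤ 1 + |t|)]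
  have h4 : (0 - t) ^ 2 = |t| ^ 2 := by rw [zero_sub, neg_sq, sq_abs]
  rw [h4]
  have h5 : 1 + |t| ≤ 2 + |t| ^ 2 := by nlinarith [sq_nonneg (|t| - 1)]
  nlinarith [abs_nonneg (inv F t)]

lemma Gr.intOn (h : Gr α F) (hα : α < 0) {m : ℝ → ℝ} (hm : ∀ k : ℝ, 0 < k → (F k).re = m k) :
    IntegrableOn m (Ioi 0) := by
  refine ((h.re_integrable hα).integrableOn (s := Ioi 0)).congr_fun (fun k hk => ?_) measurableSet_Ioi
  exact hm k hk

lemma psM_zero : (psM 0).re = 0 := by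
  unfold psM pc
  have : cc 1 0 = 1 := by unfold cc; simp
  rw [this]
  simp

lemma MM_zero (κ : Kind) : (MMs κ 0).re = Pool.Agent.NUM3.qc κ := by
  have h := fun γ => sm_zero (j := 9 / 4) (e := 1 / 4) γ
  cases κ <;> simp only [MMs, Complex.neg_re, Complex.add_re, Complex.sub_re, Complex.re_ofReal_mul, h, psM_zero,
    NUC43.qc, Pool.Agent.NUM3.qc] <;> norm_num

/-- **the response densities of the five kinds** -/
theorem resp : Resp sX sY tauK where
  cX := fun κ => (gr_SX κ).CT (by norm_num) fun k hk => by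
    unfold SXs
    rw [Complex.re_ofReal_mul, Complex.add_re, MP_re κ hk, MM_re κ hk]
    ring
  cY := fun κ => (gr_SY κ).CT (by norm_num) fun k hk => by
    unfold SYs
    rw [Complex.re_ofReal_mul, Complex.sub_re, MP_re κ hk, MM_re κ hk]
    ring
  cT := fun κ => (gr_MM κ).CT (by norm_num) fun k hk => MM_re κ hk
  contX := fun κ => (gr_SX κ).inv_cont (by norm_num)
  contY := fun κ => (gr_SY κ).inv_cont (by norm_num)
  bdX := fun κ => (gr_SX κ).inv_bd (by norm_num)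
  bdY := fun κ => (gr_SY κ).inv_bd (by norm_num)
  wT := fun κ => (gr_MM κ).weight (by norm_num)
  mass := fun κ => by
    unfold tauK
    rw [(gr_MM κ).inv_int (by norm_num), MM_zero]
  imP := fun κ => (gr_MP κ).intOn (by norm_num) fun k hk => MP_re κ hk
  imM := fun κ => (gr_MM κ).intOn (by norm_num) fun k hk => MM_re κ hk

end

end NUC43
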