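import Pool.Agent.NUP.MF.Shift
import Pool.Agent.NUP.MF.Fourier

/-!
# Symbols analytic in the strip `|Im z| ≤ 5/2`

`Gr α F`: `F` is even, real on the real line, analytic in the strip `|Im z| ≤ 5/2` and
`‖F z‖ ≤ C exp (α l |Re z|)`, `l = π/8`.
-/

set_option autoImplicit false

open MeasureTheory Set Filter Topology

namespace NUC43

noncomputable section

open NUMF (l l_pos)

/-- symbols of growth `α` -/
structure Gr (α : ℝ) (F : ℂ → ℂ) : Prop where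
  diff : ∀ z : ℂ, |z.im| ≤ 5 / 2 → DifferentiableAt ℂ F z
  bd : ∃ C : ℝ, ∀ z : ℂ, |z.im| ≤ 5 / 2 → ‖F z‖ ≤ C * Real.exp (α * (l * |z.re|))
  even : ∀ z, F (-z) = F z
  real : ∀ x : ℝ, (F x).im = 0

variable {α β : ℝ} {F G : ℂ → ℂ}

lemma Gr.bd' (h : Gr α F) : ∃ C : ℝ, 0 ≤ C ∧ ∀ z : ℂ, |z.im| ≤ 5 / 2 →
    ‖F z‖ ≤ C * Real.exp (α * (l * |z.re|)) := by
  obtain ⟨C, hC⟩ := h.bd
  refine ⟨C, ?_, hC⟩
  have := hC 0 (by rw [Complex.zero_im, abs_zero]; norm_num)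
  simp at this
  exact (norm_nonneg _).trans this

lemma Gr.ofReal_re' (h : Gr α F) (k : ℝ) : (((F k).re : ℝ) : ℂ) = F k := by
  apply Complex.ext
  · simp
  · rw [Complex.ofReal_im, h.real]

lemma Gr.mono (h : Gr α F) (hab : α ≤ β) : Gr β F := by
  obtain ⟨C, hC0, hC⟩ := h.bd'
  refine ⟨h.diff, ⟨C, fun z hz => (hC z hz).trans ?_⟩, h.even, h.real⟩
  have hl := l_pos
  gcongr

lemma Gr.congr (h : Gr α F) (hFG : ∀ z, G z = F z) : Gr α G := by
  have : G = F := funext hFG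
  rw [this]
  exact h

lemma Gr.add (hF : Gr α F) (hG : Gr α G) : Gr α (fun z => F z + G z) := by
  obtain ⟨C, hC0, hC⟩ := hF.bd'
  obtain ⟨D, hD0, hD⟩ := hG.bd'
  refine ⟨fun z hz => (hF.diff z hz).add (hG.diff z hz), ⟨C + D, fun z hz => ?_⟩, fun z => ?_, fun x => ?_⟩
  · rw [add_mul]
    exact (norm_add_le _ _).trans (add_le_add (hC z hz) (hD z hz))
  · simp only [hF.even, hG.even]
  · rw [Complex.add_im, hF.real, hG.real, add_zero]

lemma Gr.smul (hF : Gr α F) (c : ℝ) : Gr α (fun z => (c : ℂ) * F z) := by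
  obtain ⟨C, hC0, hC⟩ := hF.bd'
  refine ⟨fun z hz => (hF.diff z hz).const_mul _, ⟨|c| * C, fun z hz => ?_⟩, fun z => ?_, fun x => ?_⟩
  · rw [norm_mul, Complex.norm_real, Real.norm_eq_abs, mul_assoc]
    exact mul_le_mul_of_nonneg_left (hC z hz) (abs_nonneg _)
  · simp only [hF.even]
  · rw [Complex.im_ofReal_mul, hF.real, mul_zero]

lemma Gr.neg (hF : Gr α F) : Gr α (fun z => -F z) :=
  (hF.smul (-1)).congr fun z => by push_cast; ring

lemma Gr.sub (hF : Gr α F) (hG : Gr α G) : Gr α (fun z => F z - G z) :=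
  (hF.add hG.neg).congr fun z => by ring

lemma Gr.mul (hF : Gr α F) (hG : Gr β G) : Gr (α + β) (fun z => F z * G z) := by
  obtain ⟨C, hC0, hC⟩ := hF.bd'
  obtain ⟨D, hD0, hD⟩ := hG.bd'
  refine ⟨fun z hz => (hF.diff z hz).mul (hG.diff z hz), ⟨C * D, fun z hz => ?_⟩, fun z => ?_, fun x => ?_⟩
  · rw [norm_mul, add_mul, Real.exp_add]
    calc ‖F z‖ * ‖G z‖ ≤ (C * Real.exp (α * (l * |z.re|))) * (D * Real.exp (β * (l * |z.re|))) :=
          mul_le_mul (hC z hz) (hD z hz) (norm_nonneg _) (by positivity)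
      _ = _ := by ring
  · simp only [hF.even, hG.even]
  · rw [Complex.mul_im, hF.real, hG.real, mul_zero, zero_mul, add_zero]

lemma Gr.mul' {γ : ℝ} (hF : Gr α F) (hG : Gr β G) (h : α + β = γ) : Gr γ (fun z => F z * G z) := by
  subst h
  exact hF.mul hG

lemma gr_const (c : ℝ) : Gr 0 (fun _ => (c : ℂ)) := by
  refine ⟨fun z _ => by fun_prop, ⟨|c|, fun z _ => ?_⟩, fun z => rfl, fun x => by simp⟩
  rw [zero_mul, Real.exp_zero, mul_one, Complex.norm_real, Real.norm_eq_abs]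

/-- `c_a = cosh (a l z)` -/
def cc (a : ℝ) (z : ℂ) : ℂ := Complex.cosh ((a * l : ℝ) * z)

lemma re_al (a : ℝ) (z : ℂ) : (((a * l : ℝ) : ℂ) * z).re = a * l * z.re := by
  rw [Complex.re_ofReal_mul]

lemma im_al (a : ℝ) (z : ℂ) : (((a * l : ℝ) : ℂ) * z).im = a * l * z.im := by
  rw [Complex.im_ofReal_mul]

lemma cosh_le_exp_abs (x : ℝ) : Real.cosh x ≤ Real.exp |x| := by
  rw [← Real.cosh_abs, Real.cosh_eq]
  have : Real.exp (-|x|) ≤ Real.exp |x| := Real.exp_le_exp.2 (by linarith [abs_nonneg x])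
  linarith

lemma exp_abs_le_cosh (x : ℝ) : Real.exp |x| / 2 ≤ Real.cosh x := by
  rw [← Real.cosh_abs, Real.cosh_eq]
  have := Real.exp_pos (-|x|)
  linarith

lemma gr_cc (a : ℝ) : Gr |a| (cc a) := by
  refine ⟨fun z _ => by unfold cc; fun_prop, ⟨1, fun z _ => ?_⟩, fun z => ?_, fun x => ?_⟩
  · unfold cc
    refine (NUMF.norm_cosh_le _).trans ((cosh_le_exp_abs _).trans (le_of_eq ?_))
    rw [re_al, one_mul, abs_mul, abs_mul, abs_of_pos l_pos, mul_assoc]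
  · unfold cc
    rw [mul_neg, Complex.cosh_neg]
  · unfold cc
    rw [← Complex.ofReal_mul, ← Complex.ofReal_cosh, Complex.ofReal_im]

lemma gr_cc' {a γ : ℝ} (h : |a| ≤ γ) : Gr γ (cc a) := (gr_cc a).mono h

lemma gr_inv {G : ℂ → ℂ} (hd : ∀ z : ℂ, |z.im| ≤ 5 / 2 → DifferentiableAt ℂ G z)
    (he : ∀ z, G (-z) = G z) (hr : ∀ x : ℝ, (G x).im = 0) {κ : ℝ} (hκ : 0 < κ)
    (hb : ∀ z : ℂ, |z.im| ≤ 5 / 2 → κ * Real.exp (β * (l * |z.re|)) ≤ ‖G z‖) :
    Gr (-β) (fun z => (G z)⁻¹) := by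
  have hne : ∀ z : ℂ, |z.im| ≤ 5 / 2 → 0 < ‖G z‖ := fun z hz =>
    lt_of_lt_of_le (by positivity) (hb z hz)
  refine ⟨fun z hz => (hd z hz).inv (norm_pos_iff.1 (hne z hz)), ⟨κ⁻¹, fun z hz => ?_⟩, fun z => ?_,
    fun x => ?_⟩
  · rw [norm_inv, neg_mul, Real.exp_neg, ← mul_inv]
    exact inv_anti₀ (by positivity) (hb z hz)
  · rw [he]
  · rw [Complex.inv_im, hr, neg_zero, zero_div]

lemma cos_ge_of {a : ℝ} (ha : 0 ≤ a) (ha2 : a ≤ 3 / 2) {y : ℝ} (hy : |y| ≤ 5 / 2) :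
    Real.cos (15 * Real.pi / 32) ≤ Real.cos (a * l * y) := by
  have hl := l_pos
  have hpi := Real.pi_pos
  rw [← Real.cos_abs (a * l * y)]
  refine Real.cos_le_cos_of_nonneg_of_le_pi (abs_nonneg _) (by linarith) ?_
  rw [abs_mul, abs_of_nonneg (by positivity : 0 ≤ a * l)]
  have h1 : a * l * |y| ≤ 3 / 2 * l * (5 / 2) := by gcongr
  refine h1.trans (le_of_eq ?_)
  unfold l
  ring

lemma cos_pos' : 0 < Real.cos (15 * Real.pi / 32) := by
  have hpi := Real.pi_pos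
  exact Real.cos_pos_of_mem_Ioo ⟨by linarith, by linarith⟩

lemma gr_inv_cc {a : ℝ} (ha : 0 ≤ a) (ha2 : a ≤ 3 / 2) : Gr (-a) (fun z => (cc a z)⁻¹) := by
  have hl := l_pos
  have hc := cos_pos'
  refine gr_inv (κ := Real.cos (15 * Real.pi / 32) / 2) (fun z hz => by unfold cc; fun_prop)
    (gr_cc a).even (gr_cc a).real (by positivity) fun z hz => ?_
  refine le_trans ?_ (Complex.abs_re_le_norm _)
  unfold cc
  rw [NUMF.re_cosh, re_al, im_al]
  have h1 := cos_ge_of ha ha2 hz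
  have h2 := exp_abs_le_cosh (a * l * z.re)
  have h3 : |a * l * z.re| = a * (l * |z.re|) := by
    rw [abs_mul, abs_of_nonneg (by positivity : 0 ≤ a * l), mul_assoc]
  rw [h3] at h2
  refine le_trans ?_ (le_abs_self _)
  have h4 := Real.exp_pos (a * (l * |z.re|))
  calc _ = Real.exp (a * (l * |z.re|)) / 2 * Real.cos (15 * Real.pi / 32) := by ring
    _ ≤ _ := mul_le_mul h2 h1 hc.le (by linarith)

/-- `2 c + 1` -/
lemma gr_inv_p : Gr (-1) (fun z => (2 * cc 1 z + 1)⁻¹) := by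
  have hl := l_pos
  have hc := cos_pos'
  refine gr_inv (κ := Real.cos (15 * Real.pi / 32)) (fun z hz => by unfold cc; fun_prop)
    (fun z => by rw [(gr_cc 1).even]) (fun x => ?_) (by positivity) fun z hz => ?_
  · have h1 : ((2 * cc 1 x + 1 : ℂ)).im = 2 * (cc 1 x).im := by simp
    rw [h1, (gr_cc 1).real]
    simp
  refine le_trans ?_ (Complex.abs_re_le_norm _)
  have h0 : (2 * cc 1 z + 1 : ℂ).re = 2 * (cc 1 z).re + 1 := by simp
  rw [h0]
  unfold cc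
  rw [NUMF.re_cosh, re_al, im_al]
  have h1 := cos_ge_of (a := 1) (by norm_num) (by norm_num) hz
  have h2 := exp_abs_le_cosh (1 * l * z.re)
  have h3 : |1 * l * z.re| = 1 * (l * |z.re|) := by
    rw [abs_mul, abs_of_nonneg (by positivity : 0 ≤ 1 * l), mul_assoc]
  rw [h3] at h2
  refine le_trans ?_ (le_abs_self _)
  have h4 := Real.exp_pos (1 * (l * |z.re|))
  have h5 : Real.exp (1 * (l * |z.re|)) / 2 * Real.cos (15 * Real.pi / 32) ≤
      Real.cosh (1 * l * z.re) * Real.cos (1 * l * z.im) := mul_le_mul h2 h1 hc.le (by linarith)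
  linarith

/-- `2 c - 1 = cosh (3y/2) / cosh (y/2)` -/
lemma two_c_sub (z : ℂ) : (2 * cc 1 z - 1) * cc (1 / 2) z = cc (3 / 2) z := by
  unfold cc
  have e1 : (((1 : ℝ) * l : ℝ) : ℂ) * z = 2 * (((1 / 2 : ℝ) * l : ℝ) * z) := by push_cast; ring
  have e3 : (((3 / 2 : ℝ) * l : ℝ) : ℂ) * z = 3 * (((1 / 2 : ℝ) * l : ℝ) * z) := by push_cast; ring
  rw [e1, e3, Complex.cosh_two_mul, Complex.cosh_three_mul, Complex.sinh_sq]
  ring

lemma gr_inv_m : Gr (-1) (fun z => cc (1 / 2) z * (cc (3 / 2) z)⁻¹) :=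
  (gr_cc' (a := 1 / 2) (γ := 1 / 2) (by rw [abs_of_pos (by norm_num)])).mul'
    (gr_inv_cc (a := 3 / 2) (by norm_num) le_rfl) (by norm_num)

lemma cc_ne {a : ℝ} (ha : 0 ≤ a) (ha2 : a ≤ 3 / 2) {z : ℂ} (hz : |z.im| ≤ 5 / 2) : cc a z ≠ 0 := by
  intro h0
  have hc := cos_pos'
  have h1 := cos_ge_of ha ha2 hz
  have h2 := congrArg Complex.re h0
  unfold cc at h2
  rw [NUMF.re_cosh, re_al, im_al, Complex.zero_re] at h2
  have h3 := Real.cosh_pos (a * l * z.re)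
  have : 0 < Real.cosh (a * l * z.re) * Real.cos (a * l * z.im) := mul_pos h3 (by linarith)
  linarith

end

end NUC43
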