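import Pool.Agent.NUC43.Gr

/-!
# The symbols `sinh (a y) / sinh (y / 2)` and `(cosh (a y) - cosh (b y)) / (cosh y - 1)`
-/

set_option autoImplicit false

open MeasureTheory Set Filter Topology

namespace NUC43

noncomputable section

open NUMF (l l_pos)

variable {α β : ℝ} {F G : ℂ → ℂ}

/-- it suffices to bound a symbol away from the imaginary axis -/
lemma gr_of_far (hd : ∀ z : ℂ, |z.im| ≤ 5 / 2 → DifferentiableAt ℂ F z) {C : ℝ}
    (hb : ∀ z : ℂ, |z.im| ≤ 5 / 2 → 1 ≤ |z.re| → ‖F z‖ ≤ C * Real.exp (α * (l * |z.re|)))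
    (he : ∀ z, F (-z) = F z) (hr : ∀ x : ℝ, (F x).im = 0) : Gr α F := by
  have hl := l_pos
  set K : Set ℂ := {z : ℂ | |z.re| ≤ 1 ∧ |z.im| ≤ 5 / 2} with hK
  have hKc : IsCompact K := by
    have h1 : K = (Icc (-1 : ℝ) 1) ×ℂ (Icc (-(5 / 2) : ℝ) (5 / 2)) := by
      ext z
      simp only [hK, mem_ofPred_eq, Complex.mem_reProdIm, mem_Icc, abs_le]
    rw [h1]
    exact isCompact_Icc.reProdIm isCompact_Icc
  obtain ⟨M, hM⟩ := hKc.exists_bound_of_continuousOn
    (f := F) (fun z hz => (hd z hz.2).continuousAt.continuousWithinAt)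
  refine ⟨hd, ⟨max (M * Real.exp (|α| * l)) C, fun z hz => ?_⟩, he, hr⟩
  rcases le_total 1 |z.re| with h | h
  · refine (hb z hz h).trans ?_
    gcongr
    exact le_max_right _ _
  · have h1 := hM z ⟨h, hz⟩
    have hM0 : 0 ≤ M := (norm_nonneg _).trans h1
    have h2 : 1 ≤ Real.exp (|α| * l) * Real.exp (α * (l * |z.re|)) := by
      rw [← Real.exp_add]
      apply Real.one_le_exp
      have h3 : -|α| ≤ α := neg_abs_le α
      have h4 : l * |z.re| ≤ l := by nlinarith [abs_nonneg z.re]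
      have h5 : 0 ≤ l * |z.re| := by positivity
      have h6 : 0 ≤ |α| := abs_nonneg α
      nlinarith
    calc ‖F z‖ ≤ M * 1 := by rw [mul_one]; exact h1
      _ ≤ M * (Real.exp (|α| * l) * Real.exp (α * (l * |z.re|))) := by gcongr
      _ = (M * Real.exp (|α| * l)) * Real.exp (α * (l * |z.re|)) := by ring
      _ ≤ _ := by
        gcongr
        exact le_max_left _ _

/-- `sinh (a l z) / z`, extended to `z = 0` -/
def sc (a : ℝ) (z : ℂ) : ℂ := dslope (fun z => Complex.sinh ((a * l : ℝ) * z)) 0 z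

lemma sc_of_ne (a : ℝ) {z : ℂ} (hz : z ≠ 0) : sc a z = Complex.sinh ((a * l : ℝ) * z) / z := by
  unfold sc
  rw [dslope_of_ne _ hz, slope_def_field]
  simp

lemma sc_zero (a : ℝ) : sc a 0 = (a * l : ℝ) := by
  unfold sc
  rw [dslope_same]
  have h1 : HasDerivAt (fun z : ℂ => Complex.sinh ((a * l : ℝ) * z))
      (Complex.cosh ((a * l : ℝ) * 0) * ((a * l : ℝ) * 1)) 0 :=
    ((hasDerivAt_id (0:ℂ)).const_mul _).csinh
  rw [h1.deriv]
  simp

lemma sc_diff (a : ℝ) (z : ℂ) : DifferentiableAt ℂ (sc a) z := by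
  have h1 : DifferentiableOn ℂ (fun z : ℂ => Complex.sinh ((a * l : ℝ) * z)) univ := by
    intro z _
    have : DifferentiableAt ℂ (fun z : ℂ => Complex.sinh ((a * l : ℝ) * z)) z := by fun_prop
    exact this.differentiableWithinAt
  have h2 := (Complex.differentiableOn_dslope (c := (0:ℂ)) univ_mem).2 h1
  exact h2.differentiableAt univ_mem

lemma sc_even (a : ℝ) (z : ℂ) : sc a (-z) = sc a z := by
  rcases eq_or_ne z 0 with rfl | hz
  · rw [neg_zero]
  · rw [sc_of_ne a hz, sc_of_ne a (neg_ne_zero.2 hz), mul_neg, Complex.sinh_neg, neg_div_neg_eq]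

lemma sc_real (a x : ℝ) : sc a x = ((if x = 0 then a * l else Real.sinh (a * l * x) / x : ℝ) : ℂ) := by
  split_ifs with h
  · rw [h, Complex.ofReal_zero, sc_zero]
  · rw [sc_of_ne a (by exact_mod_cast h)]
    push_cast
    rfl

lemma norm_sinh_le_exp (w : ℂ) : ‖Complex.sinh w‖ ≤ Real.exp |w.re| := by
  have h1 : ‖Complex.sinh w‖ ≤ Real.cosh w.re := by
    rw [Complex.sinh, Real.cosh_eq, norm_div, Complex.norm_ofNat]
    gcongr
    refine (norm_sub_le _ _).trans ?_
    rw [Complex.norm_exp, Complex.norm_exp, Complex.neg_re]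
  exact h1.trans (cosh_le_exp_abs _)

lemma sinh_abs_le_norm (w : ℂ) : Real.sinh |w.re| ≤ ‖Complex.sinh w‖ := by
  have h1 : |Real.exp w.re - Real.exp (-w.re)| / 2 ≤ ‖Complex.sinh w‖ := by
    rw [Complex.sinh, norm_div, Complex.norm_ofNat]
    gcongr
    have := abs_norm_sub_norm_le (Complex.exp w) (Complex.exp (-w))
    rwa [Complex.norm_exp, Complex.norm_exp, Complex.neg_re] at this
  refine le_trans (le_of_eq ?_) h1
  rw [← Real.abs_sinh, Real.sinh_eq, abs_div, abs_two]

lemma sc_half_ne {z : ℂ} (hz : |z.im| ≤ 5 / 2) : sc (1 / 2) z ≠ 0 := by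
  have hl := l_pos
  have hpi := Real.pi_pos
  rcases eq_or_ne z 0 with rfl | h0
  · rw [sc_zero]
    have : (1 / 2 * l : ℝ) ≠ 0 := by positivity
    exact_mod_cast this
  · rw [sc_of_ne _ h0]
    refine div_ne_zero ?_ h0
    intro h1
    have hw : (((1 / 2 * l : ℝ) : ℂ) * z) ≠ 0 := mul_ne_zero (by
      have : (1 / 2 * l : ℝ) ≠ 0 := by positivity
      exact_mod_cast this) h0
    set w : ℂ := ((1 / 2 * l : ℝ) : ℂ) * z with hwd
    have h2 := sinh_abs_le_norm w
    rw [h1, norm_zero] at h2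
    have h3 : w.re = 0 := by
      by_contra h4
      have : 0 < Real.sinh |w.re| := Real.sinh_pos_iff.2 (abs_pos.2 h4)
      linarith
    have h5 : w = (w.im : ℂ) * Complex.I := by
      apply Complex.ext
      · simp [h3]
      · simp
    rw [h5, Complex.sinh_mul_I] at h1
    have h6 : Complex.sin (w.im : ℂ) = 0 := by
      rcases mul_eq_zero.1 h1 with h | h
      · exact h
      · exact absurd h Complex.I_ne_zero
    rw [← Complex.ofReal_sin] at h6
    have h7 : Real.sin w.im = 0 := by exact_mod_cast h6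
    have h8 : w.im = 1 / 2 * l * z.im := by rw [hwd]; exact im_al _ _
    have h9 : |w.im| < Real.pi := by
      rw [h8, abs_mul, abs_of_pos (by positivity)]
      have : 1 / 2 * l * |z.im| ≤ 1 / 2 * l * (5 / 2) := by gcongr
      refine this.trans_lt ?_
      unfold l
      linarith
    rw [abs_lt] at h9
    have h10 : w.im = 0 := by
      rcases lt_trichotomy w.im 0 with h | h | h
      · have := Real.sin_neg_of_neg_of_neg_pi_lt h h9.1
        linarith
      · exact h
      · have := Real.sin_pos_of_pos_of_lt_pi h h9.2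
        linarith
    apply hw
    rw [h5, h10]
    simp

/-- `sinh (a y) / sinh (y / 2)` -/
def sh (a : ℝ) (z : ℂ) : ℂ := sc a z / sc (1 / 2) z

lemma gr_sh (a : ℝ) : Gr (|a| - 1 / 2) (sh a) := by
  have hl := l_pos
  refine gr_of_far (C := 2 / (1 - Real.exp (-l))) (fun z hz => (sc_diff a z).div (sc_diff _ z) (sc_half_ne hz))
    (fun z hz h1 => ?_) (fun z => ?_) (fun x => ?_)
  · have hz0 : z ≠ 0 := by
      rintro rfl
      simp at h1
      linarith
    unfold sh
    rw [sc_of_ne _ hz0, sc_of_ne _ hz0, div_div_div_cancel_right₀ hz0, norm_div]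
    have hn := norm_sinh_le_exp ((a * l : ℝ) * z)
    have hd := sinh_abs_le_norm (((1 / 2 * l : ℝ) : ℂ) * z)
    rw [re_al] at hn hd
    have e1 : |a * l * z.re| = |a| * (l * |z.re|) := by
      rw [abs_mul, abs_mul, abs_of_pos hl, mul_assoc]
    have e2 : |1 / 2 * l * z.re| = 1 / 2 * (l * |z.re|) := by
      rw [abs_mul, abs_of_pos (by positivity : 0 < 1 / 2 * l), mul_assoc]
    rw [e1] at hn
    rw [e2] at hd
    set x : ℝ := 1 / 2 * (l * |z.re|) with hx
    have hxl : l / 2 ≤ x := by rw [hx]; nlinarith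
    have h2 : Real.exp x * ((1 - Real.exp (-l)) / 2) ≤ Real.sinh x := by
      rw [Real.sinh_eq]
      have : Real.exp (-x) ≤ Real.exp x * Real.exp (-l) := by
        rw [← Real.exp_add]
        exact Real.exp_le_exp.2 (by linarith)
      linarith
    have h3 : 0 < 1 - Real.exp (-l) := by
      have : Real.exp (-l) < 1 := by
        rw [← Real.exp_zero]
        exact Real.exp_lt_exp.2 (by linarith)
      linarith
    have h4 : 0 < Real.exp x * ((1 - Real.exp (-l)) / 2) := by positivity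
    calc ‖Complex.sinh ((a * l : ℝ) * z)‖ / ‖Complex.sinh (((1 / 2 * l : ℝ) : ℂ) * z)‖
        ≤ Real.exp (|a| * (l * |z.re|)) / (Real.exp x * ((1 - Real.exp (-l)) / 2)) :=
          div_le_div₀ (Real.exp_pos _).le hn h4 (h2.trans hd)
      _ = 2 / (1 - Real.exp (-l)) * (Real.exp (|a| * (l * |z.re|)) * Real.exp (-x)) := by
          rw [Real.exp_neg x]
          have := Real.exp_pos x
          field_simp
      _ = _ := by
          rw [← Real.exp_add]
          congr 2
          rw [hx]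
          ring
  · unfold sh
    rw [sc_even, sc_even]
  · unfold sh
    rw [sc_real, sc_real, ← Complex.ofReal_div, Complex.ofReal_im]

lemma sh_real (a : ℝ) {k : ℝ} (hk : 0 < k) : (sh a k).re = Real.sinh (a * l * k) / Real.sinh (1 / 2 * l * k) := by
  unfold sh
  rw [sc_real, sc_real, if_neg hk.ne', if_neg hk.ne', ← Complex.ofReal_div, Complex.ofReal_re,
    div_div_div_cancel_right₀ hk.ne']

/-- `(c_a - c_b) / (c - 1)` -/
def dc (a b : ℝ) (z : ℂ) : ℂ := sh ((a + b) / 2) z * sh ((a - b) / 2) z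

lemma gr_dc (a b : ℝ) : Gr (|(a + b) / 2| + |(a - b) / 2| - 1) (dc a b) :=
  (gr_sh _).mul' (gr_sh _) (by ring)

lemma dc_real (a b : ℝ) {k : ℝ} (hk : 0 < k) : (dc a b k).re =
    (Real.cosh (a * l * k) - Real.cosh (b * l * k)) / (Real.cosh (l * k) - 1) := by
  have hl := l_pos
  unfold dc
  have h1 := (gr_sh ((a + b) / 2)).ofReal_re' k
  have h2 := (gr_sh ((a - b) / 2)).ofReal_re' k
  rw [← h1, ← h2, ← Complex.ofReal_mul, Complex.ofReal_re, sh_real _ hk, sh_real _ hk]
  have e1 : Real.cosh (a * l * k) - Real.cosh (b * l * k) =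
      2 * Real.sinh ((a + b) / 2 * l * k) * Real.sinh ((a - b) / 2 * l * k) := by
    rw [show a * l * k = (a + b) / 2 * l * k + (a - b) / 2 * l * k by ring,
      show b * l * k = (a + b) / 2 * l * k - (a - b) / 2 * l * k by ring, Real.cosh_add, Real.cosh_sub]
    ring
  have e2 : Real.cosh (l * k) - 1 = 2 * Real.sinh (1 / 2 * l * k) ^ 2 := by
    rw [show l * k = 2 * (1 / 2 * l * k) by ring, Real.cosh_two_mul, Real.cosh_sq]
    ring
  have h3 : 0 < Real.sinh (1 / 2 * l * k) := Real.sinh_pos_iff.2 (by positivity)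
  rw [e1, e2]
  field_simp

end

end NUC43
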