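import Pool.Agent.NUC43.Hs
import Pool.Agent.NUC43.Sh

/-!
# The charges of the groups `L`, `T`, `S`, `V`

Groups (parts of objects): `L` = a quantum at offset `jL`, `T` = a string at offset `3/2`,
`S` = a string at offset `2 + e`, `V` = a quantum at offset `e` (a satellite).  `pO`, `pX` = potentials
on the quanta of the same, of the other species; `Ah`, `Bh` = minus their transforms;
`sp = -(A+B)/U₊`, `sm = -(A-B)/U₋` (symbols analytic in `|Im z| ≤ 5/2`).
-/

set_option autoImplicit false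

open MeasureTheory Set Filter Topology

namespace NUC43

noncomputable section

open NUMF (l l_pos g h V Lh Uh ck1 sk sk_pos lq lqg)

/-- the groups -/
inductive Grp
  | L | T | S | V
  deriving DecidableEq

/-- charge -/
def qc : Grp → ℝ
  | .L => 1
  | .T => 2
  | .S => 2
  | .V => 1

variable {j e : ℝ}

/-- potential on the quanta of the same species -/
def pO (j e : ℝ) : Grp → ℝ → ℝ
  | .L => fun t => lq j t
  | .T => fun t => lq (3 / 2) t + lq (5 / 2) t
  | .S => fun t => lq (2 + e) t + lq (3 + e) t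
  | .V => fun t => lq e t

/-- potential on the quanta of the other species -/
def pX (j e : ℝ) : Grp → ℝ → ℝ
  | .L => fun t => lqg j t
  | .T => fun t => lqg (3 / 2) t + lqg (5 / 2) t
  | .S => fun t => lqg (2 + e) t + lqg (3 + e) t
  | .V => fun t => lqg e t

/-- list of the own potential -/
def lO (j e : ℝ) : Grp → List (ℝ × ℝ)
  | .L => oL j (6 - j) (5 - j)
  | .T => oL (3 / 2) (7 / 2) (7 / 2) ++ oL (5 / 2) (7 / 2) (5 / 2)
  | .S => oL (2 + e) (4 - e) (3 - e) ++ oL (3 + e) (3 - e) (2 - e)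
  | .V => oL e (2 + e) (3 + e)

/-- list of the other potential -/
def lX (j e : ℝ) : Grp → List (ℝ × ℝ)
  | .L => xL j (j + 1)
  | .T => xL (3 / 2) (5 / 2) ++ xL (5 / 2) (7 / 2)
  | .S => xL (2 + e) (3 + e) ++ xL (3 + e) (4 - e)
  | .V => xL e (e + 1)

/-- minus the transform of the own potential -/
def Ah (j e : ℝ) (γ : Grp) (k : ℝ) : ℝ := 2 * Real.pi * (cs (lO j e γ) k / (k * sk k))

/-- minus the transform of the other potential -/
def Bh (j e : ℝ) (γ : Grp) (k : ℝ) : ℝ := 2 * Real.pi * (cs (lX j e γ) k / (k * sk k))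

/-- admissible parameters -/
structure Adm (j e : ℝ) : Prop where
  j2 : 2 < j
  j3 : j < 3
  e0 : 0 < e
  e1 : e < 1

lemma pO_hs (γ : Grp) (t : ℝ) : pO j e γ t = hs (lO j e γ) t - qc γ * Real.log 2 := by
  cases γ <;> simp only [pO, lO, qc, hs_append]
  · rw [lq_hs (r1 := 6 - j) (r2 := 5 - j) (Or.inr (by ring)) (Or.inl rfl)]
    ring
  · rw [lq_hs (r1 := 7 / 2) (r2 := 7 / 2) (Or.inl (by norm_num)) (Or.inl (by norm_num)),
      lq_hs (r1 := 7 / 2) (r2 := 5 / 2) (Or.inr (by norm_num)) (Or.inl (by norm_num))]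
    ring
  · rw [lq_hs (r1 := 4 - e) (r2 := 3 - e) (Or.inr (by ring)) (Or.inl (by ring)),
      lq_hs (r1 := 3 - e) (r2 := 2 - e) (Or.inr (by ring)) (Or.inl (by ring))]
    ring
  · rw [lq_hs (r1 := 2 + e) (r2 := 3 + e) (Or.inl rfl) (Or.inr (by ring))]
    ring

lemma pX_hs (γ : Grp) (t : ℝ) : pX j e γ t = hs (lX j e γ) t + qc γ * Real.log 2 := by
  cases γ <;> simp only [pX, lX, qc, hs_append]
  · rw [lqg_hs (r3 := j + 1) (Or.inl rfl)]
    ring
  · rw [lqg_hs (r3 := 5 / 2) (Or.inl (by norm_num)), lqg_hs (r3 := 7 / 2) (Or.inl (by norm_num))]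
    ring
  · rw [lqg_hs (r3 := 3 + e) (Or.inl (by ring)), lqg_hs (r3 := 4 - e) (Or.inr (by ring))]
    ring
  · rw [lqg_hs (r3 := e + 1) (Or.inl rfl)]
    ring

/-! ### neutral lists -/

/-- `f + q log g` -/
def nO (j e : ℝ) (γ : Grp) : List (ℝ × ℝ) := lO j e γ ++ [(-2 * qc γ, 1), (qc γ, 0)]

/-- `g - q log g` -/
def nX (j e : ℝ) (γ : Grp) : List (ℝ × ℝ) := lX j e γ ++ [(2 * qc γ, 1), (-qc γ, 0)]

lemma cz_nO (γ : Grp) : cz (nO j e γ) = 0 := by
  cases γ <;>
    simp only [nO, lO, oL, cz, qc, List.map_append, List.sum_append, List.map_cons, List.map_nil,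
      List.sum_cons, List.sum_nil] <;> norm_num

lemma cz_nX (γ : Grp) : cz (nX j e γ) = 0 := by
  cases γ <;>
    simp only [nX, lX, xL, cz, qc, List.map_append, List.sum_append, List.map_cons, List.map_nil,
      List.sum_cons, List.sum_nil] <;> norm_num

lemma nO_lt (h : Adm j e) (γ : Grp) : ∀ p ∈ nO j e γ, |p.2| < 4 := by
  obtain ⟨h1, h2, h3, h4⟩ := h
  cases γ <;>
    simp only [nO, lO, oL, List.cons_append, List.nil_append, List.forall_mem_cons] <;>
    and_intros <;> first | (rw [abs_lt]; constructor <;> linarith) | simp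

lemma nX_lt (h : Adm j e) (γ : Grp) : ∀ p ∈ nX j e γ, |p.2| < 4 := by
  obtain ⟨h1, h2, h3, h4⟩ := h
  cases γ <;>
    simp only [nX, lX, xL, List.cons_append, List.nil_append, List.forall_mem_cons] <;>
    and_intros <;> first | (rw [abs_lt]; constructor <;> linarith) | simp

lemma cs_q (q k : ℝ) : 2 * Real.pi * (cs [(-2 * q, 1), (q, 0)] k / (k * sk k)) = -(q * Lh k) := by
  rw [Lh_cs]
  unfold cs
  simp only [List.map_cons, List.map_nil, List.sum_cons, List.sum_nil]
  ring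

lemma cs_nO (γ : Grp) (k : ℝ) : 2 * Real.pi * (cs (nO j e γ) k / (k * sk k)) =
    Ah j e γ k - qc γ * Lh k := by
  unfold nO Ah
  rw [cs_append, add_div, mul_add, cs_q]
  ring

lemma cs_nX (γ : Grp) (k : ℝ) : 2 * Real.pi * (cs (nX j e γ) k / (k * sk k)) =
    Bh j e γ k - -qc γ * Lh k := by
  unfold nX Bh
  have := cs_q (-qc γ) k
  rw [cs_append, add_div, mul_add, show (2 * qc γ) = -2 * -qc γ by ring, this]
  ring

/-- hypotheses of `pot_eq` for the own potential -/
theorem own_rep (h : Adm j e) (γ : Grp) :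
    IntegrableOn (fun k => Ah j e γ k - qc γ * Lh k) (Ioi 0) ∧
    ∀ t, pO j e γ t + qc γ * Real.log (g t) =
      -∫ k in Ioi (0:ℝ), 2 * Real.cos (t * k) * ((Ah j e γ k - qc γ * Lh k) / (2 * Real.pi)) := by
  obtain ⟨h1, h2⟩ := hs_neutral (nO_lt h γ) (cz_nO γ)
  simp_rw [cs_nO] at h1 h2
  refine ⟨h1, fun t => ?_⟩
  rw [← h2 t, pO_hs, log_g_hs]
  unfold nO
  rw [hs_append]
  unfold hs
  simp only [List.map_cons, List.map_nil, List.sum_cons, List.sum_nil]
  ring

/-- hypotheses of `pot_eq` for the other potential -/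
theorem oth_rep (h : Adm j e) (γ : Grp) :
    IntegrableOn (fun k => Bh j e γ k - -qc γ * Lh k) (Ioi 0) ∧
    ∀ t, pX j e γ t + -qc γ * Real.log (g t) =
      -∫ k in Ioi (0:ℝ), 2 * Real.cos (t * k) * ((Bh j e γ k - -qc γ * Lh k) / (2 * Real.pi)) := by
  obtain ⟨h1, h2⟩ := hs_neutral (nX_lt h γ) (cz_nX γ)
  simp_rw [cs_nX] at h1 h2
  refine ⟨h1, fun t => ?_⟩
  rw [← h2 t, pX_hs, log_g_hs]
  unfold nX
  rw [hs_append]
  unfold hs
  simp only [List.map_cons, List.map_nil, List.sum_cons, List.sum_nil]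
  ring

end

end NUC43
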