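import Pool.Agent.NUC43.Pot

/-!
# Finite combinations of the kernels `h(t, a l)`
-/

set_option autoImplicit false

open MeasureTheory Set Filter Topology

namespace NUC43

noncomputable section

open NUMF (l l_pos g h Lh Uh ck1 sk sk_pos lq lqg)

/-- `∑ c h(t, a l)` -/
def hs (L : List (ℝ × ℝ)) (t : ℝ) : ℝ := (L.map fun p => p.1 * h t (p.2 * l)).sum

/-- `∑ c cosh (a l k)` -/
def cs (L : List (ℝ × ℝ)) (k : ℝ) : ℝ := (L.map fun p => p.1 * Real.cosh (p.2 * l * k)).sum

/-- `∑ c` -/
def cz (L : List (ℝ × ℝ)) : ℝ := (L.map fun p => p.1).sum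

lemma four_l : 4 * l = Real.pi / 2 := by unfold l; ring

lemma hs_append (L L' : List (ℝ × ℝ)) (t : ℝ) : hs (L ++ L') t = hs L t + hs L' t := by
  unfold hs; rw [List.map_append, List.sum_append]

lemma cs_append (L L' : List (ℝ × ℝ)) (k : ℝ) : cs (L ++ L') k = cs L k + cs L' k := by
  unfold cs; rw [List.map_append, List.sum_append]

lemma cz_append (L L' : List (ℝ × ℝ)) : cz (L ++ L') = cz L + cz L' := by
  unfold cz; rw [List.map_append, List.sum_append]

theorem hs_fourier (L : List (ℝ × ℝ)) (hL : ∀ p ∈ L, |p.2| < 4) (t : ℝ) :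
    IntegrableOn (fun k => 2 * (cz L - Real.cos (t * k) * cs L k) / (k * sk k)) (Ioi 0) ∧
    hs L t = cz L * Real.log 2 + ∫ k in Ioi (0:ℝ), 2 * (cz L - Real.cos (t * k) * cs L k) / (k * sk k) := by
  have hl := l_pos
  induction L with
  | nil =>
    simp only [hs, cz, cs, List.map_nil, List.sum_nil, mul_zero, sub_zero, zero_div, zero_mul,
      integral_zero, add_zero, and_true]
    exact integrableOn_zero
  | cons p L ih =>
    obtain ⟨i1, e1⟩ := ih fun q hq => hL q (List.mem_cons_of_mem _ hq)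
    have hp := hL p List.mem_cons_self
    obtain ⟨i2, e2⟩ := NUMF.h_fourier (a := p.2 * l) (by
      rw [abs_mul, abs_of_pos hl, ← four_l]
      exact mul_lt_mul_of_pos_right hp hl) t
    have e3 : ∀ k, 2 * (cz (p :: L) - Real.cos (t * k) * cs (p :: L) k) / (k * sk k) =
        p.1 * (2 * (1 - Real.cosh (p.2 * l * k) * Real.cos (t * k)) / (k * sk k)) +
        2 * (cz L - Real.cos (t * k) * cs L k) / (k * sk k) := by
      intro k
      unfold cz cs
      rw [List.map_cons, List.map_cons, List.sum_cons, List.sum_cons]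
      ring
    have i3 : IntegrableOn (fun k => p.1 * (2 * (1 - Real.cosh (p.2 * l * k) * Real.cos (t * k)) / (k * sk k)))
        (Ioi 0) := i2.const_mul _
    refine ⟨(i3.add i1).congr (Eventually.of_forall fun k => (e3 k).symm), ?_⟩
    have b1 := integral_add i3 i1
    simp_rw [e3]
    rw [b1, integral_const_mul]
    have e4 : hs (p :: L) t = p.1 * h t (p.2 * l) + hs L t := by
      unfold hs
      rw [List.map_cons, List.sum_cons]
    have e5 : cz (p :: L) = p.1 + cz L := by
      unfold cz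
      rw [List.map_cons, List.sum_cons]
    rw [e4, e5, e1, e2]
    ring

/-- neutral combinations -/
theorem hs_neutral {L : List (ℝ × ℝ)} (hL : ∀ p ∈ L, |p.2| < 4) (h0 : cz L = 0) :
    IntegrableOn (fun k => 2 * Real.pi * (cs L k / (k * sk k))) (Ioi 0) ∧
    ∀ t, hs L t = -∫ k in Ioi (0:ℝ), 2 * Real.cos (t * k) *
      ((2 * Real.pi * (cs L k / (k * sk k))) / (2 * Real.pi)) := by
  have hpi := Real.pi_pos
  constructor
  · have h1 := ((hs_fourier L hL 0).1).const_mul (-Real.pi)
    refine h1.congr (Eventually.of_forall fun k => ?_)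
    simp only
    rw [h0, zero_mul, Real.cos_zero]
    ring
  · intro t
    rw [(hs_fourier L hL t).2, h0, zero_mul, zero_add, ← integral_neg]
    refine setIntegral_congr_fun measurableSet_Ioi fun k _ => ?_
    have e : 2 * Real.pi * (cs L k / (k * sk k)) / (2 * Real.pi) = cs L k / (k * sk k) := by
      field_simp
    rw [e]
    ring

/-- `log g` -/
lemma log_g_hs (t : ℝ) : Real.log (g t) = hs [(-2, 1), (1, 0)] t + Real.log 2 := by
  unfold hs
  rw [NUMF.log_g, zero_add, zero_sub, NUMF.h_neg_right]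
  simp only [List.map_cons, List.map_nil, List.sum_cons, List.sum_nil, one_mul, zero_mul]
  ring

/-- own potential of a quantum at offset `j`: the arguments reduced to `(-4, 4)` -/
def oL (j r1 r2 : ℝ) : List (ℝ × ℝ) :=
  [(1, 4 - j), (1 / 2, 2 - j), (1 / 2, r1), (-1 / 2, 3 - j), (-1 / 2, r2)]

/-- other potential of a quantum at offset `j` -/
def xL (j r3 : ℝ) : List (ℝ × ℝ) := [(1, j), (-1, r3), (-1, j - 1)]

/-- `r` is a reduction of `a` -/
def Rd (r a : ℝ) : Prop := r = a ∨ r = 8 - a

lemma h_rd {r a : ℝ} (hr : Rd r a) (t : ℝ) : h t (r * l) = h t (a * l) := by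
  rcases hr with rfl | rfl
  · rfl
  · rw [← NUMF.h_neg_right, ← NUMF.h_per t (-((8 - a) * l))]
    congr 1
    ring

lemma lq_hs {j r1 r2 : ℝ} (h1 : Rd r1 (2 + j)) (h2 : Rd r2 (5 - j)) (t : ℝ) :
    lq j t = hs (oL j r1 r2) t - Real.log 2 := by
  unfold lq NUMF.ro hs oL
  simp only [List.map_cons, List.map_nil, List.sum_cons, List.sum_nil]
  rw [h_rd h1, h_rd h2]
  ring

lemma lqg_hs {j r3 : ℝ} (h3 : Rd r3 (j + 1)) (t : ℝ) :
    lqg j t = hs (xL j r3) t + Real.log 2 := by
  unfold lqg hs xL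
  simp only [List.map_cons, List.map_nil, List.sum_cons, List.sum_nil]
  rw [h_rd h3, show (j + 1) * l = j * l + l by ring, show (j - 1) * l = j * l - l by ring]
  ring

lemma Lh_cs (k : ℝ) : Lh k = -(2 * Real.pi * (cs [(-2, 1), (1, 0)] k / (k * sk k))) := by
  unfold Lh cs ck1
  simp only [List.map_cons, List.map_nil, List.sum_cons, List.sum_nil, one_mul, zero_mul,
    Real.cosh_zero]
  ring

end

end NUC43
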