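import Pool.Agent.NUC43.Gr
import Pool.Agent.NUP.MF.Forward

/-!
# Inverse cosine transforms of symbols of negative growth

`inv F t = (1/π) ∫_0^∞ F(k) cos (kt) dk`: even, continuous, `|inv F t| ≤ M exp (-(5/2)|t|)`, and
`∫ inv F t cos (kt) dt = F(k)` for every real `k`.
-/

set_option autoImplicit false

open MeasureTheory Set Filter Topology

namespace NUC43

noncomputable section

open NUMF (l l_pos)

variable {α β : ℝ} {F G : ℂ → ℂ}

/-- inverse cosine transform -/
def inv (F : ℂ → ℂ) (t : ℝ) : ℝ :=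
  ∫ k in Ioi (0:ℝ), 2 * Real.cos (t * k) * ((F k).re / (2 * Real.pi))

lemma Gr.line_cont (h : Gr α F) : Continuous fun k : ℝ => F k := by
  rw [continuous_iff_continuousAt]
  intro k
  have h1 := (h.diff (k : ℂ) (by rw [Complex.ofReal_im, abs_zero]; norm_num)).continuousAt
  exact ContinuousAt.comp (g := F) h1 Complex.continuous_ofReal.continuousAt

lemma Gr.re_cont (h : Gr α F) : Continuous fun k : ℝ => (F k).re :=
  Complex.continuous_re.comp h.line_cont

lemma Gr.re_bd (h : Gr α F) : ∃ C : ℝ, 0 ≤ C ∧ ∀ k : ℝ, |(F k).re| ≤ C * Real.exp (α * l * |k|) := by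
  obtain ⟨C, hC0, hC⟩ := h.bd'
  refine ⟨C, hC0, fun k => (Complex.abs_re_le_norm _).trans ?_⟩
  have := hC k (by rw [Complex.ofReal_im, abs_zero]; norm_num)
  rw [Complex.ofReal_re, ← mul_assoc] at this
  exact this

lemma Gr.ofReal_re (h : Gr α F) (k : ℝ) : (((F k).re : ℝ) : ℂ) = F k := by
  apply Complex.ext
  · simp
  · rw [Complex.ofReal_im, h.real]

lemma Gr.re_even (h : Gr α F) (k : ℝ) : (F ((-k : ℝ) : ℂ)).re = (F k).re := by
  rw [Complex.ofReal_neg, h.even]

lemma Gr.re_integrable (h : Gr α F) (hα : α < 0) : Integrable fun k : ℝ => (F k).re := by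
  obtain ⟨C, hC0, hC⟩ := h.re_bd
  have hl := l_pos
  have h1 := (NUMF.int_exp_abs (b := -(α * l)) (by nlinarith)).const_mul C
  refine h1.mono' h.re_cont.aestronglyMeasurable (Eventually.of_forall fun k => ?_)
  rw [Real.norm_eq_abs, neg_neg]
  exact hC k

lemma Gr.integrableOn (h : Gr α F) (hα : α < 0) :
    IntegrableOn (fun k : ℝ => (F k).re / (2 * Real.pi)) (Ioi 0) :=
  ((h.re_integrable hα).div_const _).integrableOn

lemma inv_neg' (F : ℂ → ℂ) (t : ℝ) : inv F (-t) = inv F t := by
  unfold inv
  refine setIntegral_congr_fun measurableSet_Ioi fun k _ => ?_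
  simp only [neg_mul, Real.cos_neg]

lemma Gr.inv_cont (h : Gr α F) (hα : α < 0) : Continuous (inv F) := by
  unfold inv
  refine continuous_of_dominated (bound := fun k => 2 * |(F k).re / (2 * Real.pi)|) ?_ ?_ ?_ ?_
  · intro t
    exact Continuous.aestronglyMeasurable (by
      have := h.re_cont
      fun_prop)
  · intro t
    refine Eventually.of_forall fun k => ?_
    rw [Real.norm_eq_abs, abs_mul, abs_mul, abs_two]
    have := Real.abs_cos_le_one (t * k)
    have h0 := abs_nonneg ((F k).re / (2 * Real.pi))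
    nlinarith
  · exact (h.integrableOn hα).abs.const_mul 2
  · exact Eventually.of_forall fun k => by fun_prop

/-- the inverse transform as a line integral -/
lemma Gr.inv_eq (h : Gr α F) (hα : α < 0) (t : ℝ) :
    2 * Real.pi * inv F t = (∫ s : ℝ, F s * Complex.exp (Complex.I * t * s)).re := by
  have hpi := Real.pi_pos
  have hi : Integrable fun s : ℝ => F s * Complex.exp (Complex.I * t * s) := by
    have h1 : Integrable fun s : ℝ => F s := by
      have := (h.re_integrable hα).ofReal (𝕜 := ℂ)
      refine this.congr (Eventually.of_forall fun s => ?_)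
      exact h.ofReal_re s
    refine (h1.bdd_mul (c := 1) (f := fun s : ℝ => Complex.exp (Complex.I * t * s)) ?_ ?_).congr
      (Eventually.of_forall fun s => mul_comm _ _)
    · exact Continuous.aestronglyMeasurable (by fun_prop)
    · refine Eventually.of_forall fun s => ?_
      rw [show Complex.I * t * s = ((t * s : ℝ) : ℂ) * Complex.I by push_cast; ring,
        Complex.norm_exp_ofReal_mul_I]
  have h2 := integral_re hi
  simp only [RCLike.re_to_complex] at h2
  rw [← h2]
  have h3 : ∀ s : ℝ, (F s * Complex.exp (Complex.I * t * s)).re =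
      (fun x : ℝ => (F x).re * Real.cos (t * x)) |s| := by
    intro s
    rw [show Complex.I * t * s = ((t * s : ℝ) : ℂ) * Complex.I by push_cast; ring, Complex.mul_re,
      h.real, zero_mul, sub_zero, Complex.exp_ofReal_mul_I_re]
    rcases abs_cases s with ⟨h4, _⟩ | ⟨h4, _⟩
    · rw [h4]
    · rw [h4]
      simp only
      rw [h.re_even, mul_neg, Real.cos_neg]
  simp_rw [h3]
  rw [integral_comp_abs (f := fun x : ℝ => (F x).re * Real.cos (t * x))]
  unfold inv
  rw [← integral_const_mul, ← integral_const_mul]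
  refine setIntegral_congr_fun measurableSet_Ioi fun k _ => ?_
  field_simp

theorem Gr.inv_decay (h : Gr α F) (hα : α < 0) : ∃ M : ℝ, 0 ≤ M ∧ ∀ t : ℝ,
    |inv F t| ≤ M * Real.exp (-(5 / 2) * |t|) := by
  have hpi := Real.pi_pos
  have hl := l_pos
  obtain ⟨C, hC0, hC⟩ := h.bd'
  set κ : ℝ := -(α * l) with hκd
  have hκ : 0 < κ := by rw [hκd]; nlinarith
  have hint := NUMF.int_exp_abs hκ
  set J : ℝ := ∫ s : ℝ, Real.exp (-κ * |s|) with hJ
  have hJ0 : 0 ≤ J := integral_nonneg fun s => (Real.exp_pos _).le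
  have key : ∀ t : ℝ, 0 ≤ t → |inv F t| ≤ C * J * Real.exp (-(5 / 2) * t) := by
    intro t ht
    set Φ : ℂ → ℂ := fun z => F z * Complex.exp (Complex.I * t * z) with hΦ
    have hn : ∀ z : ℂ, ‖Complex.exp (Complex.I * t * z)‖ = Real.exp (-(t * z.im)) :=
      fun z => NUMF.norm_exp_ik t z
    have hd : ∀ z : ℂ, |z.im| ≤ 5 / 2 → DifferentiableAt ℂ Φ z := fun z hz =>
      (h.diff z hz).mul (by fun_prop)
    have hbz : ∀ z : ℂ, |z.im| ≤ 5 / 2 → ‖Φ z‖ ≤ C * Real.exp (-κ * |z.re|) * Real.exp (-(t * z.im)) := by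
      intro z hz
      rw [hΦ]
      simp only
      rw [norm_mul, hn]
      have := hC z hz
      have e : α * (l * |z.re|) = -κ * |z.re| := by rw [hκd]; ring
      rw [e] at this
      gcongr
    obtain ⟨i0, i1, e⟩ := NUMF.hshift (Φ := Φ) (θ := 5 / 2) (C := C) (κ := κ) (by norm_num) hκ
      (fun z hz => (hd z (abs_le.2 ⟨by linarith [hz.1], hz.2⟩)).continuousAt.continuousWithinAt)
      (fun z h1 h2 => hd z (abs_le.2 ⟨by linarith, by linarith⟩))
      (fun z h1 h2 _ => by
        refine (hbz z (abs_le.2 ⟨by linarith, h2⟩)).trans ?_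
        have h3 : Real.exp (-(t * z.im)) ≤ 1 := Real.exp_le_one_iff.2 (by
          have := mul_nonneg ht h1
          linarith)
        have h4 : 0 ≤ C * Real.exp (-κ * |z.re|) := by positivity
        nlinarith)
    have h5 := h.inv_eq hα t
    have h6 : ‖∫ s : ℝ, Φ (s + ((5 / 2 : ℝ) : ℂ) * Complex.I)‖ ≤ C * J * Real.exp (-(5 / 2) * t) := by
      refine (norm_integral_le_integral_norm _).trans ?_
      have h7 : ∀ s : ℝ, ‖Φ (s + ((5 / 2 : ℝ) : ℂ) * Complex.I)‖ ≤
          C * Real.exp (-(5 / 2) * t) * Real.exp (-κ * |s|) := by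
        intro s
        have e1 : ((s : ℂ) + ((5 / 2 : ℝ) : ℂ) * Complex.I).im = 5 / 2 := by simp
        have e2 : ((s : ℂ) + ((5 / 2 : ℝ) : ℂ) * Complex.I).re = s := by simp
        have := hbz (s + ((5 / 2 : ℝ) : ℂ) * Complex.I) (by rw [e1]; norm_num)
        rw [e1, e2] at this
        refine this.trans (le_of_eq ?_)
        rw [show -(t * (5 / 2)) = -(5 / 2) * t by ring]
        ring
      refine (integral_mono i1.norm (hint.const_mul _) h7).trans (le_of_eq ?_)
      rw [integral_const_mul]
      ring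
    have h8 : |2 * Real.pi * inv F t| ≤ C * J * Real.exp (-(5 / 2) * t) := by
      rw [h5]
      refine (Complex.abs_re_le_norm _).trans ?_
      have e9 : (∫ s : ℝ, F s * Complex.exp (Complex.I * t * s)) = ∫ s : ℝ, Φ s := rfl
      rw [e9, e]
      exact h6
    rw [abs_mul, abs_of_pos (by positivity : 0 < 2 * Real.pi)] at h8
    have h9 := abs_nonneg (inv F t)
    have h10 : 1 ≤ 2 * Real.pi := by linarith [Real.pi_gt_three]
    nlinarith
  refine ⟨C * J, by positivity, fun t => ?_⟩
  rcases abs_cases t with ⟨h1, h2⟩ | ⟨h1, h2⟩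
  · rw [h1]
    exact key t h2
  · rw [h1, ← inv_neg']
    exact key (-t) (by linarith)

theorem Gr.inv_integrable (h : Gr α F) (hα : α < 0) : Integrable (inv F) := by
  obtain ⟨M, hM0, hM⟩ := h.inv_decay hα
  exact ((NUMF.int_exp_abs (b := 5 / 2) (by norm_num)).const_mul M).mono'
    (h.inv_cont hα).aestronglyMeasurable (Eventually.of_forall hM)

theorem Gr.inv_forward (h : Gr α F) (hα : α < 0) (k : ℝ) :
    ∫ t, inv F t * Real.cos (k * t) = (F k).re := by
  have hpi := Real.pi_pos
  have hpos : ∀ k : ℝ, 0 < k → ∫ t, inv F t * Real.cos (k * t) = (F k).re := by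
    intro k hk
    have := NUMF.cos_inversion (m := fun k => (F k).re / (2 * Real.pi)) (F := inv F)
      (h.integrableOn hα) (h.inv_integrable hα) (fun t => rfl) hk
      ((h.re_cont.div_const _).continuousAt)
    rw [this]
    field_simp
  have hc : Continuous fun k : ℝ => ∫ t, inv F t * Real.cos (k * t) := by
    refine continuous_of_dominated (bound := fun t => |inv F t|) ?_ ?_ ?_ ?_
    · intro k
      exact Continuous.aestronglyMeasurable (by
        have := h.inv_cont hα
        fun_prop)
    · intro k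
      refine Eventually.of_forall fun t => ?_
      rw [Real.norm_eq_abs, abs_mul]
      have := Real.abs_cos_le_one (k * t)
      have h0 := abs_nonneg (inv F t)
      nlinarith
    · exact (h.inv_integrable hα).abs
    · exact Eventually.of_forall fun t => by fun_prop
  have heq : ∀ k : ℝ, 0 ≤ k → ∫ t, inv F t * Real.cos (k * t) = (F k).re := by
    intro k hk
    have hcl : k ∈ closure (Ioi (0:ℝ)) := by rw [closure_Ioi]; exact hk
    exact (EqOn.closure (s := Ioi (0:ℝ)) (fun x hx => hpos x hx) hc h.re_cont) hcl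
  rcases le_total 0 k with hk | hk
  · exact heq k hk
  · have h1 := heq (-k) (by linarith)
    rw [h.re_even] at h1
    rw [← h1]
    refine integral_congr_ae (Eventually.of_forall fun t => ?_)
    simp only [neg_mul, Real.cos_neg]

lemma Gr.inv_int (h : Gr α F) (hα : α < 0) : ∫ t, inv F t = (F 0).re := by
  have := h.inv_forward hα 0
  simpa using this

lemma inv_sin (F : ℂ → ℂ) (k : ℝ) : ∫ t, inv F t * Real.sin (k * t) = 0 := by
  have h1 : ∫ t, inv F t * Real.sin (k * t) = ∫ t, -(inv F t * Real.sin (k * t)) := by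
    rw [← integral_neg_eq_self]
    refine integral_congr_ae (Eventually.of_forall fun t => ?_)
    simp only
    rw [inv_neg', mul_neg, Real.sin_neg]
    ring
  rw [integral_neg] at h1
  linarith

end

end NUC43
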