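import Pool.Agent.NUC43.Conv
import Pool.Agent.NUAct.OCw

/-!
# Inverse transforms of symbols are smooth, with all derivatives `O(e^{-(5/2)|t|})`
-/

set_option autoImplicit false

open MeasureTheory Set Filter Topology

namespace NUC43

noncomputable section

open NUMF (l l_pos)

variable {α : ℝ} {F : ℂ → ℂ}

lemma gr_sq {δ : ℝ} (hδ : 0 < δ) : Gr δ (fun z => z ^ 2) := by
  have hl := l_pos
  have hdl : 0 < δ * l := by positivity
  refine ⟨fun z _ => by fun_prop, ⟨4 / (δ * l) ^ 2 + 13, fun z hz => ?_⟩, fun z => by ring,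
    fun x => ?_⟩
  · have h1 : ‖z‖ ≤ |z.re| + |z.im| := Complex.norm_le_abs_re_add_abs_im z
    have h2 : ‖z‖ ≤ |z.re| + 5 / 2 := by linarith
    have hx := abs_nonneg z.re
    have h3 : ‖z ^ 2‖ ≤ 2 * |z.re| ^ 2 + 25 / 2 := by
      rw [norm_pow]
      have h4 : ‖z‖ ^ 2 ≤ (|z.re| + 5 / 2) ^ 2 := pow_le_pow_left₀ (norm_nonneg _) h2 2
      nlinarith [sq_nonneg (|z.re| - 5 / 2)]
    have hy : 0 ≤ δ * (l * |z.re|) := by positivity
    have h5 := Real.quadratic_le_exp_of_nonneg hy
    have h6 : 1 ≤ Real.exp (δ * (l * |z.re|)) := Real.one_le_exp hy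
    have h7 : |z.re| ^ 2 * (δ * l) ^ 2 ≤ 2 * Real.exp (δ * (l * |z.re|)) := by
      have e1 : (δ * (l * |z.re|)) ^ 2 = |z.re| ^ 2 * (δ * l) ^ 2 := by ring
      rw [e1] at h5
      linarith
    have h8 : 2 * |z.re| ^ 2 ≤ 4 / (δ * l) ^ 2 * Real.exp (δ * (l * |z.re|)) := by
      rw [div_mul_eq_mul_div, le_div_iff₀ (by positivity)]
      linarith
    refine h3.trans ?_
    rw [add_mul]
    nlinarith
  · rw [← Complex.ofReal_pow, Complex.ofReal_im]

/-- `z² F` -/
def sqF (F : ℂ → ℂ) (z : ℂ) : ℂ := z ^ 2 * F z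

lemma Gr.sqF (h : Gr α F) (hα : α < 0) : Gr (α / 2) (sqF F) :=
  (gr_sq (δ := -α / 2) (by linarith)).mul' h (by ring)

lemma sqF_re (F : ℂ → ℂ) (k : ℝ) : (sqF F k).re = k ^ 2 * (F k).re := by
  unfold NUC43.sqF
  rw [← Complex.ofReal_pow, Complex.re_ofReal_mul]

/-- the derivative of `inv F` -/
def invD (F : ℂ → ℂ) (t : ℝ) : ℝ :=
  ∫ k in Ioi (0:ℝ), -(2 * (k * Real.sin (t * k)) * ((F k).re / (2 * Real.pi)))

lemma invD_neg (F : ℂ → ℂ) (t : ℝ) : invD F (-t) = -invD F t := by
  unfold invD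
  rw [← integral_neg]
  refine setIntegral_congr_fun measurableSet_Ioi fun k _ => ?_
  simp only [neg_mul, Real.sin_neg]
  ring

lemma invD_zero (F : ℂ → ℂ) : invD F 0 = 0 := by
  unfold invD
  simp

lemma Gr.k_int (h : Gr α F) (hα : α < 0) :
    Integrable (fun k : ℝ => 2 * ((1 + k ^ 2) * |(F k).re|)) := by
  have h1 := (h.re_integrable hα).abs
  have h2 := ((h.sqF hα).re_integrable (by linarith)).abs
  have h3 := (h1.add h2).const_mul 2
  refine h3.congr (Eventually.of_forall fun k => ?_)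
  simp only [Pi.add_apply]
  rw [sqF_re, abs_mul, abs_of_nonneg (sq_nonneg k)]
  ring

lemma inv2pi : 0 < 1 / (2 * Real.pi) ∧ 1 / (2 * Real.pi) ≤ 1 := by
  have := Real.pi_gt_three
  constructor
  · positivity
  · rw [div_le_one (by positivity)]
    linarith

theorem Gr.inv_hasDerivAt (h : Gr α F) (hα : α < 0) (t : ℝ) :
    HasDerivAt (inv F) (invD F t) t := by
  obtain ⟨p1, p2⟩ := inv2pi
  have hre := h.re_cont
  have key := hasDerivAt_integral_of_dominated_loc_of_deriv_le
    (F := fun (t k : ℝ) => 2 * Real.cos (t * k) * ((F k).re / (2 * Real.pi)))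
    (F' := fun (t k : ℝ) => -(2 * (k * Real.sin (t * k)) * ((F k).re / (2 * Real.pi))))
    (μ := volume.restrict (Ioi (0:ℝ))) (x₀ := t) (s := univ)
    (bound := fun k : ℝ => 2 * ((1 + k ^ 2) * |(F k).re|)) univ_mem
    (Eventually.of_forall fun s => Continuous.aestronglyMeasurable (by fun_prop))
    ?_ (Continuous.aestronglyMeasurable (by fun_prop)) ?_ (h.k_int hα).integrableOn ?_
  · exact key.2
  · have h1 := h.integrableOn hα
    have h2 : IntegrableOn (fun k : ℝ => (F k).re / (2 * Real.pi) * (2 * Real.cos (t * k)))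
        (Ioi 0) := by
      refine Integrable.mul_bdd (c := 2) h1 (Continuous.aestronglyMeasurable (by fun_prop))
        (Eventually.of_forall fun k => ?_)
      rw [Real.norm_eq_abs, abs_mul, abs_two]
      have := Real.abs_cos_le_one (t * k)
      linarith
    exact h2.congr (Eventually.of_forall fun k => mul_comm _ _)
  · refine Eventually.of_forall fun k s _ => ?_
    rw [Real.norm_eq_abs, abs_neg, abs_mul, abs_mul, abs_two, abs_mul, abs_div,
      abs_of_pos (by positivity : 0 < 2 * Real.pi)]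
    have h3 := Real.abs_sin_le_one (s * k)
    have h4 : |k| * |Real.sin (s * k)| ≤ 1 + k ^ 2 := by
      have h5 : |k| ≤ 1 + k ^ 2 := by
        nlinarith [sq_abs k, sq_nonneg (|k| - 1), abs_nonneg k]
      calc |k| * |Real.sin (s * k)| ≤ |k| * 1 := by gcongr
        _ ≤ _ := by linarith
    have h6 : |(F k).re| / (2 * Real.pi) ≤ |(F k).re| := by
      refine div_le_self (abs_nonneg _) ?_
      linarith [Real.pi_gt_three]
    calc 2 * (|k| * |Real.sin (s * k)|) * (|(F k).re| / (2 * Real.pi)) ≤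
        2 * (1 + k ^ 2) * |(F k).re| := by gcongr
      _ = _ := by ring
  · refine Eventually.of_forall fun k s _ => ?_
    have h1 : HasDerivAt (fun s : ℝ => Real.cos (s * k)) (-Real.sin (s * k) * k) s :=
      (hasDerivAt_mul_const k).cos
    have h2 := (h1.const_mul 2).mul_const ((F k).re / (2 * Real.pi))
    refine HasDerivAt.congr_deriv h2 ?_
    ring

theorem Gr.invD_hasDerivAt (h : Gr α F) (hα : α < 0) (t : ℝ) :
    HasDerivAt (invD F) (-inv (NUC43.sqF F) t) t := by
  have hre := h.re_cont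
  have key := hasDerivAt_integral_of_dominated_loc_of_deriv_le
    (F := fun (t k : ℝ) => -(2 * (k * Real.sin (t * k)) * ((F k).re / (2 * Real.pi))))
    (F' := fun (t k : ℝ) => -(2 * (k * (k * Real.cos (t * k))) * ((F k).re / (2 * Real.pi))))
    (μ := volume.restrict (Ioi (0:ℝ))) (x₀ := t) (s := univ)
    (bound := fun k : ℝ => 2 * ((1 + k ^ 2) * |(F k).re|)) univ_mem
    (Eventually.of_forall fun s => Continuous.aestronglyMeasurable (by fun_prop))
    ?_ (Continuous.aestronglyMeasurable (by fun_prop)) ?_ (h.k_int hα).integrableOn ?_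
  · refine key.2.congr_deriv ?_
    unfold inv
    rw [← integral_neg]
    refine setIntegral_congr_fun measurableSet_Ioi fun k _ => ?_
    rw [sqF_re]
    ring
  · refine (h.k_int hα).integrableOn.mono' (Continuous.aestronglyMeasurable (by fun_prop))
      (Eventually.of_forall fun k => ?_)
    rw [Real.norm_eq_abs, abs_neg, abs_mul, abs_mul, abs_two, abs_mul, abs_div,
      abs_of_pos (by positivity : 0 < 2 * Real.pi)]
    have h3 := Real.abs_sin_le_one (t * k)
    have h4 : |k| * |Real.sin (t * k)| ≤ 1 + k ^ 2 := by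
      have h5 : |k| ≤ 1 + k ^ 2 := by
        nlinarith [sq_abs k, sq_nonneg (|k| - 1), abs_nonneg k]
      calc |k| * |Real.sin (t * k)| ≤ |k| * 1 := by gcongr
        _ ≤ _ := by linarith
    have h6 : |(F k).re| / (2 * Real.pi) ≤ |(F k).re| := by
      refine div_le_self (abs_nonneg _) ?_
      linarith [Real.pi_gt_three]
    calc 2 * (|k| * |Real.sin (t * k)|) * (|(F k).re| / (2 * Real.pi)) ≤
        2 * (1 + k ^ 2) * |(F k).re| := by gcongr
      _ = _ := by ring
  · refine Eventually.of_forall fun k s _ => ?_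
    rw [Real.norm_eq_abs, abs_neg, abs_mul, abs_mul, abs_two, abs_mul, abs_mul, abs_div,
      abs_of_pos (by positivity : 0 < 2 * Real.pi)]
    have h3 := Real.abs_cos_le_one (s * k)
    have h4 : |k| * (|k| * |Real.cos (s * k)|) ≤ 1 + k ^ 2 := by
      have h5 : |k| * |k| = k ^ 2 := by rw [← sq, sq_abs]
      calc |k| * (|k| * |Real.cos (s * k)|) ≤ |k| * (|k| * 1) := by gcongr
        _ = k ^ 2 := by rw [mul_one, h5]
        _ ≤ _ := by linarith
    have h6 : |(F k).re| / (2 * Real.pi) ≤ |(F k).re| := by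
      refine div_le_self (abs_nonneg _) ?_
      linarith [Real.pi_gt_three]
    calc 2 * (|k| * (|k| * |Real.cos (s * k)|)) * (|(F k).re| / (2 * Real.pi)) ≤
        2 * (1 + k ^ 2) * |(F k).re| := by gcongr
      _ = _ := by ring
  · refine Eventually.of_forall fun k s _ => ?_
    have h1 : HasDerivAt (fun s : ℝ => Real.sin (s * k)) (Real.cos (s * k) * k) s :=
      (hasDerivAt_mul_const k).sin
    have h2 := (((h1.const_mul k).const_mul 2).mul_const ((F k).re / (2 * Real.pi))).neg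
    refine HasDerivAt.congr_deriv h2 ?_
    ring

theorem Gr.invD_decay (h : Gr α F) (hα : α < 0) : ∃ M : ℝ, 0 ≤ M ∧ ∀ t : ℝ,
    |invD F t| ≤ M * Real.exp (-(5 / 2) * |t|) := by
  have hs := h.sqF hα
  have hα2 : α / 2 < 0 := by linarith
  obtain ⟨M, hM0, hM⟩ := hs.inv_decay hα2
  have hint := hs.inv_integrable hα2
  have hc := hs.inv_cont hα2
  have hz : ∫ t in Ioi (0:ℝ), inv (NUC43.sqF F) t = 0 := by
    have h1 := hs.inv_int hα2
    have h2 : ∫ t, inv (NUC43.sqF F) t = 2 * ∫ t in Ioi (0:ℝ), inv (NUC43.sqF F) t := by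
      rw [← integral_comp_abs (f := inv (NUC43.sqF F))]
      congr 1
      funext t
      rcases abs_cases t with ⟨h4, _⟩ | ⟨h4, _⟩
      · rw [h4]
      · rw [h4, inv_neg']
    have h3 : (NUC43.sqF F 0).re = 0 := by
      unfold NUC43.sqF
      simp
    rw [h1, h3] at h2
    linarith
  have key : ∀ t : ℝ, 0 ≤ t → |invD F t| ≤ M * Real.exp (-(5 / 2) * t) := by
    intro t ht
    have h1 : ∫ s in (0:ℝ)..t, -inv (NUC43.sqF F) s = invD F t - invD F 0 :=
      intervalIntegral.integral_eq_sub_of_hasDerivAt (fun s _ => h.invD_hasDerivAt hα s)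
        (hc.neg.intervalIntegrable _ _)
    rw [invD_zero, sub_zero, intervalIntegral.integral_neg,
      intervalIntegral.integral_of_le ht] at h1
    have h2 : (∫ s in Ioi (0:ℝ), inv (NUC43.sqF F) s) = (∫ s in Ioc (0:ℝ) t, inv (NUC43.sqF F) s) +
        ∫ s in Ioi t, inv (NUC43.sqF F) s := by
      rw [← Ioc_union_Ioi_eq_Ioi ht, setIntegral_union (Ioc_disjoint_Ioi le_rfl) measurableSet_Ioi
        hint.integrableOn hint.integrableOn]
    rw [hz] at h2
    have h3 : invD F t = ∫ s in Ioi t, inv (NUC43.sqF F) s := by linarith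
    rw [h3]
    have h4 : IntegrableOn (fun s : ℝ => M * Real.exp (-(5 / 2) * s)) (Ioi t) :=
      (integrableOn_exp_mul_Ioi (by norm_num) t).const_mul M
    calc |∫ s in Ioi t, inv (NUC43.sqF F) s| ≤ ∫ s in Ioi t, M * Real.exp (-(5 / 2) * s) := by
          rw [← Real.norm_eq_abs]
          refine norm_integral_le_of_norm_le h4 ?_
          filter_upwards [ae_restrict_mem measurableSet_Ioi] with s hs'
          have h5 : 0 ≤ s := ht.trans (le_of_lt hs')
          have := hM s
          rw [abs_of_nonneg h5] at this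
          exact this
      _ = M * (2 / 5 * Real.exp (-(5 / 2) * t)) := by
          rw [integral_const_mul, integral_exp_mul_Ioi (by norm_num)]
          ring
      _ ≤ M * Real.exp (-(5 / 2) * t) := by
          have := Real.exp_pos (-(5 / 2) * t)
          gcongr
          linarith
  refine ⟨M, hM0, fun t => ?_⟩
  rcases abs_cases t with ⟨h1, h2⟩ | ⟨h1, h2⟩
  · rw [h1]
    exact key t h2
  · rw [h1]
    have h3 := key (-t) (by linarith)
    rw [invD_neg, abs_neg] at h3
    exact h3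

lemma inv_neg_fun (F : ℂ → ℂ) (t : ℝ) : inv (fun z => -F z) t = -inv F t := by
  unfold inv
  rw [← integral_neg]
  refine setIntegral_congr_fun measurableSet_Ioi fun k _ => ?_
  simp only [Complex.neg_re]
  ring

/-- **smoothness with weights** -/
theorem Gr.inv_OC (j : ℕ) : ∀ {α : ℝ} {F : ℂ → ℂ}, Gr α F → α < 0 → ∃ M : ℝ, 0 ≤ M ∧
    NUAct.OC j (fun t => M * Real.exp (-(5 / 2) * |t|)) (fun t => ((inv F t : ℝ) : ℂ)) := by
  have two : ∀ j : ℕ, (∀ {α : ℝ} {F : ℂ → ℂ}, Gr α F → α < 0 → ∃ M : ℝ, 0 ≤ M ∧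
      NUAct.OC j (fun t => M * Real.exp (-(5 / 2) * |t|)) (fun t => ((inv F t : ℝ) : ℂ))) →
      ∀ {α : ℝ} {F : ℂ → ℂ}, Gr α F → α < 0 → ∃ M : ℝ, 0 ≤ M ∧
      NUAct.OC (j + 2) (fun t => M * Real.exp (-(5 / 2) * |t|)) (fun t => ((inv F t : ℝ) : ℂ)) := by
    intro j ih α F h hα
    obtain ⟨M1, m1, H1⟩ := h.inv_decay hα
    obtain ⟨M2, m2, H2⟩ := h.invD_decay hα
    obtain ⟨M3, m3, H3⟩ := ih (h.sqF hα).neg (by linarith : α / 2 < 0)
    have ex : ∀ t : ℝ, 0 < Real.exp (-(5 / 2) * |t|) := fun t => Real.exp_pos _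
    refine ⟨M1 + M2 + M3, by positivity, fun t => ?_, fun t => ((invD F t : ℝ) : ℂ),
      fun t => (h.inv_hasDerivAt hα t).ofReal_comp, fun t => ?_,
      fun t => ((inv (fun z => -NUC43.sqF F z) t : ℝ) : ℂ), fun t => ?_, H3.mono fun t => ?_⟩
    · rw [Complex.norm_real, Real.norm_eq_abs]
      exact (H1 t).trans (mul_le_mul_of_nonneg_right (by linarith) (ex t).le)
    · rw [Complex.norm_real, Real.norm_eq_abs]
      exact (H2 t).trans (mul_le_mul_of_nonneg_right (by linarith) (ex t).le)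
    · show HasDerivAt (fun t => ((invD F t : ℝ) : ℂ))
        ((inv (fun z => -NUC43.sqF F z) t : ℝ) : ℂ) t
      rw [inv_neg_fun]
      exact (h.invD_hasDerivAt hα t).ofReal_comp
    · exact mul_le_mul_of_nonneg_right (by linarith) (ex t).le
  have h01 : (∀ {α : ℝ} {F : ℂ → ℂ}, Gr α F → α < 0 → ∃ M : ℝ, 0 ≤ M ∧
      NUAct.OC 0 (fun t => M * Real.exp (-(5 / 2) * |t|)) (fun t => ((inv F t : ℝ) : ℂ))) ∧
      ∀ {α : ℝ} {F : ℂ → ℂ}, Gr α F → α < 0 → ∃ M : ℝ, 0 ≤ M ∧
      NUAct.OC 1 (fun t => M * Real.exp (-(5 / 2) * |t|)) (fun t => ((inv F t : ℝ) : ℂ)) := by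
    constructor
    · intro α F h hα
      obtain ⟨M1, m1, H1⟩ := h.inv_decay hα
      refine ⟨M1, m1, Complex.continuous_ofReal.comp (h.inv_cont hα), fun t => ?_⟩
      rw [Complex.norm_real, Real.norm_eq_abs]
      exact H1 t
    · intro α F h hα
      obtain ⟨M1, m1, H1⟩ := h.inv_decay hα
      obtain ⟨M2, m2, H2⟩ := h.invD_decay hα
      have ex : ∀ t : ℝ, 0 < Real.exp (-(5 / 2) * |t|) := fun t => Real.exp_pos _
      have hc : Continuous (invD F) :=
        continuous_iff_continuousAt.2 fun t => (h.invD_hasDerivAt hα t).continuousAt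
      refine ⟨M1 + M2, by positivity, fun t => ?_, fun t => ((invD F t : ℝ) : ℂ),
        fun t => (h.inv_hasDerivAt hα t).ofReal_comp, Complex.continuous_ofReal.comp hc,
        fun t => ?_⟩
      · rw [Complex.norm_real, Real.norm_eq_abs]
        exact (H1 t).trans (mul_le_mul_of_nonneg_right (by linarith) (ex t).le)
      · rw [Complex.norm_real, Real.norm_eq_abs]
        exact (H2 t).trans (mul_le_mul_of_nonneg_right (by linarith) (ex t).le)
  induction j using Nat.twoStepInduction with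
  | zero => exact h01.1
  | one => exact h01.2
  | more j ih _ => exact two j ih

end

end NUC43
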