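import Pool.Agent.NUC43.Slk
import Pool.Agent.NUO.Obj

/-!
# The charges of the kinds of objects

`jL = j`, `e` general (`Adm j e`); the slack belongs to `e = 1/4`.  `chgK : Chg (-al0 j e) (kq K) (kA K) (kB K)
(kAh K) (kBh K) (kF K) (kG K)`.  For `j = 9/4`, `e = 1/4` the transforms are helper9's `NUMH.fX`, `NUMH.fY`.
-/

set_option autoImplicit false

open MeasureTheory Set Filter Topology

namespace NUC43

noncomputable section

open NUMF (l l_pos g h V Lh Uh ck1 sk sk_pos lq lqg)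
open NUO (Kind)

variable (j e : ℝ)

/-- charge (own minus other quanta) -/
def kq : Kind → ℝ
  | .L => 1
  | .St => 2
  | .S => 2
  | .Sv => 1
  | .Svv => 0

/-- potential on the own species, slack included -/
def kA : Kind → ℝ → ℝ
  | .L => pO j e .L
  | .St => pO j e .T
  | .S => fun t => pO j e .S t + slk t
  | .Sv => fun t => pO j e .S t + pX j e .V t + (1 / 2) * slk t
  | .Svv => fun t => pO j e .S t + 2 * pX j e .V t

/-- potential on the other species -/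
def kB : Kind → ℝ → ℝ
  | .L => pX j e .L
  | .St => pX j e .T
  | .S => fun t => pX j e .S t
  | .Sv => fun t => pX j e .S t + pO j e .V t
  | .Svv => fun t => pX j e .S t + 2 * pO j e .V t

/-- minus the transform of `kA` -/
def kAh : Kind → ℝ → ℝ
  | .L => Ah j e .L
  | .St => Ah j e .T
  | .S => fun k => Ah j e .S k - Sl k
  | .Sv => fun k => Ah j e .S k + Bh j e .V k - (1 / 2) * Sl k
  | .Svv => fun k => Ah j e .S k + 2 * Bh j e .V k

/-- minus the transform of `kB` -/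
def kBh : Kind → ℝ → ℝ
  | .L => Bh j e .L
  | .St => Bh j e .T
  | .S => fun k => Bh j e .S k
  | .Sv => fun k => Bh j e .S k + Ah j e .V k
  | .Svv => fun k => Bh j e .S k + 2 * Ah j e .V k

/-- symbol `-(A + B) / U₊` -/
def kF : Kind → ℂ → ℂ
  | .L => sp j e .L
  | .St => sp j e .T
  | .S => fun z => sp j e .S z + slp z
  | .Sv => fun z => sp j e .S z + sp j e .V z + ((1 / 2 : ℝ) : ℂ) * slp z
  | .Svv => fun z => sp j e .S z + (2 : ℝ) * sp j e .V z

/-- symbol `-(A - B) / U₋` -/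
def kG : Kind → ℂ → ℂ
  | .L => sm j e .L
  | .St => sm j e .T
  | .S => fun z => sm j e .S z + slm z
  | .Sv => fun z => sm j e .S z - sm j e .V z + ((1 / 2 : ℝ) : ℂ) * slm z
  | .Svv => fun z => sm j e .S z - (2 : ℝ) * sm j e .V z

/-- decay exponent of the symbols -/
def al0 : ℝ := min (kap j e) (1 / 4)

variable {j e}

lemma al0_pos (h : Adm j e) : 0 < al0 j e := lt_min (kap_pos h) (by norm_num)

theorem chgK (h : Adm j e) (K : Kind) :
    Chg (-al0 j e) (kq K) (kA j e K) (kB j e K) (kAh j e K) (kBh j e K) (kF j e K) (kG j e K) := by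
  have h0 := al0_pos h
  have m1 : al0 j e ≤ kap j e := min_le_left _ _
  have m2 : al0 j e ≤ 1 / 4 := min_le_right _ _
  have hg : ∀ γ, Chg (-al0 j e) (qc γ) (pO j e γ) (pX j e γ) (Ah j e γ) (Bh j e γ) (sp j e γ) (sm j e γ) :=
    fun γ => (chg_grp h γ).mono (by linarith) (by linarith)
  have hs : Chg (-al0 j e) 0 slk (fun _ => 0) (fun k => -Sl k) (fun _ => 0) slp slm :=
    chg_slk.mono (by linarith) (by linarith)
  cases K
  · exact hg .L
  · exact hg .T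
  · refine ((hg .S).add hs).congr ?_ ?_ ?_ ?_ ?_ ?_ ?_ <;> (try intro x) <;>
      simp only [kq, kA, kB, kAh, kBh, kF, kG, qc] <;> ring
  · refine (((hg .S).add (hg .V).flip).add (hs.smul (1 / 2))).congr ?_ ?_ ?_ ?_ ?_ ?_ ?_ <;> (try intro x) <;>
      simp only [kq, kA, kB, kAh, kBh, kF, kG, qc] <;> ring
  · refine ((hg .S).add ((hg .V).flip.smul 2)).congr ?_ ?_ ?_ ?_ ?_ ?_ ?_ <;> (try intro x) <;>
      simp only [kq, kA, kB, kAh, kBh, kF, kG, qc] <;> ring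

/-! ### the link with `NUMH` -/

/-- `jL = 9/4`, `e = 1/4` -/
lemma adm0 : Adm (9 / 4) (1 / 4) := ⟨by norm_num, by norm_num, by norm_num, by norm_num⟩

/-- own potential (helper9) -/
def fXK : Kind → ℝ → ℝ
  | .L => NUMH.fX .L
  | .St => NUMH.fX .T
  | .S => NUMH.fX .S
  | .Sv => fun z => (NUMH.fX .S z + NUMH.fX .V z) / 2
  | .Svv => NUMH.fX .V

/-- other potential (helper9) -/
def fYK : Kind → ℝ → ℝ
  | .L => NUMH.fY .L
  | .St => NUMH.fY .T
  | .S => NUMH.fY .S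
  | .Sv => fun z => (NUMH.fY .S z + NUMH.fY .V z) / 2
  | .Svv => NUMH.fY .V

lemma chv {a : ℝ} (n : ℕ) (k : ℝ) (h : |a| = n / 4) : Real.cosh (a * l * k) = NUSB.ch n (NUMH.zk k) := by
  rw [ch_eq, ← h]
  rcases abs_cases a with ⟨e, _⟩ | ⟨e, _⟩
  · rw [e]
  · rw [e, show -a * l * k = -(a * l * k) by ring, Real.cosh_neg]

lemma Ah_PP (γ : Grp) (k : ℝ) : Ah (9 / 4) (1 / 4) γ k = NUMH.PP k * cs (lO (9 / 4) (1 / 4) γ) k := by
  rw [PP_eq]; unfold Ah; ring
lemma Bh_PP (γ : Grp) (k : ℝ) : Bh (9 / 4) (1 / 4) γ k = NUMH.PP k * cs (lX (9 / 4) (1 / 4) γ) k := by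
  rw [PP_eq]; unfold Bh; ring

lemma cO_L (k : ℝ) : cs (lO (9 / 4) (1 / 4) .L) k = NUMH.fXL (NUMH.zk k) := by
  simp only [lO, oL, cs, List.map_cons, List.map_nil, List.sum_cons, List.sum_nil]
  rw [chv (a := 4 - 9 / 4) 7 k (by norm_num [abs_of_pos]), chv (a := 2 - 9 / 4) 1 k (by norm_num [abs_of_neg]),
    chv (a := 6 - 9 / 4) 15 k (by norm_num [abs_of_pos]), chv (a := 3 - 9 / 4) 3 k (by norm_num [abs_of_pos]),
    chv (a := 5 - 9 / 4) 11 k (by norm_num [abs_of_pos])]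
  unfold NUMH.fXL
  ring

lemma cX_L (k : ℝ) : cs (lX (9 / 4) (1 / 4) .L) k = NUMH.fYL (NUMH.zk k) := by
  simp only [lX, xL, cs, List.map_cons, List.map_nil, List.sum_cons, List.sum_nil]
  rw [chv (a := 9 / 4) 9 k (by norm_num [abs_of_pos]), chv (a := 9 / 4 + 1) 13 k (by norm_num [abs_of_pos]),
    chv (a := 9 / 4 - 1) 5 k (by norm_num [abs_of_pos])]
  unfold NUMH.fYL
  ring

lemma cO_T (k : ℝ) : cs (lO (9 / 4) (1 / 4) .T) k = NUMH.fXT (NUMH.zk k) := by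
  simp only [lO, oL, cs, List.cons_append, List.nil_append, List.map_cons, List.map_nil, List.sum_cons,
    List.sum_nil]
  rw [chv (a := 4 - 3 / 2) 10 k (by norm_num [abs_of_pos]), chv (a := 2 - 3 / 2) 2 k (by norm_num [abs_of_pos]),
    chv (a := 7 / 2) 14 k (by norm_num [abs_of_pos]), chv (a := 3 - 3 / 2) 6 k (by norm_num [abs_of_pos]),
    chv (a := 4 - 5 / 2) 6 k (by norm_num [abs_of_pos]), chv (a := 2 - 5 / 2) 2 k (by norm_num [abs_of_neg]),
    chv (a := 3 - 5 / 2) 2 k (by norm_num [abs_of_pos]), chv (a := 5 / 2) 10 k (by norm_num [abs_of_pos])]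
  unfold NUMH.fXT
  ring

lemma cX_T (k : ℝ) : cs (lX (9 / 4) (1 / 4) .T) k = NUMH.fYT (NUMH.zk k) := by
  simp only [lX, xL, cs, List.cons_append, List.nil_append, List.map_cons, List.map_nil, List.sum_cons,
    List.sum_nil]
  rw [chv (a := 3 / 2) 6 k (by norm_num [abs_of_pos]), chv (a := 5 / 2) 10 k (by norm_num [abs_of_pos]),
    chv (a := 3 / 2 - 1) 2 k (by norm_num [abs_of_pos]), chv (a := 7 / 2) 14 k (by norm_num [abs_of_pos]),
    chv (a := 5 / 2 - 1) 6 k (by norm_num [abs_of_pos])]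
  unfold NUMH.fYT
  ring

lemma cO_S (k : ℝ) : cs (lO (9 / 4) (1 / 4) .S) k = NUSB.fXS (NUMH.zk k) := by
  simp only [lO, oL, cs, List.cons_append, List.nil_append, List.map_cons, List.map_nil, List.sum_cons,
    List.sum_nil]
  rw [chv (a := 4 - (2 + 1 / 4)) 7 k (by norm_num [abs_of_pos]),
    chv (a := 2 - (2 + 1 / 4)) 1 k (by norm_num [abs_of_neg]),
    chv (a := 4 - 1 / 4) 15 k (by norm_num [abs_of_pos]),
    chv (a := 3 - (2 + 1 / 4)) 3 k (by norm_num [abs_of_pos]),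
    chv (a := 4 - (3 + 1 / 4)) 3 k (by norm_num [abs_of_pos]),
    chv (a := 2 - (3 + 1 / 4)) 5 k (by norm_num [abs_of_neg]),
    chv (a := 3 - (3 + 1 / 4)) 1 k (by norm_num [abs_of_neg]),
    chv (a := 3 - 1 / 4) 11 k (by norm_num [abs_of_pos]),
    chv (a := 2 - 1 / 4) 7 k (by norm_num [abs_of_pos])]
  unfold NUSB.fXS
  ring

lemma cX_S (k : ℝ) : cs (lX (9 / 4) (1 / 4) .S) k = NUSB.fYS (NUMH.zk k) := by
  simp only [lX, xL, cs, List.cons_append, List.nil_append, List.map_cons, List.map_nil, List.sum_cons,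
    List.sum_nil]
  rw [chv (a := 2 + 1 / 4) 9 k (by norm_num [abs_of_pos]), chv (a := 3 + 1 / 4) 13 k (by norm_num [abs_of_pos]),
    chv (a := 2 + 1 / 4 - 1) 5 k (by norm_num [abs_of_pos]), chv (a := 4 - 1 / 4) 15 k (by norm_num [abs_of_pos]),
    chv (a := 3 + 1 / 4 - 1) 9 k (by norm_num [abs_of_pos])]
  unfold NUSB.fYS
  ring

lemma cO_V (k : ℝ) : cs (lO (9 / 4) (1 / 4) .V) k =
    (2 * NUSB.ch 15 (NUMH.zk k) + NUSB.ch 7 (NUMH.zk k) + NUSB.ch 9 (NUMH.zk k) - NUSB.ch 11 (NUMH.zk k) -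
      NUSB.ch 13 (NUMH.zk k)) / 2 := by
  simp only [lO, oL, cs, List.map_cons, List.map_nil, List.sum_cons, List.sum_nil]
  rw [chv (a := 4 - 1 / 4) 15 k (by norm_num [abs_of_pos]), chv (a := 2 - 1 / 4) 7 k (by norm_num [abs_of_pos]),
    chv (a := 2 + 1 / 4) 9 k (by norm_num [abs_of_pos]), chv (a := 3 - 1 / 4) 11 k (by norm_num [abs_of_pos]),
    chv (a := 3 + 1 / 4) 13 k (by norm_num [abs_of_pos])]
  ring

lemma cX_V (k : ℝ) : cs (lX (9 / 4) (1 / 4) .V) k =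
    NUSB.ch 1 (NUMH.zk k) - NUSB.ch 3 (NUMH.zk k) - NUSB.ch 5 (NUMH.zk k) := by
  simp only [lX, xL, cs, List.map_cons, List.map_nil, List.sum_cons, List.sum_nil]
  rw [chv (a := 1 / 4) 1 k (by norm_num [abs_of_pos]), chv (a := 1 / 4 + 1) 5 k (by norm_num [abs_of_pos]),
    chv (a := 1 / 4 - 1) 3 k (by norm_num [abs_of_neg])]
  ring

/-- `kAh = PP fX` -/
theorem kAh_eq (K : Kind) (k : ℝ) : kAh (9 / 4) (1 / 4) K k = NUMH.PP k * fXK K (NUMH.zk k) := by
  cases K <;> simp only [kAh, fXK, NUMH.fX, Ah_PP, Bh_PP, cO_L, cO_T, cO_S, cX_V, Sl, NUSB.fXS, NUSB.fXV] <;> ring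

/-- `kBh = PP fY` -/
theorem kBh_eq (K : Kind) (k : ℝ) : kBh (9 / 4) (1 / 4) K k = NUMH.PP k * fYK K (NUMH.zk k) := by
  cases K <;> simp only [kBh, fYK, NUMH.fY, Ah_PP, Bh_PP, cX_L, cX_T, cX_S, cO_V, NUSB.fYS, NUSB.fYV] <;> ring

/-- the symbol `F` on the real line -/
theorem kF_re (K : Kind) {k : ℝ} (hk : 0 < k) : (kF (9 / 4) (1 / 4) K k).re =
    -((fXK K (NUMH.zk k) + fYK K (NUMH.zk k)) / NUSB.up (NUMH.zk k)) := by
  have h1 := (chgK adm0 K).hp k hk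
  have h2 := NUMH.PP_pos hk
  have h3 := NUSB.up_pos (NUMH.zk_pos hk)
  rw [kAh_eq, kBh_eq, Uh_up] at h1
  field_simp
  have h4 : NUMH.PP k * (NUSB.up (NUMH.zk k) * (kF (9 / 4) (1 / 4) K k).re) =
      NUMH.PP k * -(fXK K (NUMH.zk k) + fYK K (NUMH.zk k)) := by linarith
  have := mul_left_cancel₀ h2.ne' h4
  linarith

/-- the symbol `G` on the real line -/
theorem kG_re (K : Kind) {k : ℝ} (hk : 0 < k) : (kG (9 / 4) (1 / 4) K k).re =
    -((fXK K (NUMH.zk k) - fYK K (NUMH.zk k)) / NUSB.um (NUMH.zk k)) := by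
  have h1 := (chgK adm0 K).hm k hk
  have h2 := NUMH.PP_pos hk
  have h3 := NUSB.um_pos (NUMH.zk k)
  rw [kAh_eq, kBh_eq, Um_um] at h1
  field_simp
  have h4 : NUMH.PP k * (NUSB.um (NUMH.zk k) * (kG (9 / 4) (1 / 4) K k).re) =
      NUMH.PP k * -(fXK K (NUMH.zk k) - fYK K (NUMH.zk k)) := by linarith
  have := mul_left_cancel₀ h2.ne' h4
  linarith

end

end NUC43
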