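import Pool.Agent.NUC43.Conv
import Pool.Agent.NUP.MF.Profile
import Pool.Agent.NUP.MF.Quanta

/-!
# Potentials as convolutions `V * σ`

`logg_conv`: `∫ inv F(s) (log g(0) - log g(t - s)) ds = (1/π) ∫_0^∞ (F(0) - cos (kt) F(k)) Lh(k) dk`.

`pot_eq`: the potential `f` of an object on the quanta of one species, plus the potential
`(log g(0) - log g) * τ` of the charge `τ` of the splitting of the two species, is
`V * σ - q log g(0)`.
-/

set_option autoImplicit false

open MeasureTheory Set Filter Topology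

namespace NUC43

noncomputable section

open NUMF (l l_pos g V Lh Uh ck1 sk sk_pos dom)

variable {α β : ℝ} {F G : ℂ → ℂ}

lemma Lh_dom {k : ℝ} (hk : 0 < k) : 0 ≤ Lh k ∧ k ^ 2 * (Lh k / (2 * Real.pi)) ≤ 2 * dom l k := by
  have hpi := Real.pi_pos
  have hs := sk_pos hk
  have h1 := NUMF.one_le_ck1 k
  refine ⟨(NUMF.Lh_pos hk.ne').le, ?_⟩
  unfold Lh dom
  have h2 : ck1 k ≤ Real.exp (l * k) := by
    unfold ck1
    refine (cosh_le_exp_abs _).trans (le_of_eq ?_)
    rw [abs_of_pos (mul_pos l_pos hk)]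
  have e : k ^ 2 * (2 * Real.pi * ((2 * ck1 k - 1) / (k * sk k)) / (2 * Real.pi)) =
      (2 * ck1 k - 1) * (k / sk k) := by
    field_simp
  rw [e, ← mul_assoc]
  refine mul_le_mul_of_nonneg_right (by linarith) (by positivity)

/-- the integral representation of `log g(0) - log g` -/
lemma ell_eq (u : ℝ) : IntegrableOn (fun k => 2 * (1 - Real.cos (k * u)) * (Lh k / (2 * Real.pi))) (Ioi 0) ∧
    Real.log (g 0) - Real.log (g u) =
      ∫ k in Ioi (0:ℝ), 2 * (1 - Real.cos (k * u)) * (Lh k / (2 * Real.pi)) := by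
  have hpi := Real.pi_pos
  obtain ⟨h1, h2⟩ := NUMF.log_g_fourier u
  have e : ∀ k, 2 * (1 - Real.cos (k * u)) * (Lh k / (2 * Real.pi)) =
      2 * (1 - Real.cos (k * u)) * (2 * ck1 k - 1) / (k * sk k) := by
    intro k
    unfold Lh
    field_simp
  simp_rw [e]
  exact ⟨h1, by linarith⟩

lemma quad_int (h : Gr α F) (hα : α < 0) (t : ℝ) : Integrable fun s => |inv F s| * (t - s) ^ 2 := by
  obtain ⟨M, hM0, hM⟩ := h.inv_decay hα
  have hic := h.inv_cont hα
  have h1 := (NUMF.int_exp_abs (b := 3 / 2) (by norm_num)).const_mul (M * (2 * t ^ 2 + 4))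
  refine h1.mono' (Continuous.aestronglyMeasurable (by fun_prop)) (Eventually.of_forall fun s => ?_)
  rw [Real.norm_eq_abs, abs_of_nonneg (by positivity)]
  have h2 : (t - s) ^ 2 ≤ (2 * t ^ 2 + 4) * Real.exp |s| := by
    have h3 := Real.quadratic_le_exp_of_nonneg (abs_nonneg s)
    have h4 : |s| ^ 2 = s ^ 2 := sq_abs s
    have h5 : 0 ≤ |s| := abs_nonneg s
    have h6 : 1 ≤ Real.exp |s| := by linarith [sq_nonneg |s|]
    nlinarith [sq_nonneg (t + s), sq_nonneg t]
  calc |inv F s| * (t - s) ^ 2 ≤ (M * Real.exp (-(5 / 2) * |s|)) * ((2 * t ^ 2 + 4) * Real.exp |s|) :=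
        mul_le_mul (hM s) h2 (sq_nonneg _) (by positivity)
    _ = M * (2 * t ^ 2 + 4) * (Real.exp (-(5 / 2) * |s|) * Real.exp |s|) := by ring
    _ = _ := by
      rw [← Real.exp_add]
      congr 2
      ring

theorem Gr.logg_conv (h : Gr α F) (hα : α < 0) (t : ℝ) :
    Integrable (fun s => inv F s * (Real.log (g 0) - Real.log (g (t - s)))) ∧
    IntegrableOn (fun k => 2 * ((F 0).re - Real.cos (t * k) * (F k).re) * (Lh k / (2 * Real.pi))) (Ioi 0) ∧
    ∫ s, inv F s * (Real.log (g 0) - Real.log (g (t - s))) =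
      ∫ k in Ioi (0:ℝ), 2 * ((F 0).re - Real.cos (t * k) * (F k).re) * (Lh k / (2 * Real.pi)) := by
  have hpi := Real.pi_pos
  have hl := l_pos
  have hii := h.inv_integrable hα
  have hic := h.inv_cont hα
  have hLm : Measurable fun k => Lh k := by
    unfold Lh ck1 sk
    fun_prop
  -- the product
  have hprod : Integrable (fun p : ℝ × ℝ => inv F p.1 *
      (2 * (1 - Real.cos (p.2 * (t - p.1))) * (Lh p.2 / (2 * Real.pi))))
      (volume.prod (volume.restrict (Ioi 0))) := by
    have h1 : Integrable (fun p : ℝ × ℝ => (|inv F p.1| * (t - p.1) ^ 2) * (2 * dom l p.2))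
        (volume.prod (volume.restrict (Ioi 0))) :=
      (quad_int h hα t).mul_prod ((NUMF.dom_integrable (b := l) (by unfold l; linarith)).const_mul 2)
    refine h1.mono' ?_ ?_
    · refine Measurable.aestronglyMeasurable ?_
      have := hic.measurable
      fun_prop
    · have h2 : ∀ᵐ p : ℝ × ℝ ∂(volume.prod (volume.restrict (Ioi (0:ℝ)))), p.2 ∈ Ioi (0:ℝ) := by
        have h3 : ∀ᵐ k : ℝ ∂(volume.restrict (Ioi (0:ℝ))), k ∈ Ioi (0:ℝ) :=
          ae_restrict_mem measurableSet_Ioi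
        exact Measure.quasiMeasurePreserving_snd.ae h3
      filter_upwards [h2] with p hp
      obtain ⟨h4, h5⟩ := Lh_dom hp
      rw [Real.norm_eq_abs, abs_mul, mul_assoc |inv F p.1|]
      refine mul_le_mul_of_nonneg_left ?_ (abs_nonneg _)
      have h6 : 0 ≤ 1 - Real.cos (p.2 * (t - p.1)) := by linarith [Real.cos_le_one (p.2 * (t - p.1))]
      have h7 : 1 - Real.cos (p.2 * (t - p.1)) ≤ (p.2 * (t - p.1)) ^ 2 / 2 := by
        linarith [Real.one_sub_sq_div_two_le_cos (x := p.2 * (t - p.1))]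
      have h8 : 0 ≤ Lh p.2 / (2 * Real.pi) := by positivity
      rw [abs_of_nonneg (by positivity)]
      calc _ ≤ 2 * ((p.2 * (t - p.1)) ^ 2 / 2) * (Lh p.2 / (2 * Real.pi)) := by gcongr
        _ = (t - p.1) ^ 2 * (p.2 ^ 2 * (Lh p.2 / (2 * Real.pi))) := by ring
        _ ≤ _ := mul_le_mul_of_nonneg_left h5 (sq_nonneg _)
  have e1 : ∀ s, inv F s * (Real.log (g 0) - Real.log (g (t - s))) =
      ∫ k in Ioi (0:ℝ), inv F s * (2 * (1 - Real.cos (k * (t - s))) * (Lh k / (2 * Real.pi))) := by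
    intro s
    rw [integral_const_mul, ← (ell_eq (t - s)).2]
  have e2 : ∀ k, ∫ s, inv F s * (2 * (1 - Real.cos (k * (t - s))) * (Lh k / (2 * Real.pi))) =
      2 * ((F 0).re - Real.cos (t * k) * (F k).re) * (Lh k / (2 * Real.pi)) := by
    intro k
    have e3 : ∀ s, inv F s * (2 * (1 - Real.cos (k * (t - s))) * (Lh k / (2 * Real.pi))) =
        (2 * (Lh k / (2 * Real.pi))) * (inv F s - inv F s * Real.cos (k * (t - s))) := by
      intro s
      ring
    simp_rw [e3]
    have i2 : Integrable fun s => inv F s * Real.cos (k * (t - s)) :=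
      hii.mul_bdd (c := 1) (Continuous.aestronglyMeasurable (by fun_prop))
        (Eventually.of_forall fun t => Real.abs_cos_le_one _)
    rw [integral_const_mul, integral_sub hii i2, h.inv_int hα, shift_cos' hii (inv_neg' F)]
    unfold ct
    rw [h.inv_forward hα, mul_comm k t]
    ring
  refine ⟨?_, ?_, ?_⟩
  · simp_rw [e1]
    exact hprod.integral_prod_left
  · have := hprod.integral_prod_right
    exact this.congr (Eventually.of_forall e2)
  · simp_rw [e1]
    rw [integral_integral_swap hprod]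
    exact setIntegral_congr_fun measurableSet_Ioi fun k _ => e2 k

lemma V_even (t : ℝ) : V (-t) = V t := by
  unfold V NUMF.w g
  simp only [Real.sinh_neg, Real.cosh_neg, mul_neg, even_two, Even.neg_pow]

lemma V_integrable : Integrable V := NUMF.V_integral.1

lemma ct_V {k : ℝ} (hk : 0 < k) : ct V k = Uh k := by
  unfold ct
  rw [(NUMF.V_forward hk).2]
  rfl

/-- `V * σ` -/
theorem Gr.V_conv (h : Gr α F) (hα : α < 0) (t : ℝ) :
    ∫ s, V s * inv F (t - s) =
      ∫ k in Ioi (0:ℝ), 2 * Real.cos (t * k) * (Uh k * (F k).re / (2 * Real.pi)) := by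
  rw [h.conv_inv hα V_integrable V_even]
  refine setIntegral_congr_fun measurableSet_Ioi fun k hk => ?_
  show 2 * Real.cos (t * k) * (ct V k * (F k).re / (2 * Real.pi)) = _
  rw [ct_V hk]

/-- **Potentials.** -/
theorem pot_eq {f : ℝ → ℝ} {q : ℝ} {A : ℝ → ℝ} (hA : IntegrableOn (fun k => A k - q * Lh k) (Ioi 0))
    (hf : ∀ t, f t + q * Real.log (g t) =
      -∫ k in Ioi (0:ℝ), 2 * Real.cos (t * k) * ((A k - q * Lh k) / (2 * Real.pi)))
    (hF : Gr α F) (hα : α < 0) (hG : Gr β G) (hβ : β < 0) (hq : (G 0).re = -q)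
    (hS : ∀ k : ℝ, 0 < k → Uh k * (F k).re = -(A k + Lh k * (G k).re)) (t : ℝ) :
    f t + ∫ s, inv G s * (Real.log (g 0) - Real.log (g (t - s))) =
      (∫ s, V s * inv F (t - s)) - q * Real.log (g 0) := by
  have hpi := Real.pi_pos
  obtain ⟨i1, i2, e1⟩ := hG.logg_conv hβ t
  obtain ⟨j1, j2⟩ := ell_eq t
  have e2 := hF.V_conv hα t
  have hAi : IntegrableOn (fun k => 2 * Real.cos (t * k) * ((A k - q * Lh k) / (2 * Real.pi))) (Ioi 0) := by
    have h0 : IntegrableOn (fun k => (A k - q * Lh k) / (2 * Real.pi)) (Ioi 0) := hA.div_const _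
    have h1 : IntegrableOn (fun k => (A k - q * Lh k) / (2 * Real.pi) * (2 * Real.cos (t * k))) (Ioi 0) := by
      refine Integrable.mul_bdd (c := 2) h0 (Continuous.aestronglyMeasurable (by fun_prop))
        (Eventually.of_forall fun k => ?_)
      rw [Real.norm_eq_abs, abs_mul, abs_two]
      have := Real.abs_cos_le_one (t * k)
      linarith
    exact h1.congr (Eventually.of_forall fun k => mul_comm _ _)
  have h3 := hf t
  rw [hq] at i2 e1
  have e4 : ∫ k in Ioi (0:ℝ), 2 * Real.cos (t * k) * (Uh k * (F k).re / (2 * Real.pi)) =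
      ∫ k in Ioi (0:ℝ), (q * (2 * (1 - Real.cos (k * t)) * (Lh k / (2 * Real.pi))) -
        2 * Real.cos (t * k) * ((A k - q * Lh k) / (2 * Real.pi)) +
        2 * (-q - Real.cos (t * k) * (G k).re) * (Lh k / (2 * Real.pi))) := by
    refine setIntegral_congr_fun measurableSet_Ioi fun k hk => ?_
    show 2 * Real.cos (t * k) * (Uh k * (F k).re / (2 * Real.pi)) = _
    rw [hS k hk, mul_comm k t]
    ring
  have k1 : IntegrableOn (fun k => q * (2 * (1 - Real.cos (k * t)) * (Lh k / (2 * Real.pi)))) (Ioi 0) :=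
    j1.const_mul q
  have b1 := integral_add (k1.sub hAi) i2
  have b2 := integral_sub k1 hAi
  simp only [Pi.sub_apply] at b1 b2
  rw [e1, e2, e4, b1, b2, integral_const_mul, ← j2]
  linarith

end

end NUC43
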