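import Pool.Agent.NUC43.Grp

/-!
# The symbols `sp = -(A+B)/U₊` and `sm = -(A-B)/U₋` of the groups
-/

set_option autoImplicit false

open MeasureTheory Set Filter Topology

namespace NUC43

noncomputable section

open NUMF (l l_pos g h V Lh Uh ck1 sk sk_pos lq lqg)

variable {j e : ℝ}

/-- `1 / (2c - 1)` -/
def im (z : ℂ) : ℂ := cc (1 / 2) z * (cc (3 / 2) z)⁻¹
/-- `1 / (2c + 1)` -/
def ip (z : ℂ) : ℂ := (2 * cc 1 z + 1)⁻¹
/-- `1 / (c + 1)` -/
def ih (z : ℂ) : ℂ := ((1 / 2 : ℝ) : ℂ) * ((cc (1 / 2) z)⁻¹ * (cc (1 / 2) z)⁻¹)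

lemma gr_im : Gr (-1) im := gr_inv_m
lemma gr_ip : Gr (-1) ip := gr_inv_p
lemma gr_ih : Gr (-1) ih :=
  (((gr_inv_cc (a := 1 / 2) (by norm_num) (by norm_num)).mul'
    (gr_inv_cc (a := 1 / 2) (by norm_num) (by norm_num)) (γ := -1) (by norm_num)).smul (1 / 2))

/-- decay rate -/
def kap (j e : ℝ) : ℝ := min (min (j - 2) (3 - j)) (min e (1 - e))

lemma kap_pos (h : Adm j e) : 0 < kap j e := by
  obtain ⟨h1, h2, h3, h4⟩ := h
  unfold kap
  exact lt_min (lt_min (by linarith) (by linarith)) (lt_min (by linarith) (by linarith))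

lemma kap_le (j e : ℝ) : kap j e ≤ j - 2 ∧ kap j e ≤ 3 - j ∧ kap j e ≤ e ∧ kap j e ≤ 1 - e ∧
    kap j e ≤ 1 / 2 := by
  have h1 : kap j e ≤ min (j - 2) (3 - j) := min_le_left _ _
  have h2 : kap j e ≤ min e (1 - e) := min_le_right _ _
  have h3 := h1.trans (min_le_left _ _)
  have h4 := h1.trans (min_le_right _ _)
  have h5 := h2.trans (min_le_left _ _)
  have h6 := h2.trans (min_le_right _ _)
  exact ⟨h3, h4, h5, h6, by linarith⟩

/-- polynomials in `c` -/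
def pc (a0 a1 a2 a3 : ℝ) (z : ℂ) : ℂ :=
  (a0 : ℂ) + a1 * cc 1 z + a2 * (cc 1 z * cc 1 z) + a3 * (cc 1 z * (cc 1 z * cc 1 z))

lemma gr_c1 : Gr 1 (cc 1) := gr_cc' (by rw [abs_one])

lemma gr_pc3 (a0 a1 a2 a3 : ℝ) : Gr 3 (pc a0 a1 a2 a3) :=
  ((((gr_const a0).mono (by norm_num)).add ((gr_c1.smul a1).mono (by norm_num))).add
    (((gr_c1.mul' gr_c1 (γ := 2) (by norm_num)).smul a2).mono (by norm_num))).add
    ((gr_c1.mul' (gr_c1.mul' gr_c1 (γ := 2) (by norm_num)) (γ := 3) (by norm_num)).smul a3)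

lemma gr_pc2 (a0 a1 a2 : ℝ) : Gr 2 (pc a0 a1 a2 0) :=
  ((((gr_const a0).mono (by norm_num)).add ((gr_c1.smul a1).mono (by norm_num))).add
    (((gr_c1.mul' gr_c1 (γ := 2) (by norm_num)).smul a2))).congr fun z => by
      unfold pc; simp

lemma gr_pc1 (a0 a1 : ℝ) : Gr 1 (pc a0 a1 0 0) :=
  (((gr_const a0).mono (by norm_num)).add (gr_c1.smul a1)).congr fun z => by
      unfold pc; simp

/-- `-(A+B)/U₊` -/
def sp (j e : ℝ) : Grp → ℂ → ℂ
  | .L => fun z => -((cc (4 - j) z + dc (4 - j) j z) * (ip z * ip z))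
  | .T => fun z => (2 : ℝ) * ((cc (1 / 2) z * cc 2 z) * (im z * (ip z * ip z)))
  | .S => fun z => (2 : ℝ) * ((cc (3 / 2 - e) z * cc (1 / 2) z) * (im z * ip z))
  | .V => fun z => -((dc (4 - e) e z - cc e z * pc 1 2 4 0 z) * (im z * (ip z * ip z)))

/-- `-(A-B)/U₋` -/
def sm (j e : ℝ) : Grp → ℂ → ℂ
  | .L => fun z => -((cc 1 z * cc (4 - j) z + cc j z) * ((im z * im z) * ih z))
  | .T => fun z => -((2 : ℝ) * (((cc (1 / 2) z * cc 2 z) * pc (-1) 3 0 0 z) * ((im z * (im z * im z)) * ih z)))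
  | .S => fun z => -((2 : ℝ) * (((cc (3 / 2 - e) z * cc (1 / 2) z) * pc (-1) (-3) 6 0 z) *
      ((im z * (im z * im z)) * ih z)))
  | .V => fun z => -((cc (4 - e) z + cc e z * pc (-2) 5 2 (-4) z) * ((im z * (im z * im z)) * ih z))

lemma gr_imip2 : Gr (-3) (fun z => im z * (ip z * ip z)) :=
  gr_im.mul' (gr_ip.mul' gr_ip (γ := -2) (by norm_num)) (by norm_num)

lemma gr_im3ih : Gr (-4) (fun z => (im z * (im z * im z)) * ih z) :=
  (gr_im.mul' (gr_im.mul' gr_im (γ := -2) (by norm_num)) (γ := -3) (by norm_num)).mul' gr_ih (by norm_num)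

lemma gr_im2ih : Gr (-3) (fun z => (im z * im z) * ih z) :=
  (gr_im.mul' gr_im (γ := -2) (by norm_num)).mul' gr_ih (by norm_num)

theorem gr_sp (h : Adm j e) (γ : Grp) : Gr (-kap j e) (sp j e γ) := by
  obtain ⟨h1, h2, h3, h4⟩ := h
  obtain ⟨k1, k2, k3, k4, k5⟩ := kap_le j e
  cases γ
  · refine (((gr_cc' (a := 4 - j) (γ := 2 - kap j e) ?_).add
      ((gr_dc (4 - j) j).mono (β := 2 - kap j e) ?_)).mul' (gr_ip.mul' gr_ip (γ := -2) (by norm_num))
      (γ := -kap j e) (by ring)).neg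
    · rw [abs_of_pos (by linarith)]
      linarith
    · rw [show (4 - j + j) / 2 = 2 by ring, abs_of_pos (by norm_num : (0:ℝ) < 2),
        show (4 - j - j) / 2 = -(j - 2) by ring, abs_neg, abs_of_pos (by linarith)]
      linarith
  · have g1 : Gr (5 / 2) (fun z => cc (1 / 2) z * cc 2 z) :=
      (gr_cc' (a := 1 / 2) (γ := 1 / 2) (by rw [abs_of_pos (by norm_num)])).mul'
        (gr_cc' (a := 2) (γ := 2) (by rw [abs_of_pos (by norm_num)])) (by norm_num)
    exact ((g1.mul' gr_imip2 (γ := -1 / 2) (by norm_num)).smul 2).mono (by linarith)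
  · have g1 : Gr (2 - e) (fun z => cc (3 / 2 - e) z * cc (1 / 2) z) :=
      (gr_cc' (a := 3 / 2 - e) (γ := 3 / 2 - e) (by rw [abs_of_pos (by linarith)])).mul'
        (gr_cc' (a := 1 / 2) (γ := 1 / 2) (by rw [abs_of_pos (by norm_num)])) (by ring)
    exact ((g1.mul' (gr_im.mul' gr_ip (γ := -2) (by norm_num)) (γ := -e) (by ring)).smul 2).mono
      (by linarith)
  · have g1 : Gr (3 - kap j e) (dc (4 - e) e) := by
      refine (gr_dc (4 - e) e).mono ?_
      rw [show (4 - e + e) / 2 = 2 by ring, abs_of_pos (by norm_num : (0:ℝ) < 2),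
        show (4 - e - e) / 2 = 2 - e by ring, abs_of_pos (by linarith)]
      linarith
    have g2 : Gr (3 - kap j e) (fun z => cc e z * pc 1 2 4 0 z) :=
      ((gr_cc' (a := e) (γ := e) (by rw [abs_of_pos h3])).mul' (gr_pc2 1 2 4) (γ := e + 2) rfl).mono
        (by linarith)
    exact ((g1.sub g2).mul' gr_imip2 (γ := -kap j e) (by ring)).neg

theorem gr_sm (h : Adm j e) (γ : Grp) : Gr (-kap j e) (sm j e γ) := by
  obtain ⟨h1, h2, h3, h4⟩ := h
  obtain ⟨k1, k2, k3, k4, k5⟩ := kap_le j e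
  cases γ
  · have g1 : Gr (3 - kap j e) (fun z => cc 1 z * cc (4 - j) z) :=
      ((gr_c1.mul' (gr_cc' (a := 4 - j) (γ := 4 - j) (by rw [abs_of_pos (by linarith)]))
        (γ := 5 - j) (by ring))).mono (by linarith)
    have g2 : Gr (3 - kap j e) (cc j) := gr_cc' (by rw [abs_of_pos (by linarith)]; linarith)
    exact ((g1.add g2).mul' gr_im2ih (γ := -kap j e) (by ring)).neg
  · have g1 : Gr (5 / 2) (fun z => cc (1 / 2) z * cc 2 z) :=
      (gr_cc' (a := 1 / 2) (γ := 1 / 2) (by rw [abs_of_pos (by norm_num)])).mul'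
        (gr_cc' (a := 2) (γ := 2) (by rw [abs_of_pos (by norm_num)])) (by norm_num)
    exact ((((g1.mul' (gr_pc1 (-1) 3) (γ := 7 / 2) (by norm_num)).mul' gr_im3ih (γ := -1 / 2)
      (by norm_num)).smul 2).neg).mono (by linarith)
  · have g1 : Gr (2 - e) (fun z => cc (3 / 2 - e) z * cc (1 / 2) z) :=
      (gr_cc' (a := 3 / 2 - e) (γ := 3 / 2 - e) (by rw [abs_of_pos (by linarith)])).mul'
        (gr_cc' (a := 1 / 2) (γ := 1 / 2) (by rw [abs_of_pos (by norm_num)])) (by ring)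
    exact ((((g1.mul' (gr_pc2 (-1) (-3) 6) (γ := 4 - e) (by ring)).mul' gr_im3ih (γ := -e)
      (by ring)).smul 2).neg).mono (by linarith)
  · have g1 : Gr (4 - kap j e) (cc (4 - e)) := gr_cc' (by rw [abs_of_pos (by linarith)]; linarith)
    have g2 : Gr (4 - kap j e) (fun z => cc e z * pc (-2) 5 2 (-4) z) :=
      ((gr_cc' (a := e) (γ := e) (by rw [abs_of_pos h3])).mul' (gr_pc3 (-2) 5 2 (-4)) (γ := e + 3) rfl).mono
        (by linarith)
    exact ((g1.add g2).mul' gr_im3ih (γ := -kap j e) (by ring)).neg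

/-! ### values on the real line -/

lemma cc_real (a k : ℝ) : cc a k = ((Real.cosh (a * l * k) : ℝ) : ℂ) := by
  unfold cc
  rw [← Complex.ofReal_mul, ← Complex.ofReal_cosh]

lemma c_half (k : ℝ) : Real.cosh (1 * l * k) = 2 * Real.cosh (1 / 2 * l * k) ^ 2 - 1 := by
  rw [show 1 * l * k = 2 * (1 / 2 * l * k) by ring, Real.cosh_two_mul, Real.sinh_sq]
  ring

lemma c_three (k : ℝ) : Real.cosh (3 / 2 * l * k) =
    Real.cosh (1 / 2 * l * k) * (2 * Real.cosh (1 * l * k) - 1) := by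
  rw [c_half, show 3 / 2 * l * k = 3 * (1 / 2 * l * k) by ring, Real.cosh_three_mul]
  ring

lemma im_real (k : ℝ) : im k = ((1 / (2 * Real.cosh (1 * l * k) - 1) : ℝ) : ℂ) := by
  have h1 : 0 < Real.cosh (1 / 2 * l * k) := Real.cosh_pos _
  have h2 : 1 ≤ Real.cosh (1 * l * k) := Real.one_le_cosh _
  have h3 : 0 < 2 * Real.cosh (1 * l * k) - 1 := by linarith
  unfold im
  rw [cc_real, cc_real, ← Complex.ofReal_inv, ← Complex.ofReal_mul, c_three]
  congr 1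
  field_simp

lemma ip_real (k : ℝ) : ip k = ((1 / (2 * Real.cosh (1 * l * k) + 1) : ℝ) : ℂ) := by
  unfold ip
  rw [cc_real]
  push_cast
  rw [one_div]

lemma ih_real (k : ℝ) : ih k = ((1 / (Real.cosh (1 * l * k) + 1) : ℝ) : ℂ) := by
  have h1 : 0 < Real.cosh (1 / 2 * l * k) := Real.cosh_pos _
  unfold ih
  rw [cc_real, ← Complex.ofReal_inv, ← Complex.ofReal_mul, ← Complex.ofReal_mul, c_half]
  congr 1
  field_simp
  ring

lemma pc_real (a0 a1 a2 a3 k : ℝ) : pc a0 a1 a2 a3 k =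
    ((a0 + a1 * Real.cosh (1 * l * k) + a2 * Real.cosh (1 * l * k) ^ 2 +
      a3 * Real.cosh (1 * l * k) ^ 3 : ℝ) : ℂ) := by
  unfold pc
  rw [cc_real]
  push_cast
  ring

lemma dc_real' (a b : ℝ) {k : ℝ} (hk : 0 < k) : dc a b k =
    (((Real.cosh (a * l * k) - Real.cosh (b * l * k)) / (Real.cosh (1 * l * k) - 1) : ℝ) : ℂ) := by
  rw [← (gr_dc a b).ofReal_re' k, dc_real a b hk, one_mul]

end

end NUC43
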